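import Pool.Agent.SawStrip.Defs

/-!
# SawStrip module Mir2: the second mirror

`(L₁, L₂) ↦ L₁ ++ (L₂.map (fun p => (p.1, -1 - p.2))).reverse` maps `A n m h × A n m h` injectively
into `P (2 n + 1) (2 h + 1)`: `L₁` lies in `y ≥ 0`, the mirror image of `L₂` in `y ≤ -1`; it starts
(reversed) at `(m, -1)` and ends at `(0, -1)`.
-/

set_option autoImplicit false

open Pool.Agent.SawKes Pool.Agent.SawPoly

namespace Pool.Agent.SawStrip

namespace Mir2Aux

/-- the mirror image -/
def mi (p : Pt) : Pt := (p.1, -1 - p.2)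

theorem mi_inj : Function.Injective mi := by
  rintro ⟨a, b⟩ ⟨c, d⟩ h
  unfold mi at h
  simp only [Prod.mk.injEq] at h ⊢
  omega

theorem mi_nb {p q : Pt} (h : nb p q) : nb (mi p) (mi q) := by
  rw [nb_iff] at h ⊢
  unfold mi
  obtain ⟨a, b⟩ := p
  obtain ⟨c, d⟩ := q
  simp only [Prod.mk.injEq] at h ⊢
  omega

/-- the glued walk -/
def glue (x : List Pt × List Pt) : List Pt := x.1 ++ (x.2.map mi).reverse

theorem glue_mem {n : ℕ} {m h : ℤ} {L₁ L₂ : List Pt} (h1 : L₁ ∈ A n m h) (h2 : L₂ ∈ A n m h) :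
    glue (L₁, L₂) ∈ P (2 * n + 1) (2 * h + 1) := by
  rw [mem_A] at h1 h2
  obtain ⟨⟨a1, a2, a3, a4⟩, a5, a6, p, hp, hph⟩ := h1
  obtain ⟨⟨b1, b2, b3, b4⟩, b5, b6, q, hq, hqh⟩ := h2
  have hne : (L₂.map mi).reverse ≠ [] := by
    intro e
    rw [List.reverse_eq_nil_iff, List.map_eq_nil_iff] at e
    rw [e] at b1
    simp at b1
  have hne1 : L₁ ≠ [] := by
    intro e
    rw [e] at a1
    simp at a1
  rw [mem_P]
  unfold glue
  refine ⟨⟨?_, ?_, ?_, ?_⟩, ?_, ?_⟩
  · rw [List.length_append, List.length_reverse, List.length_map, a1, b1]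
    omega
  · show (L₁ ++ (L₂.map mi).reverse).head? = some 0
    rw [List.head?_append_of_ne_nil _ hne1, a2]
  · show (L₁ ++ (L₂.map mi).reverse).IsChain nb
    rw [List.isChain_append]
    refine ⟨a3, ?_, ?_⟩
    · rw [List.isChain_reverse, List.isChain_map]
      exact b3.imp fun u v huv => nb_comm.1 (mi_nb huv)
    · intro u hu v hv
      rw [List.head?_reverse, List.getLast?_map, b5] at hv
      rw [a5] at hu
      have hu' : (m, 0) = u := by simpa using hu
      have hv' : mi (m, 0) = v := by simpa using hv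
      rw [← hu', ← hv', nb_iff]
      right; right; right
      rfl
  · show (L₁ ++ (L₂.map mi).reverse).Nodup
    rw [List.nodup_append]
    refine ⟨a4, List.nodup_reverse.2 (b4.map mi_inj), ?_⟩
    intro u hu v hv huv
    rw [List.mem_reverse, List.mem_map] at hv
    obtain ⟨v', hv', rfl⟩ := hv
    have h3 := a6 u hu
    have h4 := b6 v' hv'
    rw [huv] at h3
    unfold mi at h3
    have h5 : (0 : ℤ) ≤ -1 - v'.2 := h3
    omega
  · show (L₁ ++ (L₂.map mi).reverse).getLast? = some (0, -1)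
    rw [List.getLast?_append_of_ne_nil _ hne, List.getLast?_reverse, List.head?_map, b2]
    rfl
  · refine ⟨p, List.mem_append_left _ hp, mi q, List.mem_append_right _ ?_, ?_⟩
    · rw [List.mem_reverse]
      exact List.mem_map_of_mem hq
    · show 2 * h + 1 ≤ p.2 - (-1 - q.2)
      omega

theorem glue_inj {n : ℕ} {m h : ℤ} {x y : List Pt × List Pt} (hx : x.1 ∈ A n m h)
    (hy : y.1 ∈ A n m h) (e : glue x = glue y) : x = y := by
  rw [mem_A] at hx hy
  unfold glue at e
  have h1 := List.append_inj e (by rw [hx.1.1, hy.1.1])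
  have h2 := List.reverse_injective h1.2
  have h3 := List.map_injective_iff.2 mi_inj h2
  exact Prod.ext h1.1 h3

end Mir2Aux

open Mir2Aux in
theorem A_sq (n : ℕ) (m h : ℤ) : (A n m h).card ^ 2 ≤ (P (2 * n + 1) (2 * h + 1)).card := by
  rw [pow_two, ← Finset.card_product]
  refine Finset.card_le_card_of_injOn glue ?_ ?_
  · intro x hx
    rw [Finset.mem_coe, Finset.mem_product] at hx
    rw [Finset.mem_coe]
    exact glue_mem hx.1 hx.2
  · intro x hx y hy e
    rw [Finset.mem_coe, Finset.mem_product] at hx hy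
    exact glue_inj hx.1 hy.1 e

end Pool.Agent.SawStrip
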