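import Pool.Agent.SawStrip.Defs

/-!
# SawStrip module Split: a crossing is a pair of walks with extreme end points

`L ∈ Br n T` with last site `(x, T)`, `X` = its largest first coordinate, `j` an index with
`L[j] = (X, Y)`. Then `L.take (j + 1) ∈ J j X Y` and
`((L.drop j).reverse).map (fun p => (p.1 - x, T - p.2)) ∈ J (n - j) (X - x) (T - Y)`; `0 ≤ X ≤ n`,
`0 ≤ Y ≤ T`, `|x| ≤ n`; `L` is determined by `(j, X, Y, x)` and the two walks.
-/

set_option autoImplicit false

open Pool.Agent.SawKes Pool.Agent.SawPoly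

namespace Pool.Agent.SawStrip

namespace SplitAux

theorem abs_le {L : List Pt} (hc : L.IsChain nb) : ∀ (i : ℕ) (hi : i < L.length),
    |L[i].1 - (L[0]'(by omega)).1| ≤ i := by
  intro i
  induction i with
  | zero =>
    intro hi
    simp
  | succ i ih =>
    intro hi
    have h1 := ih (by omega)
    have h2 : nb L[i] L[i + 1] := List.isChain_iff_getElem.1 hc i (by omega)
    unfold nb at h2
    have h3 := abs_nonneg (L[i + 1].2 - L[i].2)
    have h4 : |L[i + 1].1 - L[i].1| ≤ 1 := by omega
    have h5 : |L[i + 1].1 - (L[0]'(by omega)).1| ≤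
        |L[i + 1].1 - L[i].1| + |L[i].1 - (L[0]'(by omega)).1| := abs_sub_le _ _ _
    push_cast
    omega

theorem bnd {n : ℕ} {L : List Pt} (hl : L.length = n + 1) (hh : L.head? = some 0)
    (hc : L.IsChain nb) {p : Pt} (hp : p ∈ L) : -(n : ℤ) ≤ p.1 ∧ p.1 ≤ n := by
  obtain ⟨i, hi, rfl⟩ := List.getElem_of_mem hp
  have h1 := abs_le hc i hi
  have h0 : L[0]'(by omega) = 0 := by
    rw [List.head?_eq_getElem?, List.getElem?_eq_getElem (by omega)] at hh
    exact Option.some.inj hh
  rw [h0] at h1
  have h2 : |L[i].1| ≤ i := by simpa using h1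
  rw [_root_.abs_le] at h2
  omega

/-- the walk obtained from the two parts -/
def glue (T : ℕ) (x : ℤ) (A B : List Pt) : List Pt :=
  A ++ ((B.map fun p => (p.1 + x, (T : ℤ) - p.2)).reverse).tail

end SplitAux

open SplitAux

theorem Br_le (n T : ℕ) : (Br n T).card ≤
    ∑ j ∈ Finset.range (n + 1), ∑ X ∈ Finset.Icc (0 : ℤ) n, ∑ Y ∈ Finset.Icc (0 : ℤ) T,
      ∑ x ∈ Finset.Icc (-(n : ℤ)) n,
        (J j X Y).card * (J (n - j) (X - x) (T - Y)).card := by
  classical
  obtain ⟨I, hI⟩ : ∃ I : Finset (ℕ × ℤ × ℤ × ℤ), I = (Finset.range (n + 1)) ×ˢ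
      (Finset.Icc (0 : ℤ) n) ×ˢ (Finset.Icc (0 : ℤ) T) ×ˢ (Finset.Icc (-(n : ℤ)) n) := ⟨_, rfl⟩
  obtain ⟨F, hF⟩ : ∃ F : (ℕ × ℤ × ℤ × ℤ) → Finset (List Pt × List Pt), F = fun q =>
      J q.1 q.2.1 q.2.2.1 ×ˢ J (n - q.1) (q.2.1 - q.2.2.2) (T - q.2.2.1) := ⟨_, rfl⟩
  have hcard : (I.sigma F).card = ∑ j ∈ Finset.range (n + 1), ∑ X ∈ Finset.Icc (0 : ℤ) n,
      ∑ Y ∈ Finset.Icc (0 : ℤ) T, ∑ x ∈ Finset.Icc (-(n : ℤ)) n,
        (J j X Y).card * (J (n - j) (X - x) (T - Y)).card := by
    rw [Finset.card_sigma, hI, Finset.sum_product]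
    refine Finset.sum_congr rfl fun j _ => ?_
    rw [Finset.sum_product]
    refine Finset.sum_congr rfl fun X _ => ?_
    rw [Finset.sum_product]
    refine Finset.sum_congr rfl fun Y _ => ?_
    refine Finset.sum_congr rfl fun x _ => ?_
    rw [hF]
    simp only [Finset.card_product]
  rw [← hcard]
  have hsub : Br n T ⊆ (I.sigma F).image fun r => glue T r.1.2.2.2 r.2.1 r.2.2 := by
    intro L hL
    obtain ⟨⟨hl, hh, hc, hn⟩, ⟨e, he, heT⟩, hy⟩ := mem_Br.1 hL
    have hne : L ≠ [] := by
      intro h
      rw [h] at hl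
      simp at hl
    have h0 : (0 : Pt) ∈ L := List.mem_of_mem_head? hh
    obtain ⟨p, hp, hmax⟩ := Finset.exists_max_image L.toFinset (fun q => q.1)
      ⟨0, List.mem_toFinset.2 h0⟩
    rw [List.mem_toFinset] at hp
    have hmax : ∀ q ∈ L, q.1 ≤ p.1 := fun q hq => hmax q (List.mem_toFinset.2 hq)
    obtain ⟨j, hj, hjp⟩ := List.getElem_of_mem hp
    have heL : e ∈ L := List.mem_of_mem_getLast? he
    have bp := bnd hl hh hc hp
    have be := bnd hl hh hc heL
    have yp := hy p hp
    have x0 : 0 ≤ p.1 := hmax 0 h0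
    rw [Finset.mem_image]
    refine ⟨⟨(j, p.1, p.2, e.1), (L.take (j + 1),
      ((L.drop j).reverse).map fun q => (q.1 - e.1, (T : ℤ) - q.2))⟩, ?_, ?_⟩
    · rw [Finset.mem_sigma, hI, hF]
      refine ⟨?_, ?_⟩
      · simp only [Finset.mem_product, Finset.mem_range, Finset.mem_Icc]
        exact ⟨by omega, ⟨x0, bp.2⟩, yp, be⟩
      · simp only [Finset.mem_product]
        rw [mem_J, mem_J]
        refine ⟨⟨⟨?_, ?_, hc.take _, hn.sublist (List.take_sublist _ _)⟩, ?_, ?_⟩,
          ⟨⟨?_, ?_, ?_, ?_⟩, ?_, ?_⟩⟩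
        · rw [List.length_take]
          omega
        · rw [List.head?_take, if_neg (by omega)]
          exact hh
        · rw [List.getLast?_take, if_neg (by omega)]
          simp only [Nat.add_sub_cancel]
          rw [List.getElem?_eq_getElem hj, hjp]
          rfl
        · intro q hq
          have hq' := List.mem_of_mem_take hq
          exact ⟨(hy q hq').1, hmax q hq'⟩
        · rw [List.length_map, List.length_reverse, List.length_drop]
          omega
        · rw [List.head?_map, List.head?_reverse, List.getLast?_drop, if_neg (by omega), he]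
          simp [heT]
        · rw [List.isChain_map, List.isChain_reverse]
          refine (hc.drop j).imp ?_
          intro a b hab
          unfold nb at hab ⊢
          simp only
          rw [abs_sub_comm] at hab
          have e1 : a.1 - e.1 - (b.1 - e.1) = a.1 - b.1 := by ring
          have e2 : (T : ℤ) - a.2 - (T - b.2) = b.2 - a.2 := by ring
          rw [e1, e2]
          exact hab
        · refine List.Nodup.map ?_ (List.nodup_reverse.2 (hn.sublist (List.drop_sublist _ _)))
          intro a b hab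
          simp only [Prod.mk.injEq] at hab
          exact Prod.ext (by omega) (by omega)
        · rw [List.getLast?_map, List.getLast?_reverse, List.head?_drop,
            List.getElem?_eq_getElem hj, hjp]
          rfl
        · intro q hq
          rw [List.mem_map] at hq
          obtain ⟨a, ha, rfl⟩ := hq
          rw [List.mem_reverse] at ha
          have ha' := List.mem_of_mem_drop ha
          have h1 := hy a ha'
          have h2 := hmax a ha'
          simp only
          omega
    · unfold glue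
      simp only
      rw [List.map_map]
      have h1 : ((fun q : Pt => (q.1 + e.1, (T : ℤ) - q.2)) ∘
          fun q : Pt => (q.1 - e.1, (T : ℤ) - q.2)) = id := by
        funext q
        simp
      rw [h1, List.map_id, List.reverse_reverse, List.tail_drop, List.take_append_drop]
  exact (Finset.card_le_card hsub).trans Finset.card_image_le

end Pool.Agent.SawStrip
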