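import Pool.Agent.SawStrip.Defs
import Pool.Agent.SawFlat.Enc
import Pool.Agent.SawFlat.Len
import Pool.Agent.SawFlat.All
import Pool.Agent.Saw39.SBR.GapsW
import Pool.Agent.Saw39.SBR.ChainW
import Pool.Agent.Saw39.SBR.IterW

/-!
# SawStrip module Cross: lower bound for crossings
-/

set_option autoImplicit false

open Pool.Agent.SawKes Pool.Agent.SawPoly

namespace Pool.Agent.SawStrip

open SawNu SawNu.SB Pool.Agent.Lib.SAW.HW Pool.Agent.SawBr38 Filter

/-- the growth constant of `SawKes` is the one of the bridges of `SawNu.SB` -/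
theorem mu_eq_G : mu = Real.exp (G sqC 0 0) := by
  have h1 : mu = ⨅ n : {n : ℕ // 1 ≤ n}, ((cc n.1 : ℝ) ^ ((1 : ℝ) / (n.1 : ℝ))) := by
    apply le_antisymm
    · have : Nonempty {n : ℕ // 1 ≤ n} := ⟨⟨1, le_rfl⟩⟩
      apply le_ciInf
      rintro ⟨n, hn⟩
      have hn0 : (0 : ℝ) < n := by exact_mod_cast hn
      have h1 : (mu ^ n) ^ ((1 : ℝ) / (n : ℝ)) ≤ (cc n : ℝ) ^ ((1 : ℝ) / (n : ℝ)) :=
        Real.rpow_le_rpow (pow_nonneg mu_pos.le n) (SawKes.mu_pow_le n) (by positivity)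
      have h2 : (mu ^ n) ^ ((1 : ℝ) / (n : ℝ)) = mu := by
        rw [← Real.rpow_natCast, ← Real.rpow_mul mu_pos.le, mul_one_div_cancel hn0.ne',
          Real.rpow_one]
      rw [h2] at h1
      exact h1
    · have ht := sub_log.tendsto_lim bdd_log
      have ht2 : Filter.Tendsto (fun n : ℕ => Real.exp (Real.log (cc n) / n)) Filter.atTop
          (nhds mu) := (Real.continuous_exp.tendsto _).comp ht
      apply ge_of_tendsto ht2
      filter_upwards [Filter.eventually_ge_atTop 1] with n hn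
      have hpos : (0 : ℝ) < cc n := by exact_mod_cast cc_pos n
      have e : Real.exp (Real.log (cc n) / n) = (cc n : ℝ) ^ ((1 : ℝ) / (n : ℝ)) := by
        rw [Real.rpow_def_of_pos hpos]
        congr 1; ring
      rw [e]
      exact ciInf_le (f := fun n : {n : ℕ // 1 ≤ n} => ((cc n.1 : ℝ) ^ ((1 : ℝ) / (n.1 : ℝ))))
        ⟨0, by rintro x ⟨n, rfl⟩; positivity⟩ ⟨n, hn⟩
  exact mu_eq (C := sqC) (L := sqL) mirrored_sq (fun b => ⟨(0, 1), by simp [sqL], rfl⟩)
    (fun _ => rfl) cc (fun n => by rw [cc, WS_eq_sas (C := sqC) (fun _ => rfl)]) mu h1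

theorem brs_le (n T : ℕ) :
    ((brs sqC n).filter (fun l => SawNu.ht l = T)).card ≤ (Br n T).card := by
  classical
  apply Finset.card_le_card_of_injOn (fun l => sitesOf 0 l)
  · intro l hl
    rw [Finset.mem_coe, Finset.mem_filter, mem_brs] at hl
    obtain ⟨⟨h1, h2⟩, h3⟩ := hl
    have hW : sitesOf 0 l ∈ W n := by
      unfold W walks
      rw [Finset.mem_image]
      refine ⟨l, ?_, rfl⟩
      rw [WS_eq_sas (C := sqC) (fun _ => rfl), mem_sas]
      exact ⟨h1, h2.wd, h2.sa⟩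
    have hget : ∀ i (h : i < (sitesOf 0 l).length), (sitesOf 0 l)[i] = ps l i := by
      intro i h
      rw [getElem_sitesOf, zero_add]
    have hlen : (sitesOf 0 l).length = n + 1 := by rw [length_sitesOf, h1]
    show sitesOf 0 l ∈ ((Br n T : Finset (List (ℤ × ℤ))) : Set (List (ℤ × ℤ)))
    rw [Finset.mem_coe, mem_Br]
    refine ⟨mem_W.1 hW, ⟨ps l n, ?_, ?_⟩, ?_⟩
    · rw [List.getLast?_eq_getElem?, hlen, Nat.add_sub_cancel,
        List.getElem?_eq_getElem (by omega), hget]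
      rfl
    · rw [← h1, ps, List.take_length]
      exact h3
    · intro p hp
      obtain ⟨i, hi, rfl⟩ := List.mem_iff_getElem.1 hp
      rw [hget]
      rw [hlen] at hi
      constructor
      · rcases Nat.eq_zero_or_pos i with h0 | h0
        · subst h0
          simp
        · exact (h2.up i h0 (by omega)).le
      · have := h2.dn i (by omega)
        rw [← h3]
        exact this
  · intro l _ l' _ h
    exact sitesOf_inj 0 h

theorem Br_lower : ∃ Q₀ : ℕ, ∀ Q : ℕ, Q₀ ≤ Q → ∃ T : ℕ, Q < T ∧ T ≤ 4 * Q ∧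
    1 / (400000 * (Q : ℝ) ^ 3) ≤ ∑ n ∈ Finset.range (Q ^ 3 + 1), ((Br n T).card : ℝ) / mu ^ n := by
  obtain ⟨Q₀, hQ₀⟩ := eventually_atTop.1 (crossing_lower (C := sqC) (L := sqL) mirrored_sq
    (fun b => ⟨(0, 1), by simp [sqL], rfl⟩) (fun _ => rfl) sqRot (show (0 : ℝ) < 1 by norm_num))
  refine ⟨Q₀, fun Q hQ => ?_⟩
  obtain ⟨T, h1, h2, h3⟩ := hQ₀ Q hQ
  refine ⟨T, h1, h2, ?_⟩
  have h4 := h3 (Q ^ 3) (by
    have : (Q : ℝ) ^ ((2 : ℝ) + 1) = (Q : ℝ) ^ 3 := by
      rw [show (2 : ℝ) + 1 = ((3 : ℕ) : ℝ) by norm_num, Real.rpow_natCast]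
    rw [this]
    push_cast
    exact le_rfl)
  refine h4.trans ?_
  rw [bT_eq_sum]
  refine Finset.sum_le_sum fun n _ => ?_
  rw [mu_eq_G, div_eq_mul_inv, ← Real.exp_nat_mul, ← Real.exp_neg, mul_comm (n : ℝ)]
  apply mul_le_mul_of_nonneg_right _ (Real.exp_pos _).le
  exact_mod_cast brs_le n T

end Pool.Agent.SawStrip
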