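import Pool.Agent.SawPoly.Basic
import Pool.Agent.SawKes.Walk

/-!
# Strip gap of the square lattice self-avoiding walk: definitions

All walks are lists of sites (`Pt = ℤ × ℤ`), `nb` is lattice adjacency, a walk with `n` steps has
`n + 1` sites and starts at the origin. `cc n` is the number of all walks, `mu` the growth constant.
-/

set_option autoImplicit false

open Pool.Agent.SawKes Pool.Agent.SawPoly

namespace Pool.Agent.SawStrip

/-- the `n`-step self-avoiding walks from the origin, as lists of sites -/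
noncomputable def W (n : ℕ) : Finset (List Pt) := walks n 0

theorem mem_W {n : ℕ} {L : List Pt} :
    L ∈ W n ↔ L.length = n + 1 ∧ L.head? = some 0 ∧ L.IsChain nb ∧ L.Nodup := mem_walks

theorem card_W (n : ℕ) : (W n).card = cc n := card_walks n 0

/-- walks inside `y ≥ 0`, `x ≤ X` which end in `(X, Y)` -/
noncomputable def J (n : ℕ) (X Y : ℤ) : Finset (List Pt) :=
  (W n).filter fun L => L.getLast? = some (X, Y) ∧ ∀ p ∈ L, 0 ≤ p.2 ∧ p.1 ≤ X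

/-- arcs: walks inside `y ≥ 0` which end in `(m, 0)` and reach the height `h` -/
noncomputable def A (n : ℕ) (m h : ℤ) : Finset (List Pt) :=
  (W n).filter fun L => L.getLast? = some (m, 0) ∧ (∀ p ∈ L, 0 ≤ p.2) ∧ ∃ p ∈ L, h ≤ p.2

/-- polygons (walks which end in `(0, -1)`) of vertical extent at least `h` -/
noncomputable def P (n : ℕ) (h : ℤ) : Finset (List Pt) :=
  (W n).filter fun L => L.getLast? = some (0, -1) ∧ ∃ p ∈ L, ∃ q ∈ L, h ≤ p.2 - q.2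

/-- crossings of height `T` -/
noncomputable def Br (n T : ℕ) : Finset (List Pt) :=
  (W n).filter fun L => (∃ p ∈ L.getLast?, p.2 = T) ∧ ∀ p ∈ L, 0 ≤ p.2 ∧ p.2 ≤ T

/-- walks in the rows `m, …, m + w` -/
noncomputable def S (n : ℕ) (m : ℤ) (w : ℕ) : Finset (List Pt) :=
  (W n).filter fun L => ∀ p ∈ L, m ≤ p.2 ∧ p.2 ≤ m + w

/-- walks of height at most `w` -/
noncomputable def Sd (n w : ℕ) : Finset (List Pt) :=
  (W n).filter fun L => ∀ p ∈ L, ∀ q ∈ L, p.2 - q.2 ≤ w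

theorem mem_J {n : ℕ} {X Y : ℤ} {L : List Pt} : L ∈ J n X Y ↔ (L.length = n + 1 ∧
    L.head? = some 0 ∧ L.IsChain nb ∧ L.Nodup) ∧ L.getLast? = some (X, Y) ∧
    ∀ p ∈ L, 0 ≤ p.2 ∧ p.1 ≤ X := by
  rw [J, Finset.mem_filter, mem_W]

theorem mem_A {n : ℕ} {m h : ℤ} {L : List Pt} : L ∈ A n m h ↔ (L.length = n + 1 ∧
    L.head? = some 0 ∧ L.IsChain nb ∧ L.Nodup) ∧ L.getLast? = some (m, 0) ∧
    (∀ p ∈ L, 0 ≤ p.2) ∧ ∃ p ∈ L, h ≤ p.2 := by
  rw [A, Finset.mem_filter, mem_W]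

theorem mem_P {n : ℕ} {h : ℤ} {L : List Pt} : L ∈ P n h ↔ (L.length = n + 1 ∧
    L.head? = some 0 ∧ L.IsChain nb ∧ L.Nodup) ∧ L.getLast? = some (0, -1) ∧
    ∃ p ∈ L, ∃ q ∈ L, h ≤ p.2 - q.2 := by
  rw [P, Finset.mem_filter, mem_W]

theorem mem_Br {n T : ℕ} {L : List Pt} : L ∈ Br n T ↔ (L.length = n + 1 ∧
    L.head? = some 0 ∧ L.IsChain nb ∧ L.Nodup) ∧ (∃ p ∈ L.getLast?, p.2 = T) ∧
    ∀ p ∈ L, 0 ≤ p.2 ∧ p.2 ≤ T := by
  rw [Br, Finset.mem_filter, mem_W]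

theorem mem_S {n w : ℕ} {m : ℤ} {L : List Pt} : L ∈ S n m w ↔ (L.length = n + 1 ∧
    L.head? = some 0 ∧ L.IsChain nb ∧ L.Nodup) ∧ ∀ p ∈ L, m ≤ p.2 ∧ p.2 ≤ m + w := by
  rw [S, Finset.mem_filter, mem_W]

theorem mem_Sd {n w : ℕ} {L : List Pt} : L ∈ Sd n w ↔ (L.length = n + 1 ∧
    L.head? = some 0 ∧ L.IsChain nb ∧ L.Nodup) ∧ ∀ p ∈ L, ∀ q ∈ L, p.2 - q.2 ≤ w := by
  rw [Sd, Finset.mem_filter, mem_W]

end Pool.Agent.SawStrip
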