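import Pool.Agent.SawStrip.Attach
import Pool.Agent.SawStrip.Defs

/-!
# SawStrip module Att: attachment of polygons with markers

Arcs which reach the height `w` are inserted above good edges of a walk in the rows `m, ..., m + w`
(module Window); the result and, for each arc, the position of its first site above row `m + w`
determine everything (module Decode).
-/

set_option autoImplicit false

open Pool.Agent.SawKes Pool.Agent.SawPoly

namespace Pool.Agent.SawStrip

open scoped Classical in
/-- lists of `k` numbers less than `M` -/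
noncomputable def OL (k M : ℕ) : Finset (List ℕ) :=
  (Finset.univ : Finset (Fin k → Fin M)).image fun f => List.ofFn fun i => (f i : ℕ)

lemma card_OL_le (k M : ℕ) : (OL k M).card ≤ M ^ k := by
  classical
  refine Finset.card_image_le.trans ?_
  rw [Finset.card_univ, Fintype.card_fun, Fintype.card_fin, Fintype.card_fin]

lemma mem_OL {k M : ℕ} {l : List ℕ} (h1 : l.length = k) (h2 : ∀ o ∈ l, o < M) : l ∈ OL k M := by
  classical
  rw [OL, Finset.mem_image]
  refine ⟨fun i => ⟨l[(i : ℕ)]'(by have := i.2; omega), h2 _ (List.getElem_mem _)⟩,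
    Finset.mem_univ _, ?_⟩
  apply List.ext_getElem
  · simp [h1]
  · intro i hi hi'
    rw [List.getElem_ofFn]

/-- the walk `L` as a function -/
def fn (L : List Pt) (i : ℕ) : ℤ × ℤ := L.getD i 0

lemma fn_eq {L : List Pt} {i : ℕ} (hi : i < L.length) : fn L i = L[i] := by
  rw [fn, List.getD_eq_getElem _ _ hi]

lemma S_isW {n w : ℕ} {m : ℤ} {L : List Pt} (hL : L ∈ S n m w) :
    IsW n (fn L) ∧ (∀ k ≤ n, (m + w) - w ≤ (fn L k).2 ∧ (fn L k).2 ≤ m + w) ∧ fn L 0 = 0 := by
  rw [mem_S] at hL
  obtain ⟨⟨h1, h2, h3, h4⟩, h5⟩ := hL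
  refine ⟨⟨?_, ?_⟩, ?_, ?_⟩
  · intro k hk
    rw [fn_eq (by omega), fn_eq (by omega)]
    rw [List.isChain_iff_getElem] at h3
    exact h3 k (by omega)
  · intro i hi j hj he
    rw [fn_eq (by omega), fn_eq (by omega)] at he
    rwa [h4.getElem_inj_iff] at he
  · intro k hk
    rw [fn_eq (by omega)]
    have := h5 _ (List.getElem_mem (l := L) (show k < L.length by omega))
    constructor <;> linarith [this.1, this.2]
  · have h6 : 0 < L.length := by omega
    rw [fn_eq h6]
    rw [List.head?_eq_getElem?, List.getElem?_eq_getElem h6] at h2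
    exact Option.some.inj h2

lemma fn_inj {n : ℕ} {L L' : List Pt} (h : L.length = n + 1) (h' : L'.length = n + 1)
    (he : ∀ i ≤ n, fn L i = fn L' i) : L = L' := by
  apply List.ext_getElem (h.trans h'.symm)
  intro i hi hi'
  have := he i (by omega)
  rwa [fn_eq hi, fn_eq hi'] at this

lemma A_isArc {N w : ℕ} {L : List Pt} (hL : L ∈ A N 1 w) : IsArc w (N + 1) L := by
  rw [mem_A] at hL
  obtain ⟨⟨h1, h2, h3, h4⟩, h5, h6, h7⟩ := hL
  exact ⟨h1, h4, h3, h2, h5, h6, h7⟩

open scoped Classical in
lemma card_opt (W₀ k : ℕ) {α : Type*} [Fintype α] :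
    (Finset.univ.filter fun φ : Fin W₀ → Option α =>
      (Finset.univ.filter fun j => φ j ≠ none).card = k).card =
      W₀.choose k * Fintype.card α ^ k := by
  have h1 : ∀ φ ∈ Finset.univ.filter (fun φ : Fin W₀ → Option α =>
      (Finset.univ.filter fun j => φ j ≠ none).card = k),
      (Finset.univ.filter fun j => φ j ≠ none) ∈
        Finset.powersetCard k (Finset.univ : Finset (Fin W₀)) := by
    intro φ hφ
    rw [Finset.mem_filter] at hφ
    rw [Finset.mem_powersetCard]
    exact ⟨Finset.subset_univ _, hφ.2⟩
  rw [Finset.card_eq_sum_card_fiberwise h1]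
  have h2 : ∀ s ∈ Finset.powersetCard k (Finset.univ : Finset (Fin W₀)),
      ((Finset.univ.filter (fun φ : Fin W₀ → Option α =>
        (Finset.univ.filter fun j => φ j ≠ none).card = k)).filter
        fun φ => (Finset.univ.filter fun j => φ j ≠ none) = s).card = Fintype.card α ^ k := by
    intro s hs
    rw [Finset.mem_powersetCard] at hs
    have e : (Finset.univ.filter (fun φ : Fin W₀ → Option α =>
        (Finset.univ.filter fun j => φ j ≠ none).card = k)).filter
        (fun φ => (Finset.univ.filter fun j => φ j ≠ none) = s) =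
        Fintype.piFinset fun j => if j ∈ s then
          (Finset.univ : Finset (Option α)).filter (fun a => a ≠ none) else {none} := by
      ext φ
      simp only [Finset.mem_filter, Finset.mem_univ, true_and, Fintype.mem_piFinset]
      constructor
      · rintro ⟨_, rfl⟩ j
        by_cases hj : φ j = none
        · rw [if_neg (by simp [hj])]
          simp [hj]
        · rw [if_pos (by simp [hj])]
          simp [hj]
      · intro hφ
        have h3 : (Finset.univ.filter fun j => φ j ≠ none) = s := by
          ext j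
          have h4 := hφ j
          rw [Finset.mem_filter]
          by_cases hj : j ∈ s
          · rw [if_pos hj, Finset.mem_filter] at h4
            simp [hj, h4.2]
          · rw [if_neg hj, Finset.mem_singleton] at h4
            simp [hj, h4]
        rw [h3]
        exact ⟨hs.2, rfl⟩
    rw [e, Fintype.card_piFinset]
    have h5 : ∀ j : Fin W₀, (if j ∈ s then
        (Finset.univ : Finset (Option α)).filter (fun a => a ≠ none) else {none}).card =
        if j ∈ s then Fintype.card α else 1 := by
      intro j
      split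
      · have h6 : (Finset.univ : Finset (Option α)).filter (fun a => a ≠ none) =
            Finset.univ.map Function.Embedding.some := by
          ext a
          cases a <;> simp
        rw [h6, Finset.card_map, Finset.card_univ]
      · simp
    rw [Finset.prod_congr rfl fun j _ => h5 j, Finset.prod_ite, Finset.prod_const_one, mul_one,
      Finset.prod_const]
    congr 1
    rw [← hs.2]
    congr 1
    ext j
    simp
  rw [Finset.sum_congr rfl h2, Finset.sum_const, Finset.card_powersetCard, Finset.card_univ,
    Fintype.card_fin, smul_eq_mul]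

/-- `W₀` windows of width `2 (N + 2) (w + 1) + 1`; each inserted arc has `N + 1` sites -/
theorem attach (n N w W₀ k : ℕ) (m : ℤ)
    (hW : (w + 1) * ((2 * (N + 2) * (w + 1) + 1) * (W₀ + 2)) ≤ n + 1) :
    (S n m w).card * (W₀.choose k * (A N 1 w).card ^ k) ≤ cc (n + k * (N + 1)) * (N + 1) ^ k := by
  classical
  have hn : (W₀ + 2) * (2 * (N + 2) * (w + 1) + 1) * (w + 1) ≤ n + 1 := by
    refine le_trans (le_of_eq ?_) hW
    ring
  have hex : ∀ L ∈ S n m w, ∃ idx : Fin W₀ → ℕ, (∀ j, Good n (N + 2) (fn L) (idx j)) ∧
      ∀ j j', j ≠ j' → (2 * ((N + 2 : ℕ) : ℤ) - 1) ≤ |(fn L (idx j)).1 - (fn L (idx j')).1| := by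
    intro L hL
    obtain ⟨h1, h2, _⟩ := S_isW hL
    exact exists_good h1 h2 (by omega) W₀ hn
  choose! idx hgood hsep using hex
  have hinj : ∀ L ∈ S n m w, Function.Injective (idx L) := by
    intro L hL j j' he
    by_contra hne
    have h1 := hsep L hL j j' hne
    rw [he, sub_self, abs_zero] at h1
    push_cast at h1
    omega
  let ψ : List Pt → (Fin W₀ → Option (A N 1 w)) → ℕ → Option (List (ℤ × ℤ)) :=
    fun L φ => Function.extend (idx L) (fun j => (φ j).map Subtype.val) fun _ => none
  have hψ1 : ∀ L ∈ S n m w, ∀ φ j, ψ L φ (idx L j) = (φ j).map Subtype.val :=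
    fun L hL φ j => (hinj L hL).extend_apply _ _ _
  have hψ2 : ∀ L φ i, (∀ j, idx L j ≠ i) → ψ L φ i = none := by
    intro L φ i hi
    exact Function.extend_apply' _ _ _ (by rintro ⟨j, hj⟩; exact hi j hj)
  have hadm : ∀ L ∈ S n m w, ∀ φ, Adm w (N + 1) n (fn L) (ψ L φ) := by
    intro L hL φ
    have hsome : ∀ i, ψ L φ i ≠ none → ∃ j, idx L j = i := by
      intro i hi
      by_contra hcon
      push Not at hcon
      exact hi (hψ2 L φ i hcon)
    refine ⟨?_, ?_⟩
    · intro i A hA
      obtain ⟨j, rfl⟩ := hsome i (by rw [hA]; simp)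
      rw [hψ1 L hL, Option.map_eq_some_iff] at hA
      obtain ⟨A', _, rfl⟩ := hA
      exact ⟨A_isArc A'.2, hgood L hL j⟩
    · intro i j hij hi hj
      obtain ⟨a, rfl⟩ := hsome i hi
      obtain ⟨b, rfl⟩ := hsome j hj
      have h1 := hsep L hL a b (fun hab => hij (by rw [hab]))
      push_cast at h1 ⊢
      linarith
  have key : ((S n m w) ×ˢ (Finset.univ.filter fun φ : Fin W₀ → Option (A N 1 w) =>
      (Finset.univ.filter fun j => φ j ≠ none).card = k)).card ≤
      (W (n + k * (N + 1)) ×ˢ OL k (N + 1)).card := by
    apply Finset.card_le_card_of_injOn fun p =>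
      (asm (deco n (fn p.1) (ψ p.1 p.2)), offs (m + w) (deco n (fn p.1) (ψ p.1 p.2)))
    · rintro ⟨L, φ⟩ hp
      rw [Finset.mem_coe, Finset.mem_product, Finset.mem_filter] at hp
      obtain ⟨hL, _, hk⟩ := hp
      simp only at hL hk
      obtain ⟨h1, h2, h3⟩ := S_isW hL
      have ha := hadm L hL φ
      have hok := ok_deco h2 ha
      have hnum : num (deco n (fn L) (ψ L φ)) = k := by
        rw [num_deco ha (hinj L hL) (fun j => (hgood L hL j).1) (hψ2 L φ), ← hk]
        congr 1
        apply Finset.filter_congr
        intro j _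
        rw [hψ1 L hL]
        simp
      rw [Finset.mem_coe, Finset.mem_product]
      constructor
      · rw [mem_W]
        refine ⟨?_, ?_, chain_asm h1 ha, nodup_asm h1 ha⟩
        · rw [length_asm (m + w) (N + 1) _ hok, length_deco, hnum]
          ring
        · rw [head_asm, h3]
      · apply mem_OL
        · rw [length_offs, hnum]
        · exact offs_lt (m + w) (N + 1) _ hok
    · rintro ⟨L, φ⟩ hp ⟨L', φ'⟩ hp' he
      rw [Finset.mem_coe, Finset.mem_product, Finset.mem_filter] at hp hp'
      obtain ⟨hL, _, _⟩ := hp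
      obtain ⟨hL', _, _⟩ := hp'
      simp only [Prod.mk.injEq] at hL hL' he
      obtain ⟨h1, h2, h3⟩ := S_isW hL
      obtain ⟨h1', h2', h3'⟩ := S_isW hL'
      have hD := asm_inj (m + w) (N + 1) _ _ (ok_deco h2 (hadm L hL φ))
        (ok_deco h2' (hadm L' hL' φ')) he.1 he.2
      have hLL : L = L' := by
        apply fn_inj (mem_S.1 hL).1.1 (mem_S.1 hL').1.1
        intro i hi
        exact (deco_inj hD hi).1
      subst hLL
      simp only [Prod.mk.injEq, true_and]
      funext j
      have h4 := (deco_inj hD (hgood L hL j).1.le).2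
      have e1 := hψ1 L hL φ j
      have e2 := hψ1 L hL φ' j
      have ha := hadm L hL φ
      have ha' := hadm L hL φ'
      rcases hφ : φ j with _ | A <;> rcases hφ' : φ' j with _ | A'
      · rfl
      · exfalso
        rw [hφ] at e1
        rw [hφ'] at e2
        rw [piece_none e1, piece_some e2] at h4
        exact pl_ne_nil _ _ (ha'.arc _ _ e2).1 h4.symm
      · exfalso
        rw [hφ] at e1
        rw [hφ'] at e2
        rw [piece_some e1, piece_none e2] at h4
        exact pl_ne_nil _ _ (ha.arc _ _ e1).1 h4
      · rw [hφ] at e1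
        rw [hφ'] at e2
        rw [piece_some e1, piece_some e2] at h4
        exact congrArg some (Subtype.ext (pl_inj _ _ h4))
  rw [Finset.card_product, Finset.card_product, card_opt, Fintype.card_coe, card_W] at key
  exact key.trans (Nat.mul_le_mul_left _ (card_OL_le _ _))

end Pool.Agent.SawStrip
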