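import Pool.Agent.SawStrip.Poly
import Pool.Agent.SawStrip.Att
import Pool.Agent.SawMrg.HW

/-!
# SawStrip module Ana: the upper bound for walks in a strip

Let `C`, `N` be as in `exists_arcs`, `L = 2 (N + 2) (w + 1) + 1`, `W₀ = (n + 1) / ((w + 1) L) - 2`
(if `n + 1 < 3 (w + 1) L` the claim follows from `hw_bound` and `n * w ^ (-K) ≤ 1`). Multiply
`attach` by `mu ^ (-(n + k (N + 1))) (N + 1) ^ (-k)` and sum over `k ≤ W₀` (binomial theorem), with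
`hw_bound` on the right (`k (N + 1) ≤ W₀ (N + 1) ≤ n`):
`|S n m w| mu ^ (-n) (1 + ρ) ^ W₀ ≤ (n + 1) C exp ((2 n) ^ δ')`,
`ρ = |A N 1 w| mu ^ (-(N + 1)) / (N + 1) ≥ w ^ (-2 C - 2)` and `(1 + ρ) ^ W₀ ≥ exp (W₀ ρ' / 2)` for
`ρ' = min ρ 1`.
-/

set_option autoImplicit false

open Pool.Agent.SawKes Pool.Agent.SawPoly

namespace Pool.Agent.SawStrip

namespace AnaAux

theorem cc_le (ε : ℝ) (hε : 0 < ε) : ∃ C : ℝ, 1 ≤ C ∧ ∀ n : ℕ,
    (cc n : ℝ) ≤ C * mu ^ n * Real.exp ((n : ℝ) ^ ε) := by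
  obtain ⟨n₀, h⟩ := Pool.Agent.SawMrg.hw_bound ε hε
  have hmu := mu_pos
  have h0 : (0 : ℝ) ≤ ∑ k ∈ Finset.range n₀, (cc k : ℝ) / mu ^ k :=
    Finset.sum_nonneg (fun k _ => by positivity)
  refine ⟨1 + ∑ k ∈ Finset.range n₀, (cc k : ℝ) / mu ^ k, by linarith, ?_⟩
  intro n
  have hexp : 1 ≤ Real.exp ((n : ℝ) ^ ε) := Real.one_le_exp (by positivity)
  by_cases hn : n₀ ≤ n
  · refine (h n hn).trans ?_
    refine mul_le_mul_of_nonneg_right ?_ (Real.exp_pos _).le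
    have h1 : 0 < mu ^ n := by positivity
    nlinarith
  · have h1 : (cc n : ℝ) / mu ^ n ≤ ∑ k ∈ Finset.range n₀, (cc k : ℝ) / mu ^ k :=
      Finset.single_le_sum (f := fun k => (cc k : ℝ) / mu ^ k) (fun k _ => by positivity)
        (Finset.mem_range.2 (by omega))
    have h2 : 0 < mu ^ n := by positivity
    have h3 : (cc n : ℝ) ≤ (1 + ∑ k ∈ Finset.range n₀, (cc k : ℝ) / mu ^ k) * mu ^ n := by
      rw [div_le_iff₀ h2] at h1
      nlinarith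
    have h4 : 0 ≤ (1 + ∑ k ∈ Finset.range n₀, (cc k : ℝ) / mu ^ k) * mu ^ n := by positivity
    nlinarith

theorem s_bound {n N w W₀ : ℕ} {m : ℤ} {B : ℝ}
    (hW : (w + 1) * ((2 * (N + 2) * (w + 1) + 1) * (W₀ + 2)) ≤ n + 1)
    (hB : ∀ k ≤ W₀, (cc (n + k * (N + 1)) : ℝ) ≤ B * mu ^ (n + k * (N + 1))) :
    ((S n m w).card : ℝ) * (1 + ((A N 1 w).card : ℝ) / (mu ^ (N + 1) * (N + 1))) ^ W₀ ≤
      (W₀ + 1) * B * mu ^ n := by
  have hmu := mu_pos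
  have hD : (0 : ℝ) < mu ^ (N + 1) * (N + 1) := by positivity
  obtain ⟨ρ, hρ⟩ : ∃ ρ : ℝ, ρ = ((A N 1 w).card : ℝ) / (mu ^ (N + 1) * (N + 1)) := ⟨_, rfl⟩
  rw [← hρ, add_comm (1 : ℝ) ρ, add_pow, Finset.mul_sum]
  have hterm : ∀ k ∈ Finset.range (W₀ + 1),
      ((S n m w).card : ℝ) * (ρ ^ k * 1 ^ (W₀ - k) * (W₀.choose k : ℝ)) ≤ B * mu ^ n := by
    intro k hk
    have hk' : k ≤ W₀ := by
      have := Finset.mem_range.1 hk
      omega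
    have h1 := attach n N w W₀ k m hW
    have h2 : ((S n m w).card : ℝ) * ((W₀.choose k : ℝ) * ((A N 1 w).card : ℝ) ^ k) ≤
        (cc (n + k * (N + 1)) : ℝ) * ((N : ℝ) + 1) ^ k := by
      exact_mod_cast h1
    have h3 : (cc (n + k * (N + 1)) : ℝ) * ((N : ℝ) + 1) ^ k ≤
        B * mu ^ n * (mu ^ (N + 1) * ((N : ℝ) + 1)) ^ k := by
      have h4 := mul_le_mul_of_nonneg_right (hB k hk') (by positivity : (0 : ℝ) ≤ ((N : ℝ) + 1) ^ k)
      refine h4.trans (le_of_eq ?_)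
      rw [mul_pow, ← pow_mul, pow_add, mul_comm (N + 1) k]
      ring
    have h5 : ((S n m w).card : ℝ) * (ρ ^ k * 1 ^ (W₀ - k) * (W₀.choose k : ℝ)) *
        (mu ^ (N + 1) * ((N : ℝ) + 1)) ^ k =
        ((S n m w).card : ℝ) * ((W₀.choose k : ℝ) * ((A N 1 w).card : ℝ) ^ k) := by
      rw [hρ, div_pow, one_pow]
      have h6 : ((mu ^ (N + 1) * ((N : ℝ) + 1)) ^ k) ≠ 0 := by positivity
      field_simp
    have h7 : (0 : ℝ) < (mu ^ (N + 1) * ((N : ℝ) + 1)) ^ k := by positivity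
    have h8 := h2.trans h3
    rw [← h5] at h8
    exact le_of_mul_le_mul_right h8 h7
  refine (Finset.sum_le_sum hterm).trans (le_of_eq ?_)
  rw [Finset.sum_const, Finset.card_range, nsmul_eq_mul]
  push_cast
  ring

theorem exp_half_le {x : ℝ} (h0 : 0 ≤ x) (h1 : x ≤ 1) : Real.exp (x / 2) ≤ 1 + x := by
  have h2 : (0 : ℝ) < 1 + x := by linarith
  rw [← Real.le_log_iff_exp_le h2]
  refine le_trans ?_ (Real.one_sub_inv_le_log_of_pos h2)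
  have h3 : 1 - (1 + x)⁻¹ = x / (1 + x) := by
    field_simp
    ring
  rw [h3, div_le_div_iff₀ (by norm_num) h2]
  nlinarith

theorem growth (δ : ℝ) (hδ : 0 < δ) : ∃ C : ℝ, 1 ≤ C ∧ ∀ n : ℕ,
    ((n : ℝ) + 1) * Real.exp ((2 * n : ℝ) ^ (δ / 2)) ≤ C * Real.exp ((n : ℝ) ^ δ) := by
  obtain ⟨c, hc⟩ : ∃ c : ℝ, c = ((2 : ℝ) ^ (δ / 2)) ^ 2 / 2 + Real.log 2 + (2 / δ) ^ 2 / 2 :=
    ⟨_, rfl⟩
  have hlog2 : 0 ≤ Real.log 2 := Real.log_nonneg (by norm_num)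
  have hc0 : 0 ≤ c := by
    rw [hc]
    positivity
  refine ⟨Real.exp c, Real.one_le_exp hc0, ?_⟩
  intro n
  rcases Nat.eq_zero_or_pos n with rfl | hn
  · have h1 : ((2 * ((0 : ℕ) : ℝ)) : ℝ) ^ (δ / 2) = 0 := by
      rw [Nat.cast_zero, mul_zero, Real.zero_rpow (by positivity)]
    have h2 : (((0 : ℕ) : ℝ)) ^ δ = 0 := by
      rw [Nat.cast_zero, Real.zero_rpow (by positivity)]
    rw [h1, h2, Nat.cast_zero, Real.exp_zero, zero_add, one_mul, mul_one]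
    exact Real.one_le_exp hc0
  · have hn0 : (0 : ℝ) < n := by exact_mod_cast hn
    have hn1 : (1 : ℝ) ≤ n := by exact_mod_cast hn
    have h1 : (n : ℝ) + 1 ≤ Real.exp (Real.log 2 + Real.log n) := by
      rw [Real.exp_add, Real.exp_log (by norm_num), Real.exp_log hn0]
      linarith
    have h2 : Real.log n ≤ (2 / δ) * (n : ℝ) ^ (δ / 2) := by
      have := Real.log_le_rpow_div hn0.le (by positivity : 0 < δ / 2)
      refine this.trans (le_of_eq ?_)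
      field_simp
    have h3 : (2 * n : ℝ) ^ (δ / 2) = (2 : ℝ) ^ (δ / 2) * (n : ℝ) ^ (δ / 2) :=
      Real.mul_rpow (by norm_num) hn0.le
    have h4 : ((n : ℝ) ^ (δ / 2)) ^ 2 = (n : ℝ) ^ δ := by
      rw [← Real.rpow_natCast, ← Real.rpow_mul hn0.le]
      congr 1
      push_cast
      ring
    obtain ⟨y, hy⟩ : ∃ y : ℝ, y = (n : ℝ) ^ (δ / 2) := ⟨_, rfl⟩
    obtain ⟨z, hz⟩ : ∃ z : ℝ, z = (2 : ℝ) ^ (δ / 2) := ⟨_, rfl⟩
    obtain ⟨u, hu⟩ : ∃ u : ℝ, u = 2 / δ := ⟨_, rfl⟩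
    rw [← hy] at h2 h3 h4
    rw [← hz] at h3 hc
    rw [← hu] at h2 hc
    calc ((n : ℝ) + 1) * Real.exp ((2 * n : ℝ) ^ (δ / 2))
        ≤ Real.exp (Real.log 2 + Real.log n) * Real.exp ((2 * n : ℝ) ^ (δ / 2)) :=
          mul_le_mul_of_nonneg_right h1 (Real.exp_pos _).le
      _ = Real.exp (Real.log 2 + Real.log n + (2 * n : ℝ) ^ (δ / 2)) := by rw [← Real.exp_add]
      _ ≤ Real.exp (c + (n : ℝ) ^ δ) := by
          rw [Real.exp_le_exp, h3, ← h4, hc]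
          nlinarith [sq_nonneg (y - z), sq_nonneg (y - u)]
      _ = Real.exp c * Real.exp ((n : ℝ) ^ δ) := Real.exp_add _ _

theorem rpow_le_add {n : ℕ} {δ : ℝ} (hδ : 0 < δ) :
    Real.exp ((n : ℝ) ^ (δ / 2)) ≤ ((n : ℝ) + 1) * Real.exp ((2 * n : ℝ) ^ (δ / 2)) := by
  have h1 : (n : ℝ) ^ (δ / 2) ≤ (2 * n : ℝ) ^ (δ / 2) :=
    Real.rpow_le_rpow (by positivity) (by linarith [Nat.cast_nonneg (α := ℝ) n]) (by positivity)
  have h2 : Real.exp ((n : ℝ) ^ (δ / 2)) ≤ Real.exp ((2 * n : ℝ) ^ (δ / 2)) :=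
    Real.exp_le_exp.2 h1
  have h3 : (0 : ℝ) ≤ n := Nat.cast_nonneg n
  have h4 := Real.exp_pos ((2 * n : ℝ) ^ (δ / 2))
  nlinarith

theorem M_le {N w C : ℕ} (hw : 2 ≤ w) (hN : N + 1 ≤ w ^ C) :
    (w + 1) * (2 * (N + 2) * (w + 1) + 1) ≤ w ^ (C + 7) := by
  have h1 : w + 1 ≤ w ^ 2 := by nlinarith
  have h2 : N + 2 ≤ w ^ (C + 1) := by
    rw [pow_succ]
    nlinarith [Nat.zero_le N]
  have h3 : 2 * (N + 2) * (w + 1) + 1 ≤ w ^ (C + 5) := by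
    have h4 : 2 * (N + 2) * (w + 1) ≤ w * w ^ (C + 1) * w ^ 2 :=
      Nat.mul_le_mul (Nat.mul_le_mul hw h2) h1
    have h5 : w * w ^ (C + 1) * w ^ 2 = w ^ (C + 4) := by ring
    have h6 : w ^ (C + 5) = w ^ (C + 4) * w := by ring
    have h7 : 1 ≤ w ^ (C + 4) := Nat.one_le_pow _ _ (by omega)
    rw [h6]
    rw [h5] at h4
    nlinarith
  calc (w + 1) * (2 * (N + 2) * (w + 1) + 1) ≤ w ^ 2 * w ^ (C + 5) := Nat.mul_le_mul h1 h3
    _ = w ^ (C + 7) := by ring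

theorem main {C₀ c : ℕ} (hc : mu ≤ 2 ^ c)
    (hA : ∀ w : ℕ, 2 ≤ w → ∃ N : ℕ, 1 ≤ N ∧ N + 1 ≤ w ^ C₀ ∧
      mu ^ N ≤ (w : ℝ) ^ C₀ * ((A N 1 w).card : ℝ)) (δ : ℝ) (hδ : 0 < δ) :
    ∃ C : ℝ, 1 ≤ C ∧ ∀ (n w : ℕ) (m : ℤ), 2 ≤ w →
      ((S n m w).card : ℝ) ≤ C * mu ^ n *
        Real.exp ((n : ℝ) ^ δ - n / (w : ℝ) ^ (3 * C₀ + c + 9)) := by
  obtain ⟨C₁, hC₁, hcc⟩ := cc_le (δ / 2) (by positivity)
  obtain ⟨C₃, hC₃, hgr⟩ := growth δ hδ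
  have hmu := mu_pos
  have hE : 1 ≤ Real.exp (3 / 2) := Real.one_le_exp (by norm_num)
  refine ⟨C₁ * C₃ * Real.exp (3 / 2), one_le_mul_of_one_le_of_one_le
    (one_le_mul_of_one_le_of_one_le hC₁ hC₃) hE, ?_⟩
  intro n w m hw
  obtain ⟨N, hN1, hNC, hNA⟩ := hA w hw
  have hM := M_le hw hNC
  obtain ⟨M, hMdef⟩ : ∃ M : ℕ, M = (w + 1) * (2 * (N + 2) * (w + 1) + 1) := ⟨_, rfl⟩
  rw [← hMdef] at hM
  have hMpos : 0 < M := by
    rw [hMdef]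
    positivity
  have hwr : (2 : ℝ) ≤ w := by exact_mod_cast hw
  have hw1 : (1 : ℝ) ≤ w := by linarith
  have hMr : (M : ℝ) ≤ (w : ℝ) ^ (C₀ + 7) := by exact_mod_cast hM
  have hMr0 : (0 : ℝ) < M := by exact_mod_cast hMpos
  have hq : (0 : ℝ) < (w : ℝ) ^ (3 * C₀ + c + 9) := by positivity
  by_cases hcase : (n + 1) / M < 2
  · -- short walks
    have h1 : n + 1 < 2 * M := by
      rw [Nat.div_lt_iff_lt_mul hMpos] at hcase
      exact hcase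
    have h2 : (n : ℝ) ≤ 2 * M := by
      have : (n : ℝ) + 1 < 2 * M := by exact_mod_cast h1
      linarith
    have h3 : (n : ℝ) / (w : ℝ) ^ (3 * C₀ + c + 9) ≤ 3 / 2 := by
      have h4 : (w : ℝ) ^ (3 * C₀ + c + 9) = (w : ℝ) ^ (C₀ + 7) * w ^ (2 * C₀ + c + 2) := by
        rw [← pow_add]
        congr 1
        omega
      have h5 : (w : ℝ) ^ 2 ≤ (w : ℝ) ^ (2 * C₀ + c + 2) := pow_le_pow_right₀ hw1 (by omega)
      have h6 : (4 : ℝ) ≤ (w : ℝ) ^ 2 := by nlinarith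
      rw [div_le_iff₀ hq, h4]
      nlinarith [mul_le_mul hMr (h6.trans h5) (by norm_num) (by positivity)]
    have hs : ((S n m w).card : ℝ) ≤ cc n := by
      rw [← card_W n]
      exact_mod_cast Finset.card_le_card (Finset.filter_subset _ _)
    have h7 : Real.exp ((n : ℝ) ^ (δ / 2)) ≤ C₃ * Real.exp ((n : ℝ) ^ δ) :=
      (rpow_le_add hδ).trans (hgr n)
    have h8 : Real.exp ((n : ℝ) ^ δ) ≤ Real.exp (3 / 2) *
        Real.exp ((n : ℝ) ^ δ - n / (w : ℝ) ^ (3 * C₀ + c + 9)) := by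
      rw [← Real.exp_add, Real.exp_le_exp]
      linarith
    calc ((S n m w).card : ℝ) ≤ C₁ * mu ^ n * Real.exp ((n : ℝ) ^ (δ / 2)) := hs.trans (hcc n)
      _ ≤ C₁ * mu ^ n * (C₃ * (Real.exp (3 / 2) *
          Real.exp ((n : ℝ) ^ δ - n / (w : ℝ) ^ (3 * C₀ + c + 9)))) := by
          refine mul_le_mul_of_nonneg_left ?_ (by positivity)
          exact h7.trans (mul_le_mul_of_nonneg_left h8 (by positivity))
      _ = _ := by ring
  · -- long walks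
    obtain ⟨W₀, hW₀⟩ : ∃ W₀ : ℕ, (n + 1) / M = W₀ + 2 := ⟨(n + 1) / M - 2, by omega⟩
    have h1 : M * (W₀ + 2) ≤ n + 1 := by
      rw [← hW₀]
      exact Nat.mul_div_le _ _
    have h2 : n + 1 < M * (W₀ + 3) := by
      have := Nat.lt_mul_div_succ (n + 1) hMpos
      rw [hW₀] at this
      exact this
    have h3 : (w + 1) * ((2 * (N + 2) * (w + 1) + 1) * (W₀ + 2)) ≤ n + 1 := by
      rw [← mul_assoc, ← hMdef]
      exact h1
    have hNM : N + 1 ≤ M := by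
      rw [hMdef]
      nlinarith [Nat.zero_le N, Nat.zero_le w, Nat.zero_le (N * w), Nat.zero_le (N * w * w)]
    have h4 : W₀ * (N + 1) ≤ n := by
      have h5 : W₀ * (N + 1) ≤ W₀ * M := Nat.mul_le_mul_left _ hNM
      nlinarith
    have hB : ∀ k ≤ W₀, (cc (n + k * (N + 1)) : ℝ) ≤
        (C₁ * Real.exp ((2 * n : ℝ) ^ (δ / 2))) * mu ^ (n + k * (N + 1)) := by
      intro k hk
      refine (hcc _).trans ?_
      have h5 : k * (N + 1) ≤ n := (Nat.mul_le_mul_right _ hk).trans h4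
      have h6 : ((n + k * (N + 1) : ℕ) : ℝ) ≤ 2 * n := by
        have : n + k * (N + 1) ≤ 2 * n := by omega
        exact_mod_cast this
      have h7 : ((n + k * (N + 1) : ℕ) : ℝ) ^ (δ / 2) ≤ (2 * n : ℝ) ^ (δ / 2) :=
        Real.rpow_le_rpow (by positivity) h6 (by positivity)
      have h8 := Real.exp_le_exp.2 h7
      have h9 := mul_le_mul_of_nonneg_left h8
        (by positivity : (0 : ℝ) ≤ C₁ * mu ^ (n + k * (N + 1)))
      refine h9.trans (le_of_eq ?_)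
      ring
    have h5 := s_bound (m := m) h3 hB
    obtain ⟨r, hr⟩ : ∃ r : ℝ, r = 1 / (w : ℝ) ^ (2 * C₀ + c) := ⟨_, rfl⟩
    have hr0 : 0 ≤ r := by
      rw [hr]
      positivity
    have hr1 : r ≤ 1 := by
      rw [hr, div_le_one (by positivity)]
      exact one_le_pow₀ hw1
    have hρ : r ≤ ((A N 1 w).card : ℝ) / (mu ^ (N + 1) * (N + 1)) := by
      rw [hr, div_le_div_iff₀ (by positivity) (by positivity), one_mul]
      have h6 : mu ≤ (w : ℝ) ^ c := hc.trans (pow_le_pow_left₀ (by norm_num) hwr c)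
      have h7 : (N : ℝ) + 1 ≤ (w : ℝ) ^ C₀ := by exact_mod_cast hNC
      have h8 : mu ^ (N + 1) * ((N : ℝ) + 1) ≤
          ((w : ℝ) ^ C₀ * ((A N 1 w).card : ℝ)) * (w : ℝ) ^ c * (w : ℝ) ^ C₀ := by
        rw [pow_succ]
        exact mul_le_mul (mul_le_mul hNA h6 hmu.le (by positivity)) h7 (by positivity)
          (by positivity)
      refine h8.trans (le_of_eq ?_)
      have h9 : (w : ℝ) ^ (2 * C₀ + c) = (w : ℝ) ^ C₀ * (w : ℝ) ^ C₀ * (w : ℝ) ^ c := by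
        rw [← pow_add, ← pow_add]
        congr 1
        omega
      rw [h9]
      ring
    have h6 : Real.exp (W₀ * (r / 2)) ≤
        (1 + ((A N 1 w).card : ℝ) / (mu ^ (N + 1) * (N + 1))) ^ W₀ := by
      rw [Real.exp_nat_mul]
      exact pow_le_pow_left₀ (Real.exp_pos _).le ((exp_half_le hr0 hr1).trans (by linarith)) _
    have h7 : ((S n m w).card : ℝ) * Real.exp (W₀ * (r / 2)) ≤
        (n + 1) * (C₁ * Real.exp ((2 * n : ℝ) ^ (δ / 2))) * mu ^ n := by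
      refine (mul_le_mul_of_nonneg_left h6 (by positivity)).trans (h5.trans ?_)
      refine mul_le_mul_of_nonneg_right (mul_le_mul_of_nonneg_right ?_ (by positivity))
        (by positivity)
      have : W₀ ≤ n := by nlinarith
      have : (W₀ : ℝ) ≤ n := by exact_mod_cast this
      linarith
    have h8 : (n : ℝ) / (w : ℝ) ^ (3 * C₀ + c + 9) - 3 / 2 ≤ W₀ * (r / 2) := by
      have h9 : (n : ℝ) ≤ M * (W₀ + 3) := by
        have : (n : ℝ) + 1 < M * (W₀ + 3) := by exact_mod_cast h2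
        linarith
      have h10 : (w : ℝ) ^ (3 * C₀ + c + 9) = (w : ℝ) ^ (C₀ + 7) * (w ^ (2 * C₀ + c) * w ^ 2) := by
        rw [← pow_add, ← pow_add]
        congr 1
        omega
      have h11 : (n : ℝ) / (w : ℝ) ^ (3 * C₀ + c + 9) ≤ (W₀ + 3) * (r / 2) := by
        rw [div_le_iff₀ hq, h10, hr]
        have h12 : ((W₀ : ℝ) + 3) * (1 / (w : ℝ) ^ (2 * C₀ + c) / 2) *
            ((w : ℝ) ^ (C₀ + 7) * ((w : ℝ) ^ (2 * C₀ + c) * (w : ℝ) ^ 2)) =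
            ((W₀ : ℝ) + 3) * (w : ℝ) ^ (C₀ + 7) * ((w : ℝ) ^ 2 / 2) := by
          have : (w : ℝ) ^ (2 * C₀ + c) ≠ 0 := by positivity
          field_simp
        rw [h12]
        have h13 : (1 : ℝ) ≤ (w : ℝ) ^ 2 / 2 := by nlinarith
        have h14 : (n : ℝ) ≤ ((W₀ : ℝ) + 3) * (w : ℝ) ^ (C₀ + 7) := by
          refine h9.trans ?_
          rw [mul_comm]
          exact mul_le_mul_of_nonneg_left hMr (by positivity)
        have h15 : (0 : ℝ) ≤ ((W₀ : ℝ) + 3) * (w : ℝ) ^ (C₀ + 7) := by positivity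
        nlinarith
      linarith
    have h9 : Real.exp ((n : ℝ) / (w : ℝ) ^ (3 * C₀ + c + 9) - 3 / 2) ≤ Real.exp (W₀ * (r / 2)) :=
      Real.exp_le_exp.2 h8
    have h10 : ((S n m w).card : ℝ) * Real.exp ((n : ℝ) / (w : ℝ) ^ (3 * C₀ + c + 9) - 3 / 2) ≤
        C₁ * C₃ * mu ^ n * Real.exp ((n : ℝ) ^ δ) := by
      refine (mul_le_mul_of_nonneg_left h9 (by positivity)).trans (h7.trans ?_)
      have h11 := mul_le_mul_of_nonneg_left (hgr n) (by positivity : 0 ≤ C₁ * mu ^ n)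
      calc ((n : ℝ) + 1) * (C₁ * Real.exp ((2 * n : ℝ) ^ (δ / 2))) * mu ^ n =
          C₁ * mu ^ n * (((n : ℝ) + 1) * Real.exp ((2 * n : ℝ) ^ (δ / 2))) := by ring
        _ ≤ C₁ * mu ^ n * (C₃ * Real.exp ((n : ℝ) ^ δ)) := h11
        _ = _ := by ring
    have h11 : Real.exp ((n : ℝ) ^ δ - n / (w : ℝ) ^ (3 * C₀ + c + 9)) * Real.exp (3 / 2) *
        Real.exp ((n : ℝ) / (w : ℝ) ^ (3 * C₀ + c + 9) - 3 / 2) = Real.exp ((n : ℝ) ^ δ) := by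
      rw [← Real.exp_add, ← Real.exp_add]
      congr 1
      ring
    have h12 := Real.exp_pos ((n : ℝ) / (w : ℝ) ^ (3 * C₀ + c + 9) - 3 / 2)
    refine le_of_mul_le_mul_right (h10.trans (le_of_eq ?_)) h12
    rw [← h11]
    ring

theorem rpow_form {w q : ℕ} (n : ℕ) (_hw : 2 ≤ w) :
    (n : ℝ) * (w : ℝ) ^ (-(q : ℝ)) = n / (w : ℝ) ^ q := by
  rw [Real.rpow_neg (by positivity), Real.rpow_natCast, div_eq_mul_inv]

theorem Sd_sub (n w : ℕ) : Sd n w ⊆ (Finset.Icc (-(w : ℤ)) 0).biUnion (fun m => S n m w) := by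
  intro L hL
  rw [mem_Sd] at hL
  obtain ⟨⟨h1, h2, h3, h4⟩, h5⟩ := hL
  have h0 : (0 : Pt) ∈ L := List.mem_of_mem_head? (by rw [h2]; rfl)
  obtain ⟨q, hq, hmin⟩ := Finset.exists_min_image L.toFinset (fun p : Pt => p.2) ⟨0, by simpa using h0⟩
  rw [Finset.mem_biUnion]
  refine ⟨q.2, ?_, ?_⟩
  · have h6 := hmin 0 (by simpa using h0)
    have h7 := h5 0 h0 q (by simpa using hq)
    have e : (0 : Pt).2 = 0 := rfl
    rw [e] at h6 h7
    rw [Finset.mem_Icc]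
    omega
  · rw [mem_S]
    refine ⟨⟨h1, h2, h3, h4⟩, fun p hp => ?_⟩
    have h6 := hmin p (by simpa using hp)
    have h7 := h5 p hp q (by simpa using hq)
    omega

end AnaAux

open AnaAux

theorem S_le : ∃ K : ℝ, 0 < K ∧ ∀ δ : ℝ, 0 < δ → ∃ C : ℝ, 1 ≤ C ∧
    ∀ (n w : ℕ) (m : ℤ), 2 ≤ w →
      ((S n m w).card : ℝ) ≤ C * mu ^ n * Real.exp ((n : ℝ) ^ δ - n * (w : ℝ) ^ (-K)) := by
  obtain ⟨C₀, hA⟩ := exists_arcs
  obtain ⟨c, hc⟩ := pow_unbounded_of_one_lt mu (one_lt_two (α := ℝ))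
  refine ⟨((3 * C₀ + c + 9 : ℕ) : ℝ), by positivity, fun δ hδ => ?_⟩
  obtain ⟨C, hC, h⟩ := main hc.le hA δ hδ
  refine ⟨C, hC, fun n w m hw => ?_⟩
  rw [rpow_form n hw]
  exact h n w m hw

/-- walks of height at most `w` (`2 w + 1` choices of the lowest row, larger `K`) -/
theorem Sd_le : ∃ K : ℝ, 0 < K ∧ ∀ δ : ℝ, 0 < δ → ∃ C : ℝ, 1 ≤ C ∧
    ∀ (n w : ℕ), 2 ≤ w →
      ((Sd n w).card : ℝ) ≤ C * w * mu ^ n * Real.exp ((n : ℝ) ^ δ - n * (w : ℝ) ^ (-K)) := by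
  obtain ⟨K, hK, h⟩ := S_le
  refine ⟨K, hK, fun δ hδ => ?_⟩
  obtain ⟨C, hC, h1⟩ := h δ hδ
  refine ⟨2 * C, by linarith, fun n w hw => ?_⟩
  have hmu := mu_pos
  have h2 : (Sd n w).card ≤ ∑ m ∈ Finset.Icc (-(w : ℤ)) 0, (S n m w).card :=
    (Finset.card_le_card (Sd_sub n w)).trans Finset.card_biUnion_le
  have h3 : ((Sd n w).card : ℝ) ≤ ∑ m ∈ Finset.Icc (-(w : ℤ)) 0, ((S n m w).card : ℝ) := by
    exact_mod_cast h2
  refine h3.trans ((Finset.sum_le_sum (fun m _ => h1 n w m hw)).trans ?_)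
  rw [Finset.sum_const, Int.card_Icc, nsmul_eq_mul]
  have h4 : (0 + 1 - -(w : ℤ)).toNat = w + 1 := by omega
  rw [h4]
  have h5 : (0 : ℝ) ≤ C * mu ^ n * Real.exp ((n : ℝ) ^ δ - n * (w : ℝ) ^ (-K)) := by positivity
  have h6 : ((w + 1 : ℕ) : ℝ) ≤ 2 * w := by
    have : w + 1 ≤ 2 * w := by omega
    exact_mod_cast this
  calc ((w + 1 : ℕ) : ℝ) * (C * mu ^ n * Real.exp ((n : ℝ) ^ δ - n * (w : ℝ) ^ (-K)))
      ≤ (2 * w) * (C * mu ^ n * Real.exp ((n : ℝ) ^ δ - n * (w : ℝ) ^ (-K))) :=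
        mul_le_mul_of_nonneg_right h6 h5
    _ = _ := by ring

end Pool.Agent.SawStrip
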