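import Pool.Agent.SawStrip.Defs

/-!
# SawStrip module Len: long critical crossings
-/

set_option autoImplicit false

open Pool.Agent.SawKes Pool.Agent.SawPoly

namespace Pool.Agent.SawStrip

/-- the upper bound for walks in strips with the exponent `K` -/
def SB (K : ℝ) : Prop := ∀ δ : ℝ, 0 < δ → ∃ C : ℝ, 1 ≤ C ∧
    ∀ (n w : ℕ) (m : ℤ), 2 ≤ w →
      ((S n m w).card : ℝ) ≤ C * mu ^ n * Real.exp ((n : ℝ) ^ δ - n * (w : ℝ) ^ (-K))

lemma Br_le_S (n T : ℕ) : (Br n T).card ≤ (S n 0 T).card := by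
  apply Finset.card_le_card
  intro L hL
  rw [mem_Br] at hL
  rw [mem_S]
  exact ⟨hL.1, fun p hp => ⟨(hL.2.2 p hp).1, by rw [zero_add]; exact (hL.2.2 p hp).2⟩⟩

/-- long critical crossings have a small total weight -/
theorem tail_of (K : ℝ) (hK : 0 < K) (h : SB K) : ∃ T₀ : ℕ, ∀ T : ℕ, T₀ ≤ T → ∀ M : ℕ,
    ∑ n ∈ Finset.Ico ⌈(T : ℝ) ^ (2 * K + 2)⌉₊ M, ((Br n T).card : ℝ) / mu ^ n ≤
      Real.exp (-(T : ℝ)) := by
  obtain ⟨C, hC, hS⟩ := h (1 / 2) (by norm_num)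
  have t1 : Filter.Tendsto (fun n : ℕ => (n : ℝ)) Filter.atTop Filter.atTop :=
    tendsto_natCast_atTop_atTop
  -- the final numerical condition
  have hfin : ∀ᶠ T : ℕ in Filter.atTop,
      C * (4 * (T : ℝ) ^ K) * Real.exp (-(T : ℝ)) ≤ 1 := by
    have h1 : Filter.Tendsto (fun x : ℝ => x ^ K * Real.exp (-x)) Filter.atTop (nhds 0) := by
      have := tendsto_rpow_mul_exp_neg_mul_atTop_nhds_zero K 1 one_pos
      simpa using this
    have h2 := (h1.comp t1).const_mul (C * 4)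
    rw [mul_zero] at h2
    filter_upwards [h2.eventually (gt_mem_nhds (zero_lt_one))] with T hT
    have e : C * (4 * (T : ℝ) ^ K) * Real.exp (-(T : ℝ)) =
        C * 4 * (((T : ℝ) ^ K) * Real.exp (-(T : ℝ))) := by ring
    rw [e]
    exact hT.le
  obtain ⟨T₁, hT₁⟩ := Filter.eventually_atTop.1 hfin
  refine ⟨max T₁ 4, fun T hT M => ?_⟩
  have hT4 : 4 ≤ T := (le_max_right _ _).trans hT
  have hTr : (4 : ℝ) ≤ T := by exact_mod_cast hT4
  have hT0 : (0 : ℝ) < T := by linarith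
  have hTK : 1 ≤ (T : ℝ) ^ K := Real.one_le_rpow (by linarith) hK.le
  have hTK0 : 0 < (T : ℝ) ^ K := by linarith
  set x : ℝ := (T : ℝ) ^ (-K) / 2 with hx
  have hxe : (T : ℝ) ^ (-K) = ((T : ℝ) ^ K)⁻¹ := Real.rpow_neg hT0.le K
  have hx0 : 0 < x := by rw [hx]; positivity
  have hx1 : x ≤ 1 := by
    rw [hx, hxe]
    have : ((T : ℝ) ^ K)⁻¹ ≤ 1 := inv_le_one_of_one_le₀ hTK
    linarith
  set n₀ : ℕ := ⌈(T : ℝ) ^ (2 * K + 2)⌉₊ with hn₀
  have hn₀' : (T : ℝ) ^ (2 * K + 2) ≤ n₀ := Nat.le_ceil _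
  -- single terms
  have hterm : ∀ n ∈ Finset.Ico n₀ M, ((Br n T).card : ℝ) / mu ^ n ≤ C * Real.exp (-x) ^ n := by
    intro n hn
    rw [Finset.mem_Ico] at hn
    have hnr : (n₀ : ℝ) ≤ n := by exact_mod_cast hn.1
    have hmu : 0 < mu ^ n := pow_pos mu_pos n
    have h1 : ((Br n T).card : ℝ) ≤ (S n 0 T).card := by exact_mod_cast Br_le_S n T
    have h2 := hS n T 0 (by omega)
    rw [div_le_iff₀ hmu]
    refine (h1.trans h2).trans ?_
    have h3 : (n : ℝ) ^ (1 / 2 : ℝ) - n * (T : ℝ) ^ (-K) ≤ -x * n := by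
      have h4 : (T : ℝ) ^ (K + 1) ≤ (n : ℝ) ^ (1 / 2 : ℝ) := by
        have h5 : (T : ℝ) ^ (K + 1) = ((T : ℝ) ^ (2 * K + 2)) ^ (1 / 2 : ℝ) := by
          rw [← Real.rpow_mul hT0.le]
          congr 1
          ring
        rw [h5]
        exact Real.rpow_le_rpow (by positivity) (hn₀'.trans hnr) (by norm_num)
      have h6 : (T : ℝ) ^ (K + 1) = (T : ℝ) ^ K * T := by
        rw [Real.rpow_add hT0, Real.rpow_one]
      have h7 : (n : ℝ) = (n : ℝ) ^ (1 / 2 : ℝ) * (n : ℝ) ^ (1 / 2 : ℝ) := by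
        rw [← Real.sqrt_eq_rpow, Real.mul_self_sqrt (Nat.cast_nonneg _)]
      have h8 : 2 * (T : ℝ) ^ K ≤ (n : ℝ) ^ (1 / 2 : ℝ) := by nlinarith
      have h9 : (n : ℝ) ^ (1 / 2 : ℝ) ≤ n * x := by
        rw [hx, hxe]
        have h10 : (0 : ℝ) ≤ (n : ℝ) ^ (1 / 2 : ℝ) := by positivity
        have h11 : (n : ℝ) * (((T : ℝ) ^ K)⁻¹ / 2) =
            (n : ℝ) ^ (1 / 2 : ℝ) * ((n : ℝ) ^ (1 / 2 : ℝ) / (2 * (T : ℝ) ^ K)) := by
          nth_rw 1 [h7]
          field_simp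
        rw [h11]
        have h12 : 1 ≤ (n : ℝ) ^ (1 / 2 : ℝ) / (2 * (T : ℝ) ^ K) := by
          rw [le_div_iff₀ (by positivity)]
          linarith
        nlinarith
      have h13 : (n : ℝ) * (T : ℝ) ^ (-K) = 2 * (n * x) := by rw [hx]; ring
      rw [h13]
      linarith
    have h14 : Real.exp ((n : ℝ) ^ (1 / 2 : ℝ) - n * (T : ℝ) ^ (-K)) ≤ Real.exp (-x) ^ n := by
      rw [← Real.exp_nat_mul]
      apply Real.exp_le_exp.2
      rw [mul_comm (n : ℝ) (-x)]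
      exact h3
    have hC0 : 0 < C := by linarith
    calc C * mu ^ n * Real.exp ((n : ℝ) ^ (1 / 2 : ℝ) - n * (T : ℝ) ^ (-K))
        ≤ C * mu ^ n * Real.exp (-x) ^ n := by
          apply mul_le_mul_of_nonneg_left h14 (by positivity)
      _ = C * Real.exp (-x) ^ n * mu ^ n := by ring
  refine (Finset.sum_le_sum hterm).trans ?_
  rw [← Finset.mul_sum]
  have hq1 : Real.exp (-x) < 1 := by
    rw [Real.exp_lt_one_iff]
    linarith
  have hg := geom_sum_Ico_le_of_lt_one (m := n₀) (n := M) (Real.exp_pos (-x)).le hq1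
  have hden : x / 2 ≤ 1 - Real.exp (-x) := by
    have h1 : 1 + x ≤ Real.exp x := by
      have := Real.add_one_le_exp x
      linarith
    have h2 : Real.exp (-x) ≤ 1 / (1 + x) := by
      rw [Real.exp_neg, ← one_div]
      exact one_div_le_one_div_of_le (by linarith) h1
    have h3 : 1 - 1 / (1 + x) = x / (1 + x) := by
      field_simp
      ring
    have h4 : x / 2 ≤ x / (1 + x) := by
      apply div_le_div_of_nonneg_left hx0.le (by linarith) (by linarith)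
    linarith
  have hpow : Real.exp (-x) ^ n₀ ≤ Real.exp (-(2 * T)) := by
    rw [← Real.exp_nat_mul]
    apply Real.exp_le_exp.2
    have h1 : (T : ℝ) ^ (2 * K + 2) = (T : ℝ) ^ K * (T : ℝ) ^ K * (T * T) := by
      rw [show 2 * K + 2 = K + K + 2 by ring, Real.rpow_add hT0, Real.rpow_add hT0,
        Real.rpow_two]
      ring
    have h2 : (T : ℝ) ^ (2 * K + 2) * x = (T : ℝ) ^ K * (T * T) / 2 := by
      rw [h1, hx, hxe]
      field_simp
    have h3 : (T : ℝ) ^ (2 * K + 2) * x ≤ n₀ * x := mul_le_mul_of_nonneg_right hn₀' hx0.le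
    have h4 : 2 * (T : ℝ) ≤ (T : ℝ) ^ K * (T * T) / 2 := by nlinarith
    nlinarith
  have hC0 : 0 < C := by linarith
  calc C * ∑ i ∈ Finset.Ico n₀ M, Real.exp (-x) ^ i
      ≤ C * (Real.exp (-x) ^ n₀ / (1 - Real.exp (-x))) :=
        mul_le_mul_of_nonneg_left hg hC0.le
    _ ≤ C * (Real.exp (-(2 * T)) / (x / 2)) := by
        apply mul_le_mul_of_nonneg_left _ hC0.le
        exact div_le_div₀ (Real.exp_pos _).le hpow (by positivity) hden
    _ = (C * (4 * (T : ℝ) ^ K) * Real.exp (-(T : ℝ))) * Real.exp (-(T : ℝ)) := by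
        rw [hx, hxe]
        have : Real.exp (-(2 * (T : ℝ))) = Real.exp (-(T : ℝ)) * Real.exp (-(T : ℝ)) := by
          rw [← Real.exp_add]
          congr 1
          ring
        rw [this]
        field_simp
        ring
    _ ≤ 1 * Real.exp (-(T : ℝ)) := by
        apply mul_le_mul_of_nonneg_right _ (Real.exp_pos _).le
        exact hT₁ T ((le_max_left _ _).trans hT)
    _ = Real.exp (-(T : ℝ)) := one_mul _

end Pool.Agent.SawStrip
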