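import Pool.Agent.SawLim.Moves

/-!
Arcs from `(0,0)` to `(1,0)` in the upper half plane, and their copies above a horizontal edge.
-/

set_option autoImplicit false

open Pool.Agent.SawLim

namespace Pool.Agent.SawStrip

/-- a self-avoiding arc with `M` sites from `(0,0)` to `(1,0)` in the upper half plane which
reaches the row `h` -/
structure IsArc (h M : ℕ) (A : List (ℤ × ℤ)) : Prop where
  len : A.length = M
  nodup : A.Nodup
  chain : A.IsChain adj
  head : A.head? = some (0, 0)
  last : A.getLast? = some (1, 0)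
  nonneg : ∀ p ∈ A, 0 ≤ p.2
  tall : ∃ p ∈ A, (h : ℤ) ≤ p.2

lemma adj_comm' (p q : ℤ × ℤ) : adj p q ↔ adj q p := by
  unfold adj
  rw [abs_sub_comm p.1, abs_sub_comm p.2]

lemma adj_add (p q v : ℤ × ℤ) : adj (p + v) (q + v) ↔ adj p q := by
  unfold adj
  simp

/-- the copy of `A` above the horizontal edge from `a` to `b` -/
def pl (a b : ℤ × ℤ) (A : List (ℤ × ℤ)) : List (ℤ × ℤ) :=
  if b.1 = a.1 + 1 then A.map (fun p => p + (a + (0, 1)))
  else (A.map (fun p => p + (b + (0, 1)))).reverse

lemma chain_fst_le : ∀ (A : List (ℤ × ℤ)) (p : ℤ × ℤ), (p :: A).IsChain adj →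
    ∀ q ∈ p :: A, |q.1 - p.1| ≤ A.length := by
  intro A
  induction A with
  | nil => intro p _ q hq; simp at hq; subst hq; simp
  | cons r A ih =>
    intro p h q hq
    rw [List.isChain_cons_cons] at h
    rw [List.mem_cons] at hq
    rcases hq with rfl | hq
    · simp only [sub_self, abs_zero]
      exact Nat.cast_nonneg _
    · have h1 := ih r h.2 q hq
      have h2 : |r.1 - p.1| ≤ 1 := by
        have := h.1
        unfold adj at this
        have h3 := abs_nonneg (r.2 - p.2)
        omega
      have h3 : |q.1 - p.1| ≤ |q.1 - r.1| + |r.1 - p.1| := by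
        have := abs_add_le (q.1 - r.1) (r.1 - p.1)
        simpa using this
      simp only [List.length_cons]
      push_cast
      linarith

variable {h M : ℕ} {A : List (ℤ × ℤ)}

lemma IsArc.ne_nil (hA : IsArc h M A) : A ≠ [] := by
  rintro rfl
  have := hA.head
  simp at this

lemma IsArc.fst_le (hA : IsArc h M A) : ∀ p ∈ A, |p.1| + 1 ≤ M := by
  intro p hp
  cases A with
  | nil => simp at hp
  | cons a A =>
    have h1 : a = (0, 0) := by
      have := hA.head
      simpa using this
    have h2 := chain_fst_le A a hA.chain p hp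
    have h3 := hA.len
    simp only [List.length_cons] at h3
    rw [h1] at h2
    simp only [sub_zero] at h2
    omega

/-- a horizontal edge -/
def Hor (a b : ℤ × ℤ) : Prop := b.2 = a.2 ∧ (b.1 = a.1 + 1 ∨ a.1 = b.1 + 1)

lemma pl_of_right {a b : ℤ × ℤ} (hb : b.1 = a.1 + 1) :
    pl a b A = A.map (fun p => p + (a + (0, 1))) := if_pos hb

lemma pl_of_left {a b : ℤ × ℤ} (hb : a.1 = b.1 + 1) :
    pl a b A = (A.map (fun p => p + (b + (0, 1)))).reverse := if_neg (by omega)

lemma pl_length (a b : ℤ × ℤ) : (pl a b A).length = A.length := by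
  unfold pl
  split <;> simp

lemma pl_ne_nil (a b : ℤ × ℤ) (hA : IsArc h M A) : pl a b A ≠ [] := by
  intro h0
  have := pl_length (A := A) a b
  rw [h0] at this
  exact hA.ne_nil (List.length_eq_zero_iff.1 this.symm)

lemma pl_inj (a b : ℤ × ℤ) {A A' : List (ℤ × ℤ)} (h : pl a b A = pl a b A') : A = A' := by
  unfold pl at h
  split at h
  · exact List.map_injective_iff.2 (add_left_injective _) h
  · exact List.map_injective_iff.2 (add_left_injective _) (List.reverse_injective h)

lemma map_nodup (v : ℤ × ℤ) (hA : A.Nodup) : (A.map (fun p => p + v)).Nodup :=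
  (List.nodup_map_iff (add_left_injective v)).2 hA

lemma pl_nodup (a b : ℤ × ℤ) (hA : IsArc h M A) : (pl a b A).Nodup := by
  unfold pl
  split
  · exact map_nodup _ hA.nodup
  · exact List.nodup_reverse.2 (map_nodup _ hA.nodup)

lemma map_chain (v : ℤ × ℤ) (hA : A.IsChain adj) : (A.map (fun p => p + v)).IsChain adj := by
  rw [List.isChain_map]
  exact hA.imp fun p q h => (adj_add p q v).2 h

lemma pl_chain (a b : ℤ × ℤ) (hA : IsArc h M A) : (pl a b A).IsChain adj := by
  unfold pl
  split
  · exact map_chain _ hA.chain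
  · rw [List.isChain_reverse]
    exact (map_chain _ hA.chain).imp fun p q h => (adj_comm' p q).1 h

lemma pl_head {a b : ℤ × ℤ} (hab : Hor a b) (hA : IsArc h M A) :
    (pl a b A).head? = some (a + (0, 1)) := by
  obtain ⟨h1, h2 | h2⟩ := hab
  · rw [pl_of_right h2, List.head?_map, hA.head]
    simp
  · rw [pl_of_left h2, List.head?_reverse, List.getLast?_map, hA.last]
    simp only [Option.map_some, Option.some.injEq]
    ext <;> simp
    · omega
    · omega

lemma pl_last {a b : ℤ × ℤ} (hab : Hor a b) (hA : IsArc h M A) :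
    (pl a b A).getLast? = some (b + (0, 1)) := by
  obtain ⟨h1, h2 | h2⟩ := hab
  · rw [pl_of_right h2, List.getLast?_map, hA.last]
    simp only [Option.map_some, Option.some.injEq]
    ext <;> simp
    · omega
    · omega
  · rw [pl_of_left h2, List.getLast?_reverse, List.head?_map, hA.head]
    simp

lemma pl_mem {a b : ℤ × ℤ} (hab : Hor a b) (hA : IsArc h M A) :
    ∀ p ∈ pl a b A, a.2 + 1 ≤ p.2 ∧ |p.1 - a.1| ≤ M ∧ |p.1 - b.1| ≤ M := by
  have key : ∀ q : ℤ, |q| + 1 ≤ M → |q| ≤ (M : ℤ) ∧ |q - 1| ≤ M := by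
    intro q hq
    constructor
    · omega
    · have := abs_sub q 1
      rw [abs_one] at this
      omega
  intro p hp
  obtain ⟨h1, h2 | h2⟩ := hab
  · rw [pl_of_right h2, List.mem_map] at hp
    obtain ⟨q, hq, rfl⟩ := hp
    have h3 := key _ (hA.fst_le q hq)
    have h4 := hA.nonneg q hq
    simp only [Prod.fst_add, Prod.snd_add]
    refine ⟨by omega, ?_, ?_⟩
    · have : q.1 + (a.1 + 0) - a.1 = q.1 := by ring
      rw [this]
      exact h3.1
    · have : q.1 + (a.1 + 0) - b.1 = q.1 - 1 := by omega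
      rw [this]
      exact h3.2
  · rw [pl_of_left h2, List.mem_reverse, List.mem_map] at hp
    obtain ⟨q, hq, rfl⟩ := hp
    have h3 := key _ (hA.fst_le q hq)
    have h4 := hA.nonneg q hq
    simp only [Prod.fst_add, Prod.snd_add]
    refine ⟨by omega, ?_, ?_⟩
    · have : q.1 + (b.1 + 0) - a.1 = q.1 - 1 := by omega
      rw [this]
      exact h3.2
    · have : q.1 + (b.1 + 0) - b.1 = q.1 := by ring
      rw [this]
      exact h3.1

lemma pl_tall {a b : ℤ × ℤ} (hab : Hor a b) (hA : IsArc h M A) :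
    ∃ p ∈ pl a b A, a.2 + 1 + h ≤ p.2 := by
  obtain ⟨q, hq, h3⟩ := hA.tall
  obtain ⟨h1, h2 | h2⟩ := hab
  · refine ⟨q + (a + (0, 1)), ?_, ?_⟩
    · rw [pl_of_right h2]
      exact List.mem_map_of_mem hq
    · simp only [Prod.snd_add]
      omega
  · refine ⟨q + (b + (0, 1)), ?_, ?_⟩
    · rw [pl_of_left h2, List.mem_reverse]
      exact List.mem_map_of_mem hq
    · simp only [Prod.snd_add]
      omega

end Pool.Agent.SawStrip
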