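import Mathlib

/-!
Lists of sites with inserted pieces: the pieces can be read off from the assembled list and the
positions, inside the pieces, of their first site above a level.
-/

set_option autoImplicit false

namespace Pool.Agent.SawStrip

/-- sites decorated with pieces which are inserted after them -/
abbrev Dec := List ((ℤ × ℤ) × List (ℤ × ℤ))

/-- the assembled list -/
def asm (D : Dec) : List (ℤ × ℤ) := D.flatMap fun d => d.1 :: d.2

/-- position of the first site above the row `B` -/
def fst (B : ℤ) (L : List (ℤ × ℤ)) : ℕ := L.findIdx fun p => decide (B < p.2)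

/-- the positions of the first sites above the row `B` inside the inserted pieces -/
def offs (B : ℤ) (D : Dec) : List ℕ :=
  D.filterMap fun d => if d.2 = [] then none else some (fst B d.2)

/-- the sites are at most at row `B`, the pieces have length `M` and reach above row `B` -/
def OK (B : ℤ) (M : ℕ) (d : (ℤ × ℤ) × List (ℤ × ℤ)) : Prop :=
  d.1.2 ≤ B ∧ (d.2 = [] ∨ (d.2.length = M ∧ ∃ p ∈ d.2, B < p.2))

@[simp] lemma asm_nil : asm [] = [] := rfl

@[simp] lemma asm_cons (d : (ℤ × ℤ) × List (ℤ × ℤ)) (D : Dec) :
    asm (d :: D) = d.1 :: (d.2 ++ asm D) := by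
  simp [asm]

lemma offs_cons_nil (B : ℤ) (p : ℤ × ℤ) (D : Dec) : offs B ((p, []) :: D) = offs B D := by
  simp [offs]

lemma offs_cons (B : ℤ) (p : ℤ × ℤ) {s : List (ℤ × ℤ)} (hs : s ≠ []) (D : Dec) :
    offs B ((p, s) :: D) = fst B s :: offs B D := by
  simp [offs, hs]

lemma fst_cons (B : ℤ) {p : ℤ × ℤ} (hp : p.2 ≤ B) (L : List (ℤ × ℤ)) :
    fst B (p :: L) = fst B L + 1 := by
  unfold fst
  rw [List.findIdx_cons]
  have : decide (B < p.2) = false := by simpa using hp
  rw [this]
  rfl

lemma fst_append (B : ℤ) {s : List (ℤ × ℤ)} (hs : ∃ p ∈ s, B < p.2) (L : List (ℤ × ℤ)) :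
    fst B (s ++ L) = fst B s := by
  unfold fst
  rw [List.findIdx_append, if_pos]
  rw [List.findIdx_lt_length]
  obtain ⟨p, hp, h⟩ := hs
  exact ⟨p, hp, by simpa using h⟩

lemma fst_lt (B : ℤ) {s : List (ℤ × ℤ)} (hs : ∃ p ∈ s, B < p.2) : fst B s < s.length := by
  unfold fst
  rw [List.findIdx_lt_length]
  obtain ⟨p, hp, h⟩ := hs
  exact ⟨p, hp, by simpa using h⟩

/-- the first piece is preceded by at least one site -/
lemma fst_asm (B : ℤ) (M : ℕ) : ∀ (D : Dec), (∀ d ∈ D, OK B M d) → ∀ (o : ℕ) (r : List ℕ),
    offs B D = o :: r → o + 1 ≤ fst B (asm D) := by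
  intro D
  induction D with
  | nil => intro _ o r h; simp [offs] at h
  | cons d D ih =>
    intro hD o r h
    obtain ⟨p, s⟩ := d
    have hd : OK B M (p, s) := hD (p, s) List.mem_cons_self
    have hD' : ∀ d ∈ D, OK B M d := fun d hd => hD d (List.mem_cons_of_mem _ hd)
    by_cases hs : s = []
    · subst hs
      rw [offs_cons_nil] at h
      have h1 := ih hD' o r h
      rw [asm_cons, fst_cons B hd.1]
      simp only [List.nil_append]
      omega
    · rw [offs_cons B p hs] at h
      have h2 : fst B s = o := by
        have := congrArg List.head? h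
        simpa using this
      rcases hd.2 with h3 | ⟨_, h4⟩
      · exact absurd h3 hs
      · rw [asm_cons, fst_cons B hd.1, fst_append B h4, h2]

/-- **Decoding.** -/
theorem asm_inj (B : ℤ) (M : ℕ) : ∀ (D D' : Dec), (∀ d ∈ D, OK B M d) → (∀ d ∈ D', OK B M d) →
    asm D = asm D' → offs B D = offs B D' → D = D' := by
  intro D
  induction D with
  | nil =>
    intro D' _ _ h _
    cases D' with
    | nil => rfl
    | cons d D' => rw [asm_cons] at h; simp at h
  | cons d D ih =>
    intro D' hD hD' h ho
    cases D' with
    | nil => rw [asm_cons] at h; simp at h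
    | cons d' D' =>
      obtain ⟨p, s⟩ := d
      obtain ⟨p', s'⟩ := d'
      have hd : OK B M (p, s) := hD (p, s) List.mem_cons_self
      have hd' : OK B M (p', s') := hD' (p', s') List.mem_cons_self
      have hE : ∀ d ∈ D, OK B M d := fun d hd => hD d (List.mem_cons_of_mem _ hd)
      have hE' : ∀ d ∈ D', OK B M d := fun d hd => hD' d (List.mem_cons_of_mem _ hd)
      rw [asm_cons, asm_cons] at h
      simp only [List.cons.injEq] at h
      obtain ⟨hp, h⟩ := h
      subst hp
      by_cases hs : s = []
      · subst hs
        by_cases hs' : s' = []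
        · subst hs'
          rw [offs_cons_nil, offs_cons_nil] at ho
          rw [ih D' hE hE' (by simpa using h) ho]
        · exfalso
          rw [offs_cons_nil, offs_cons B p hs'] at ho
          have h1 := fst_asm B M D hE _ _ ho
          rcases hd'.2 with h3 | ⟨_, h4⟩
          · exact hs' h3
          · simp only [List.nil_append] at h
            rw [h, fst_append B h4] at h1
            exact Nat.not_succ_le_self _ h1
      · by_cases hs' : s' = []
        · exfalso
          subst hs'
          rw [offs_cons_nil, offs_cons B p hs] at ho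
          have h1 := fst_asm B M D' hE' _ _ ho.symm
          rcases hd.2 with h3 | ⟨_, h4⟩
          · exact hs h3
          · simp only [List.nil_append] at h
            rw [← h, fst_append B h4] at h1
            exact Nat.not_succ_le_self _ h1
        · rw [offs_cons B p hs, offs_cons B p hs'] at ho
          simp only [List.cons.injEq] at ho
          have hl : s.length = M := by
            rcases hd.2 with h3 | ⟨h4, _⟩
            · exact absurd h3 hs
            · exact h4
          have hl' : s'.length = M := by
            rcases hd'.2 with h3 | ⟨h4, _⟩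
            · exact absurd h3 hs'
            · exact h4
          obtain ⟨e1, e2⟩ := List.append_inj h (hl.trans hl'.symm)
          subst e1
          rw [ih D' hE hE' e2 ho.2]

/-- number of decorated sites -/
def num (D : Dec) : ℕ := D.countP fun d => decide (d.2 ≠ [])

lemma length_offs (B : ℤ) (D : Dec) : (offs B D).length = num D := by
  induction D with
  | nil => rfl
  | cons d D ih =>
    obtain ⟨p, s⟩ := d
    unfold num at *
    by_cases hs : s = []
    · subst hs
      rw [offs_cons_nil, ih]
      simp
    · rw [offs_cons B p hs, List.length_cons, ih]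
      simp [hs]

lemma length_asm (B : ℤ) (M : ℕ) (D : Dec) (hD : ∀ d ∈ D, OK B M d) :
    (asm D).length = D.length + num D * M := by
  induction D with
  | nil => simp [num]
  | cons d D ih =>
    obtain ⟨p, s⟩ := d
    have hd : OK B M (p, s) := hD (p, s) List.mem_cons_self
    have ih' := ih fun d hd => hD d (List.mem_cons_of_mem _ hd)
    rw [asm_cons, List.length_cons, List.length_append, ih', List.length_cons]
    unfold num
    by_cases hs : s = []
    · subst hs
      simp
      omega
    · rcases hd.2 with h3 | ⟨h4, _⟩
      · exact absurd h3 hs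
      · simp only at h4
        rw [List.countP_cons_of_pos (by simpa using hs), h4]
        ring

lemma offs_lt (B : ℤ) (M : ℕ) (D : Dec) (hD : ∀ d ∈ D, OK B M d) : ∀ o ∈ offs B D, o < M := by
  intro o ho
  unfold offs at ho
  rw [List.mem_filterMap] at ho
  obtain ⟨d, hd, h⟩ := ho
  by_cases hs : d.2 = []
  · rw [if_pos hs] at h; exact absurd h (by simp)
  · rw [if_neg hs] at h
    rcases (hD d hd).2 with h3 | ⟨h4, h5⟩
    · exact absurd h3 hs
    · have := fst_lt B h5
      simp only [Option.some.injEq] at h
      omega

end Pool.Agent.SawStrip
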