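import Pool.Agent.SawStrip.Window
import Pool.Agent.SawStrip.Decode

/-!
Inserting tall arcs above good edges of a walk in a strip.
-/

set_option autoImplicit false

open Pool.Agent.SawLim

namespace Pool.Agent.SawStrip

/-- the list inserted after the `i`-th site -/
def piece (u : ℕ → ℤ × ℤ) (ψ : ℕ → Option (List (ℤ × ℤ))) (i : ℕ) : List (ℤ × ℤ) :=
  (ψ i).elim [] (pl (u i) (u (i + 1)))

/-- the decorated walk -/
def deco (n : ℕ) (u : ℕ → ℤ × ℤ) (ψ : ℕ → Option (List (ℤ × ℤ))) : Dec :=
  (List.range (n + 1)).map fun i => (u i, piece u ψ i)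

/-- admissible insertions -/
structure Adm (h M n : ℕ) (u : ℕ → ℤ × ℤ) (ψ : ℕ → Option (List (ℤ × ℤ))) : Prop where
  arc : ∀ i A, ψ i = some A → IsArc h M A ∧ Good n (M + 1) u i
  sep : ∀ i j, i ≠ j → ψ i ≠ none → ψ j ≠ none → (2 * M : ℤ) < |(u i).1 - (u j).1|

variable {h M n : ℕ} {B : ℤ} {u : ℕ → ℤ × ℤ} {ψ : ℕ → Option (List (ℤ × ℤ))}

lemma piece_none {i : ℕ} (hi : ψ i = none) : piece u ψ i = [] := by
  rw [piece, hi]; rfl

lemma piece_some {i : ℕ} {A : List (ℤ × ℤ)} (hi : ψ i = some A) :
    piece u ψ i = pl (u i) (u (i + 1)) A := by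
  rw [piece, hi]; rfl

lemma piece_avoid (ha : Adm h M n u ψ) {i k : ℕ} (hk : k ≤ n) : u k ∉ piece u ψ i := by
  intro hmem
  rcases hi : ψ i with _ | A
  · rw [piece_none hi] at hmem; simp at hmem
  · rw [piece_some hi] at hmem
    obtain ⟨hA, hlt, hor, v, hv, hp⟩ := ha.arc i A hi
    have h1 := pl_mem hor hA _ hmem
    have h2 : v.2 = (u i).2 ∧ |(u k).1 - v.1| ≤ M := by
      rcases hv with rfl | rfl
      · exact ⟨rfl, h1.2.1⟩
      · exact ⟨hor.1, h1.2.2⟩
    have h4 := hp k hk (by push_cast; linarith [h2.2])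
    linarith [h1.1, h2.1]

lemma piece_disj (ha : Adm h M n u ψ) {i j : ℕ} (hij : i ≠ j) :
    List.Disjoint (piece u ψ i) (piece u ψ j) := by
  intro p hp hq
  rcases hi : ψ i with _ | A
  · rw [piece_none hi] at hp; simp at hp
  · rcases hj : ψ j with _ | A'
    · rw [piece_none hj] at hq; simp at hq
    · rw [piece_some hi] at hp
      rw [piece_some hj] at hq
      obtain ⟨hA, _, hor, _⟩ := ha.arc i A hi
      obtain ⟨hA', _, hor', _⟩ := ha.arc j A' hj
      have h1 := (pl_mem hor hA _ hp).2.1
      have h2 := (pl_mem hor' hA' _ hq).2.1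
      have h3 := ha.sep i j hij (by rw [hi]; simp) (by rw [hj]; simp)
      have h4 : |(u i).1 - (u j).1| ≤ |(u i).1 - p.1| + |p.1 - (u j).1| := by
        have := abs_add_le ((u i).1 - p.1) (p.1 - (u j).1)
        simpa using this
      rw [abs_sub_comm (u i).1 p.1] at h4
      linarith

lemma piece_nodup (ha : Adm h M n u ψ) (i : ℕ) : (piece u ψ i).Nodup := by
  rcases hi : ψ i with _ | A
  · rw [piece_none hi]; simp
  · rw [piece_some hi]
    exact pl_nodup _ _ (ha.arc i A hi).1

lemma asm_deco : asm (deco n u ψ) =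
    ((List.range (n + 1)).map fun i => u i :: piece u ψ i).flatten := by
  rw [asm, deco, List.flatMap_map, List.flatMap]

lemma ok_deco (hB : ∀ k ≤ n, B - h ≤ (u k).2 ∧ (u k).2 ≤ B) (ha : Adm h M n u ψ) :
    ∀ d ∈ deco n u ψ, OK B M d := by
  intro d hd
  rw [deco, List.mem_map] at hd
  obtain ⟨i, hi, rfl⟩ := hd
  rw [List.mem_range] at hi
  refine ⟨(hB i (by omega)).2, ?_⟩
  rcases hi' : ψ i with _ | A
  · left; exact piece_none hi'
  · right
    simp only
    rw [piece_some hi']
    obtain ⟨hA, _, hor, _⟩ := ha.arc i A hi'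
    refine ⟨by rw [pl_length, hA.len], ?_⟩
    obtain ⟨p, hp, h1⟩ := pl_tall hor hA
    exact ⟨p, hp, by have := (hB i (by omega)).1; omega⟩

theorem nodup_asm (hu : IsW n u) (ha : Adm h M n u ψ) : (asm (deco n u ψ)).Nodup := by
  rw [asm_deco, List.nodup_flatten]
  constructor
  · intro l hl
    rw [List.mem_map] at hl
    obtain ⟨i, hi, rfl⟩ := hl
    rw [List.mem_range] at hi
    rw [List.nodup_cons]
    exact ⟨piece_avoid ha (by omega), piece_nodup ha i⟩
  · rw [List.pairwise_map]
    apply List.nodup_range.pairwise_of_forall_ne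
    intro i hi j hj hij
    rw [List.mem_range] at hi hj
    rw [List.disjoint_cons_left, List.disjoint_cons_right]
    refine ⟨?_, ?_, piece_disj ha hij⟩
    · rw [List.mem_cons]
      rintro (h1 | h1)
      · exact hij (hu.inj i (by omega) j (by omega) h1)
      · exact piece_avoid ha (by omega) h1
    · exact piece_avoid ha (by omega)

theorem chain_asm (hu : IsW n u) (ha : Adm h M n u ψ) : (asm (deco n u ψ)).IsChain adj := by
  rw [asm_deco, List.isChain_flatten (by simp)]
  constructor
  · intro l hl
    rw [List.mem_map] at hl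
    obtain ⟨i, _, rfl⟩ := hl
    rw [List.isChain_cons]
    rcases hi' : ψ i with _ | A
    · rw [piece_none hi']; simp
    · rw [piece_some hi']
      obtain ⟨hA, _, hor, _⟩ := ha.arc i A hi'
      refine ⟨?_, pl_chain _ _ hA⟩
      intro y hy
      rw [pl_head hor hA] at hy
      simp only [Option.mem_def, Option.some.injEq] at hy
      subst hy
      simp [adj]
  · rw [List.isChain_map, List.isChain_range_succ]
    intro i hi x hx y hy
    simp only [List.head?_cons, Option.mem_def, Option.some.injEq] at hy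
    subst hy
    rcases hi' : ψ i with _ | A
    · rw [piece_none hi'] at hx
      simp only [List.getLast?_singleton, Option.mem_def, Option.some.injEq] at hx
      subst hx
      exact hu.adj i hi
    · obtain ⟨hA, _, hor, _⟩ := ha.arc i A hi'
      rw [piece_some hi', List.getLast?_cons, pl_last hor hA] at hx
      simp only [Option.getD_some, Option.mem_def, Option.some.injEq] at hx
      subst hx
      simp [adj]

lemma head_asm : (asm (deco n u ψ)).head? = some (u 0) := by
  rw [deco, List.range_succ_eq_map]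
  simp

lemma length_deco : (deco n u ψ).length = n + 1 := by simp [deco]

lemma deco_inj {u' : ℕ → ℤ × ℤ} {ψ' : ℕ → Option (List (ℤ × ℤ))}
    (he : deco n u ψ = deco n u' ψ') {i : ℕ} (hi : i ≤ n) :
    u i = u' i ∧ piece u ψ i = piece u' ψ' i := by
  have h1 : (deco n u ψ)[i]? = (deco n u' ψ')[i]? := by rw [he]
  have h2 : i < n + 1 := by omega
  simp only [deco, List.getElem?_map, List.getElem?_range h2, Option.map_some,
    Option.some.injEq, Prod.mk.injEq] at h1
  exact h1

open scoped Classical in
lemma num_deco (ha : Adm h M n u ψ) {W : ℕ} {idx : Fin W → ℕ} (hidx : Function.Injective idx)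
    (hlt : ∀ j, idx j < n) (hψ : ∀ i, (∀ j, idx j ≠ i) → ψ i = none) :
    num (deco n u ψ) = (Finset.univ.filter fun j : Fin W => ψ (idx j) ≠ none).card := by
  have h1 : num (deco n u ψ) = ((Finset.range (n + 1)).filter fun i => ψ i ≠ none).card := by
    unfold num deco
    rw [List.countP_map, List.countP_eq_length_filter]
    have e : ((Finset.range (n + 1)).filter fun i => ψ i ≠ none).card =
        ((List.range (n + 1)).filter fun i => decide (ψ i ≠ none)).length := by
      rfl
    rw [e]
    congr 1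
    apply List.filter_congr
    intro i _
    rw [Function.comp_apply, decide_eq_decide]
    rcases hi' : ψ i with _ | A
    · simp [piece_none hi']
    · have := pl_ne_nil (u i) (u (i + 1)) (ha.arc i A hi').1
      simp [piece_some hi', this]
  rw [h1]
  symm
  apply Finset.card_bij (fun j _ => idx j)
  · intro j hj
    rw [Finset.mem_filter] at hj ⊢
    exact ⟨Finset.mem_range.2 (by have := hlt j; omega), hj.2⟩
  · intro j _ j' _ he
    exact hidx he
  · intro i hi
    rw [Finset.mem_filter] at hi
    by_contra hcon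
    apply hi.2
    apply hψ
    intro j hj
    apply hcon
    exact ⟨j, Finset.mem_filter.2 ⟨Finset.mem_univ _, by rw [hj]; exact hi.2⟩, hj⟩

end Pool.Agent.SawStrip
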