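import Pool.Agent.SawStrip.Defs
import Pool.Agent.SawBr38.Bridge

/-!
# SawStrip module Low: the lower bound for walks in a strip

* `Sd_mul`: cut the walk, the second part is translated to the origin.
* A horizontal bridge with `j` steps is a walk with `0 < x ≤ x_end` after time `0`. By
  `Pool.Agent.SawBr38.walk_le_bridge_L` (for `sqL`, mirror of vertical bridges by the exchange of the
  coordinates) and `mu_pow_le` their number is at least `mu ^ j exp (-j ^ ε)` for large `j`. So at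
  least `mu ^ j exp (-j ^ ε) / (2 j + 1)` of them end at the same height `y`. Concatenate `2 Q` of
  them, the odd ones and the mirror images (`y ↦ -y`) of the even ones: the heights stay in
  `[-j, 2 j]` or better; so with `w = 4 j`
  `(mu ^ j exp (-j ^ ε) / (2 j + 1)) ^ (2 Q) ≤ |Sd (2 j Q) w|`.
* With `Sd_mul`: `|Sd n w| ^ (2 j) ≥ |Sd (2 j n) w| ≥ (mu ^ j exp (-j ^ ε) / (2 j + 1)) ^ (2 n)`.
-/

set_option autoImplicit false

open Pool.Agent.SawKes Pool.Agent.SawPoly

namespace Pool.Agent.SawStrip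

namespace LowAux

open SawNu Pool.Agent.Lib.SAW.HW

/-- step words of horizontal width at most `w` -/
noncomputable def Dx (n w : ℕ) : Finset (List (ℤ × ℤ)) :=
  @Finset.filter _ (fun l => ∀ i k, i ≤ n → k ≤ n → (ps l i).1 - (ps l k).1 ≤ w)
    (Classical.decPred _) (WS sqL n)

/-- unit steps -/
def Un (l : List (ℤ × ℤ)) : Prop := ∀ s ∈ l, |s.1| + |s.2| = 1

theorem mem_Dx {n w : ℕ} {l : List (ℤ × ℤ)} : l ∈ Dx n w ↔ l.length = n ∧ Un l ∧ SA l ∧
    ∀ i k, i ≤ n → k ≤ n → (ps l i).1 - (ps l k).1 ≤ w := by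
  classical
  rw [Dx, Finset.mem_filter, mem_WS, Pool.Agent.SawLim.TW_sq]
  unfold Un
  tauto

/-- sites with exchanged coordinates -/
def phi (l : List (ℤ × ℤ)) : List (ℤ × ℤ) := (sitesOf 0 l).map Prod.swap

theorem phi_inj {l l' : List (ℤ × ℤ)} (h : phi l = phi l') : l = l' := by
  unfold phi at h
  exact sitesOf_inj 0 (List.map_injective_iff.2 Prod.swap_injective h)

theorem mem_sitesOf {l : List (ℤ × ℤ)} {p : ℤ × ℤ} : p ∈ sitesOf 0 l ↔ ∃ i, i ≤ l.length ∧ ps l i = p := by
  rw [List.mem_iff_getElem]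
  constructor
  · rintro ⟨i, hi, rfl⟩
    rw [length_sitesOf] at hi
    exact ⟨i, by omega, by rw [getElem_sitesOf, zero_add]⟩
  · rintro ⟨i, hi, rfl⟩
    exact ⟨i, by rw [length_sitesOf]; omega, by rw [getElem_sitesOf, zero_add]⟩

theorem swap_walk {n : ℕ} {L : List (ℤ × ℤ)} (h : L ∈ W n) : L.map Prod.swap ∈ W n := by
  rw [mem_W] at h ⊢
  obtain ⟨h1, h2, h3, h4⟩ := h
  refine ⟨by rw [List.length_map]; exact h1, ?_, ?_, ?_⟩
  · rw [List.head?_map, h2]
    rfl
  · rw [List.isChain_map]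
    refine h3.imp ?_
    intro p q hpq
    unfold nb at hpq ⊢
    simp only [Prod.fst_swap, Prod.snd_swap]
    rw [add_comm]
    exact hpq
  · exact h4.map Prod.swap_injective

theorem card_Sd (n w : ℕ) : (Sd n w).card = (Dx n w).card := by
  symm
  refine Finset.card_bij (fun l _ => phi l) ?_ ?_ ?_
  · intro l hl
    obtain ⟨h1, h2, h3, h4⟩ := mem_Dx.1 hl
    have hW : sitesOf 0 l ∈ W n := by
      unfold W walks
      refine Finset.mem_image_of_mem _ ?_
      rw [mem_WS, Pool.Agent.SawLim.TW_sq]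
      exact ⟨h1, h2, h3⟩
    have := swap_walk hW
    rw [mem_W] at this
    rw [mem_Sd]
    refine ⟨this, ?_⟩
    intro p hp q hq
    unfold phi at hp hq
    rw [List.mem_map] at hp hq
    obtain ⟨p', hp', rfl⟩ := hp
    obtain ⟨q', hq', rfl⟩ := hq
    obtain ⟨i, hi, rfl⟩ := mem_sitesOf.1 hp'
    obtain ⟨k, hk, rfl⟩ := mem_sitesOf.1 hq'
    simp only [Prod.snd_swap]
    exact h4 i k (by omega) (by omega)
  · intro l _ l' _ h
    exact phi_inj h
  · intro L hL
    obtain ⟨hL1, hL2⟩ := mem_Sd.1 hL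
    have hs := swap_walk (mem_W.2 hL1)
    unfold W walks at hs
    obtain ⟨l, hl, hl'⟩ := Finset.mem_image.1 hs
    rw [mem_WS, Pool.Agent.SawLim.TW_sq] at hl
    have hphi : phi l = L := by
      unfold phi
      rw [hl', List.map_map]
      have : (Prod.swap ∘ Prod.swap : ℤ × ℤ → ℤ × ℤ) = id := by
        funext p
        exact Prod.swap_swap p
      rw [this, List.map_id]
    refine ⟨l, mem_Dx.2 ⟨hl.1, hl.2.1, hl.2.2, ?_⟩, hphi⟩
    intro i k hi hk
    have h1 : ∀ j, j ≤ n → (ps l j).swap ∈ L := by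
      intro j hj
      rw [← hphi]
      unfold phi
      exact List.mem_map_of_mem (mem_sitesOf.2 ⟨j, by omega, rfl⟩)
    have := hL2 _ (h1 i hi) _ (h1 k hk)
    simpa using this

theorem Dx_mul (a b w : ℕ) : (Dx (a + b) w).card ≤ (Dx a w).card * (Dx b w).card := by
  rw [← Finset.card_product]
  apply Finset.card_le_card_of_injOn (fun l => (l.take a, l.drop a))
  · intro l hl
    obtain ⟨h1, h2, h3, h4⟩ := mem_Dx.1 (Finset.mem_coe.1 hl)
    have h3' : SA (l.take a ++ l.drop a) := by rw [List.take_append_drop]; exact h3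
    rw [Finset.mem_coe, Finset.mem_product, mem_Dx, mem_Dx]
    refine ⟨⟨by simp only [List.length_take]; omega, fun s hs => h2 s (List.mem_of_mem_take hs),
      h3'.left, ?_⟩, ⟨by simp only [List.length_drop]; omega,
      fun s hs => h2 s (List.mem_of_mem_drop hs), h3'.right, ?_⟩⟩
    · intro i k hi hk
      simp only
      rw [ps_take, ps_take, min_eq_left hi, min_eq_left hk]
      exact h4 i k (by omega) (by omega)
    · intro i k hi hk
      simp only
      rw [ps_drop l i (by omega), ps_drop l k (by omega)]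
      have := h4 (a + i) (a + k) (by omega) (by omega)
      simp only [Prod.fst_sub]
      linarith
  · intro l hl l' hl' he
    simp only [Prod.mk.injEq] at he
    rw [← List.take_append_drop a l, ← List.take_append_drop a l', he.1, he.2]

theorem Dx_mono {n w w' : ℕ} (h : w ≤ w') : Dx n w ⊆ Dx n w' := by
  intro l hl
  rw [mem_Dx] at hl ⊢
  obtain ⟨h1, h2, h3, h4⟩ := hl
  refine ⟨h1, h2, h3, fun i k hi hk => (h4 i k hi hk).trans ?_⟩
  exact_mod_cast h

theorem Dx_pow (n w m : ℕ) : (Dx (m * n) w).card ≤ (Dx n w).card ^ m := by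
  induction m with
  | zero =>
    rw [Nat.zero_mul, pow_zero, Finset.card_le_one]
    intro l hl l' hl'
    have h1 := (mem_Dx.1 hl).1
    have h2 := (mem_Dx.1 hl').1
    rw [List.length_eq_zero_iff] at h1 h2
    rw [h1, h2]
  | succ m ih =>
    rw [Nat.succ_mul, pow_succ]
    exact (Dx_mul _ _ _).trans (Nat.mul_le_mul_right _ ih)

/-- the bridges with `j` steps -/
def IsBr (j : ℕ) (l : List (ℤ × ℤ)) : Prop := l.length = j ∧ Un l ∧ SA l ∧ Up l ∧ WDn l

noncomputable def Vx (j : ℕ) (x : ℤ) : Finset (List (ℤ × ℤ)) :=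
  @Finset.filter _ (fun l => Up l ∧ WDn l ∧ l.sum.1 = x) (Classical.decPred _) (WS sqL j)

theorem mem_Vx {j : ℕ} {x : ℤ} {l : List (ℤ × ℤ)} : l ∈ Vx j x ↔ IsBr j l ∧ l.sum.1 = x := by
  refine (@Finset.mem_filter _ _ (Classical.decPred _) (WS sqL j) l).trans ?_
  rw [mem_WS, Pool.Agent.SawLim.TW_sq]
  unfold IsBr Un
  tauto

theorem abs_ps {l : List (ℤ × ℤ)} (h : Un l) (i : ℕ) (hi : i ≤ l.length) : |(ps l i).1| ≤ i := by
  induction i with
  | zero => simp
  | succ i ih =>
    rw [ps_succ (by omega), Prod.fst_add]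
    have h1 := ih (by omega)
    have h2 := h l[i] (List.getElem_mem _)
    have h3 := abs_nonneg (l[i].2)
    have h4 := abs_add_le (ps l i).1 l[i].1
    push_cast
    linarith

/-- concatenations -/
def IsC (j Q : ℕ) (l : List (ℤ × ℤ)) : Prop := l.length = Q * (2 * j) ∧ Un l ∧ SA l ∧ WDn l ∧
  l.sum.1 = 0 ∧ ∀ i ≤ l.length, -(2 * j : ℤ) ≤ (ps l i).1 ∧ (ps l i).1 ≤ 2 * j

theorem IsC_nil (j : ℕ) : IsC j 0 [] := by
  refine ⟨by simp, by intro s hs; simp at hs, SA.nil, Dn.nil.weak, rfl, ?_⟩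
  intro i _
  simp

theorem WDn_append {a b : List (ℤ × ℤ)} (ha : WDn a) (hb : WDn b) (hb' : Up b) : WDn (a ++ b) := by
  intro i hi
  rw [List.sum_append, Prod.snd_add]
  have h0 := hb'.ht_nonneg
  simp only [SawNu.ht] at h0
  rcases le_or_gt i a.length with h | h
  · rw [ps_append_left h]
    have := ha i h
    linarith
  · rw [ps_append_right' h.le, Prod.snd_add]
    have := hb (i - a.length) (by simp at hi; omega)
    linarith

theorem Un_append {a b : List (ℤ × ℤ)} (ha : Un a) (hb : Un b) : Un (a ++ b) := by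
  intro s hs
  rcases List.mem_append.1 hs with h | h
  · exact ha s h
  · exact hb s h

theorem IsBr_xmir {j : ℕ} {l : List (ℤ × ℤ)} (h : IsBr j l) : IsBr j (l.map xmir) := by
  obtain ⟨h1, h2, h3, h4, h5⟩ := h
  refine ⟨by rw [List.length_map]; exact h1, ?_, SA_map_xmir.2 h3, ?_, ?_⟩
  · intro s hs
    obtain ⟨s', hs', rfl⟩ := List.mem_map.1 hs
    have := h2 s' hs'
    simp only [xmir, abs_neg]
    exact this
  · intro i hi hi'
    rw [List.length_map] at hi'
    rw [ps_map_xmir]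
    exact h4 i hi hi'
  · intro i hi
    rw [List.length_map] at hi
    rw [ps_map_xmir, sum_map_xmir]
    exact h5 i hi

theorem IsC_append {j Q : ℕ} {x : ℤ} {c p q : List (ℤ × ℤ)} (hc : IsC j Q c)
    (hp : IsBr j p ∧ p.sum.1 = x) (hq : IsBr j q ∧ q.sum.1 = x) :
    IsC j (Q + 1) (c ++ (p ++ q.map xmir)) := by
  obtain ⟨c1, c2, c3, c4, c5, c6⟩ := hc
  obtain ⟨⟨p1, p2, p3, p4, p5⟩, p6⟩ := hp
  obtain ⟨hq', q6⟩ := hq
  obtain ⟨q1, q2, q3, q4, q5⟩ := IsBr_xmir hq'
  have hqs : (q.map xmir).sum.1 = -x := by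
    rw [sum_map_xmir]
    simp only [xmir]
    rw [q6]
  have hpq : SA (p ++ q.map xmir) := SA.append_of_wdn p3 q3 p5 q4
  have hpqu : Up (p ++ q.map xmir) := p4.append q4
  have hpqd : WDn (p ++ q.map xmir) := WDn_append p5 q5 q4
  have hx : |x| ≤ j := by
    have := abs_ps p2 p.length le_rfl
    rw [ps_length, p6, p1] at this
    exact this
  refine ⟨?_, Un_append c2 (Un_append p2 q2), SA.append_of_wdn c3 hpq c4 hpqu,
    WDn_append c4 hpqd hpqu, ?_, ?_⟩
  · rw [List.length_append, List.length_append, c1, p1, q1]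
    ring
  · rw [List.sum_append, List.sum_append, Prod.fst_add, Prod.fst_add, c5, p6, hqs]
    ring
  · intro i hi
    rcases le_or_gt i c.length with h | h
    · rw [ps_append_left h]
      exact c6 i h
    · rw [ps_append_right' h.le, Prod.fst_add, c5, zero_add]
      rw [List.length_append] at hi
      rcases le_or_gt (i - c.length) p.length with h' | h'
      · rw [ps_append_left h']
        have h1 := abs_ps p2 _ h'
        have h2 : ((i - c.length : ℕ) : ℤ) ≤ j := by
          rw [p1] at h'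
          exact_mod_cast h'
        have h3 := abs_le.1 (h1.trans h2)
        constructor <;> linarith
      · rw [ps_append_right' h'.le, Prod.fst_add, p6]
        rw [List.length_append] at hi
        have h4 : i - c.length - p.length ≤ (q.map xmir).length := by omega
        have h1 := abs_ps q2 _ h4
        have h2 : ((i - c.length - p.length : ℕ) : ℤ) ≤ j := by
          rw [q1] at h4
          exact_mod_cast h4
        have h3 := abs_le.1 (h1.trans h2)
        have h5 := abs_le.1 hx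
        constructor <;> linarith

noncomputable def CC (j Q : ℕ) : Finset (List (ℤ × ℤ)) :=
  @Finset.filter _ (fun l => IsC j Q l) (Classical.decPred _) (WS sqL (Q * (2 * j)))

theorem mem_CC {j Q : ℕ} {l : List (ℤ × ℤ)} : l ∈ CC j Q ↔ IsC j Q l := by
  classical
  rw [CC, Finset.mem_filter, mem_WS, Pool.Agent.SawLim.TW_sq]
  constructor
  · exact fun h => h.2
  · intro h
    exact ⟨⟨h.1, h.2.1, h.2.2.1⟩, h⟩

theorem card_CC (j Q : ℕ) (x : ℤ) : ((Vx j x).card ^ 2) ^ Q ≤ (CC j Q).card := by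
  induction Q with
  | zero =>
    rw [pow_zero]
    exact Finset.card_pos.2 ⟨[], mem_CC.2 (IsC_nil j)⟩
  | succ Q ih =>
    refine le_trans (Nat.mul_le_mul_right _ ih) ?_
    rw [sq, ← Finset.card_product, ← Finset.card_product]
    apply Finset.card_le_card_of_injOn (fun t => t.1 ++ (t.2.1 ++ t.2.2.map xmir))
    · rintro ⟨c, p, q⟩ h
      rw [Finset.mem_coe, Finset.mem_product, Finset.mem_product, mem_CC, mem_Vx, mem_Vx] at h
      rw [Finset.mem_coe, mem_CC]
      exact IsC_append h.1 h.2.1 h.2.2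
    · rintro ⟨c, p, q⟩ h ⟨c', p', q'⟩ h' he
      rw [Finset.mem_coe, Finset.mem_product, Finset.mem_product, mem_CC, mem_Vx, mem_Vx] at h h'
      simp only at h h' he
      obtain ⟨e1, e2⟩ := List.append_inj he (h.1.1.trans h'.1.1.symm)
      obtain ⟨e3, e4⟩ := List.append_inj e2 (h.2.1.1.1.trans h'.2.1.1.1.symm)
      have e5 : q = q' := List.map_injective_iff.2 (fun a b hab => xmir_inj hab) e4
      rw [e1, e3, e5]

theorem card_Dx_ge (j Q : ℕ) (x : ℤ) :
    ((Vx j x).card ^ 2) ^ Q ≤ (Dx (Q * (2 * j)) (4 * j)).card := by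
  refine (card_CC j Q x).trans (Finset.card_le_card ?_)
  intro l hl
  rw [mem_CC] at hl
  obtain ⟨h1, h2, h3, h4, h5, h6⟩ := hl
  rw [mem_Dx]
  refine ⟨h1, h2, h3, ?_⟩
  intro i k hi hk
  have a1 := h6 i (by omega)
  have a2 := h6 k (by omega)
  push_cast
  linarith

/-- many bridges end in the same column -/
theorem exists_col (ε : ℝ) (hε : 0 < ε) : ∃ j₀ : ℕ, 1 ≤ j₀ ∧ ∀ j : ℕ, j₀ ≤ j → ∃ x : ℤ,
    mu ^ j * Real.exp (-((j : ℝ) ^ ε)) ≤ (2 * j + 1) * ((Vx j x).card : ℝ) := by
  have hup : ∀ b, ∃ u ∈ sqL.S b, u.2 = 1 := fun b => ⟨(0, 1), by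
    rw [Pool.Agent.SawLim.mem_sqS]; simp, rfl⟩
  obtain ⟨j₀, hj₀⟩ := Filter.eventually_atTop.1
    (Pool.Agent.SawBr38.walk_le_bridge_L mirrored_sq hup ε hε)
  refine ⟨j₀ + 1, by omega, fun j hj => ?_⟩
  classical
  have h1 := hj₀ j (by omega)
  have h2 := SawKes.mu_pow_le j
  have h3 : mu ^ j * Real.exp (-((j : ℝ) ^ ε)) ≤ ((sysL sqL).b j : ℝ) := by
    have h4 : mu ^ j ≤ Real.exp ((j : ℝ) ^ ε) * ((sysL sqL).b j : ℝ) := h2.trans h1
    calc mu ^ j * Real.exp (-((j : ℝ) ^ ε))
        ≤ (Real.exp ((j : ℝ) ^ ε) * ((sysL sqL).b j : ℝ)) * Real.exp (-((j : ℝ) ^ ε)) :=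
          mul_le_mul_of_nonneg_right h4 (Real.exp_pos _).le
      _ = ((sysL sqL).b j : ℝ) := by
          rw [mul_comm, ← mul_assoc, ← Real.exp_add, neg_add_cancel, Real.exp_zero, one_mul]
  rw [← Pool.Agent.SawBr38.card_image_brSet] at h3
  set V := ((sysL sqL).brSet j).image (real sqL false) with hV
  have hVm : ∀ l ∈ V, IsBr j l := by
    intro l hl
    obtain ⟨a1, a2, a3, a4⟩ := (Pool.Agent.SawBr38.mem_image_brSet mirrored_sq).1 hl
    rw [Pool.Agent.SawLim.TW_sq] at a2
    refine ⟨a1, a2, a3, ?_, ?_⟩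
    · intro i hi hi'
      exact (a4 i hi (by omega)).1
    · intro i hi
      rcases Nat.eq_zero_or_pos i with h0 | h0
      · subst h0
        rw [ps_zero]
        have := (a4 j (by omega) le_rfl).1
        rw [← a1, ps_length] at this
        exact this.le
      · have := (a4 i h0 (by omega)).2
        rw [← a1, ps_length] at this
        exact this
  have hmaps : ∀ l ∈ V, l.sum.1 ∈ Finset.Icc (-(j : ℤ)) j := by
    intro l hl
    obtain ⟨a1, a2, -⟩ := hVm l hl
    have := abs_ps a2 l.length le_rfl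
    rw [ps_length, a1] at this
    rw [Finset.mem_Icc]
    exact abs_le.1 this
  have hcard : (Finset.Icc (-(j : ℤ)) j).card = 2 * j + 1 := by
    rw [Int.card_Icc]
    omega
  obtain ⟨x, -, hx⟩ := Finset.exists_le_card_fiber_of_nsmul_le_card_of_maps_to
    (b := (V.card : ℝ) / (2 * j + 1)) hmaps ⟨0, by simp⟩ (by
      rw [hcard, nsmul_eq_mul]
      push_cast
      rw [mul_div_cancel₀ _ (by positivity)])
  refine ⟨x, h3.trans ?_⟩
  have h5 : (V.filter (fun l => l.sum.1 = x)).card ≤ (Vx j x).card := by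
    refine Finset.card_le_card ?_
    intro l hl
    rw [Finset.mem_filter] at hl
    exact mem_Vx.2 ⟨hVm l hl.1, hl.2⟩
  have h6 : (((V.filter (fun l => l.sum.1 = x)).card : ℕ) : ℝ) ≤ ((Vx j x).card : ℝ) := by
    exact_mod_cast h5
  have h7 := hx.trans h6
  rw [div_le_iff₀ (by positivity)] at h7
  linarith

theorem ev (ε : ℝ) (hε : 0 < ε) : ∃ w₀ : ℕ, 1 ≤ w₀ ∧ ∀ w : ℕ, w₀ ≤ w → ∀ j : ℕ, j ≤ w → w ≤ 8 * j →
    (j : ℝ) ^ (ε / 2) + Real.log (2 * j + 1) ≤ j * (w : ℝ) ^ (-1 + ε) := by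
  have hε' : 0 < ε / 2 := by positivity
  have ev1 : ∀ᶠ x : ℝ in Filter.atTop, Real.log x ≤ x ^ (ε / 2) := by
    have := (isLittleO_log_rpow_atTop hε').bound (c := 1) one_pos
    filter_upwards [this, Filter.eventually_ge_atTop (1 : ℝ)] with x hx hx1
    rw [one_mul, Real.norm_of_nonneg (Real.log_nonneg hx1),
      Real.norm_of_nonneg (by positivity)] at hx
    exact hx
  have ev2 := (tendsto_natCast_atTop_atTop (R := ℝ)).eventually ev1
  have ev3 : ∀ᶠ n : ℕ in Filter.atTop, (24 : ℝ) ≤ (n : ℝ) ^ (ε / 2) :=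
    ((tendsto_rpow_atTop hε').comp tendsto_natCast_atTop_atTop).eventually_ge_atTop _
  obtain ⟨w₀, hw₀⟩ := Filter.eventually_atTop.1 (ev2.and ev3)
  refine ⟨max w₀ 3, by omega, fun w hw j hj hj' => ?_⟩
  obtain ⟨e1, e2⟩ := hw₀ w (by omega)
  have hw3 : (3 : ℝ) ≤ w := by
    have : 3 ≤ w := by omega
    exact_mod_cast this
  have hw0 : (0 : ℝ) < w := by linarith
  have hjw : (j : ℝ) ≤ w := by exact_mod_cast hj
  have hwj : (w : ℝ) ≤ 8 * j := by exact_mod_cast hj'
  set y : ℝ := (w : ℝ) ^ (ε / 2) with hy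
  have h1 : (j : ℝ) ^ (ε / 2) ≤ y := Real.rpow_le_rpow (Nat.cast_nonneg _) hjw hε'.le
  have h2 : Real.log (2 * j + 1) ≤ 2 * y := by
    have h3 : Real.log (2 * j + 1) ≤ Real.log (w * w) := by
      apply Real.log_le_log (by positivity)
      nlinarith
    rw [Real.log_mul hw0.ne' hw0.ne'] at h3
    linarith
  have h3 : (w : ℝ) ^ (-1 + ε) = y * y / w := by
    rw [hy, ← Real.rpow_add hw0, add_halves, Real.rpow_add hw0, Real.rpow_neg_one]
    field_simp
  rw [h3]
  have hy0 : 0 ≤ y := by positivity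
  have h4 : y * y / 8 ≤ j * (y * y / w) := by
    rw [mul_div_assoc', div_le_div_iff₀ (by norm_num) hw0]
    nlinarith [mul_nonneg hy0 hy0]
  nlinarith

end LowAux

theorem Sd_mul (a b w : ℕ) : (Sd (a + b) w).card ≤ (Sd a w).card * (Sd b w).card := by
  rw [LowAux.card_Sd, LowAux.card_Sd, LowAux.card_Sd]
  exact LowAux.Dx_mul a b w

/-- the growth constant of the strip is at least `mu exp (-w ^ (-1 + ε))` -/
theorem Sd_ge (ε : ℝ) (hε : 0 < ε) : ∃ w₀ : ℕ, ∀ w : ℕ, w₀ ≤ w → ∀ n : ℕ,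
    mu ^ n * Real.exp (-(n * (w : ℝ) ^ (-1 + ε))) ≤ ((Sd n w).card : ℝ) := by
  obtain ⟨j₀, hj₀, hcol⟩ := LowAux.exists_col (ε / 2) (by positivity)
  obtain ⟨w₁, hw₁, hev⟩ := LowAux.ev ε hε
  refine ⟨max w₁ (4 * j₀), fun w hw n => ?_⟩
  set j := w / 4 with hj
  have hj0 : j₀ ≤ j := by omega
  obtain ⟨x, hx⟩ := hcol j hj0
  have hev' := hev w (by omega) j (by omega) (by omega)
  have hjpos : (0 : ℝ) < j := by
    have : 0 < j := by omega
    exact_mod_cast this
  have hmu := mu_pos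
  -- the chain of inequalities of cardinalities
  have h1 : ((LowAux.Vx j x).card ^ 2) ^ n ≤ (LowAux.Dx n w).card ^ (2 * j) := by
    refine (LowAux.card_Dx_ge j n x).trans
      ((Finset.card_le_card (LowAux.Dx_mono (w' := w) ?_)).trans ?_)
    · omega
    · rw [Nat.mul_comm n]
      exact LowAux.Dx_pow n w (2 * j)
  rw [LowAux.card_Sd]
  set s : ℝ := ((LowAux.Dx n w).card : ℝ) with hs
  set v : ℝ := ((LowAux.Vx j x).card : ℝ) with hv
  have h1' : (v ^ 2) ^ n ≤ s ^ (2 * j) := by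
    rw [hs, hv]
    exact_mod_cast h1
  have hvpos : 0 < v := by
    have h2 : 0 < mu ^ j * Real.exp (-((j : ℝ) ^ (ε / 2))) := by positivity
    have h3 := h2.trans_le hx
    by_contra hcon
    push Not at hcon
    have : (2 * (j : ℝ) + 1) * v ≤ 0 := mul_nonpos_of_nonneg_of_nonpos (by positivity) hcon
    linarith
  have hspos : 0 < s := by
    by_contra hcon
    push Not at hcon
    have hs0 : s = 0 := le_antisymm hcon (Nat.cast_nonneg _)
    rw [hs0, zero_pow (by omega)] at h1'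
    have : 0 < (v ^ 2) ^ n := by positivity
    linarith
  have hlogv : j * Real.log mu - (j * (w : ℝ) ^ (-1 + ε)) ≤ Real.log v := by
    have h2 : 0 < mu ^ j * Real.exp (-((j : ℝ) ^ (ε / 2))) := by positivity
    have h3 := Real.log_le_log h2 hx
    rw [Real.log_mul (by positivity) (by positivity), Real.log_mul (by positivity) hvpos.ne',
      Real.log_exp, Real.log_pow] at h3
    linarith
  have hlog : 2 * n * Real.log v ≤ 2 * j * Real.log s := by
    have h2 := Real.log_le_log (by positivity) h1'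
    rw [Real.log_pow, Real.log_pow, Real.log_pow] at h2
    push_cast at h2
    linarith
  have hn : (0 : ℝ) ≤ n := Nat.cast_nonneg _
  have hfin : n * Real.log mu - n * (w : ℝ) ^ (-1 + ε) ≤ Real.log s := by
    have h4 : n * (j * Real.log mu - (j * (w : ℝ) ^ (-1 + ε))) ≤ n * Real.log v :=
      mul_le_mul_of_nonneg_left hlogv hn
    have h5 : j * (n * Real.log mu - n * (w : ℝ) ^ (-1 + ε)) ≤ j * Real.log s := by
      nlinarith
    exact le_of_mul_le_mul_left h5 hjpos
  calc mu ^ n * Real.exp (-(n * (w : ℝ) ^ (-1 + ε)))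
      = Real.exp (n * Real.log mu - n * (w : ℝ) ^ (-1 + ε)) := by
        rw [sub_eq_add_neg, Real.exp_add, Real.exp_nat_mul, Real.exp_log hmu]
    _ ≤ Real.exp (Real.log s) := Real.exp_le_exp.2 hfin
    _ = s := Real.exp_log hspos

end Pool.Agent.SawStrip
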