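import Pool.Agent.SawStrip.Ana
import Pool.Agent.SawStrip.Low
import Pool.Agent.SawStrip.Len
import Pool.Agent.SawStrip.Cross

/-!
# SawStrip module Fin: walks as functions
-/

set_option autoImplicit false

open Pool.Agent.SawKes

namespace Pool.Agent.SawStrip

/-- `n`-step self-avoiding walks on `ℤ²` from the origin -/
def IsWalk (n : ℕ) (f : Fin (n + 1) → ℤ × ℤ) : Prop :=
  f 0 = 0 ∧ Function.Injective f ∧
    ∀ i : Fin n, |(f i.castSucc).1 - (f i.succ).1| + |(f i.castSucc).2 - (f i.succ).2| = 1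

lemma ofFn_mem_W {n : ℕ} {f : Fin (n + 1) → ℤ × ℤ} : List.ofFn f ∈ W n ↔ IsWalk n f := by
  rw [mem_W]
  have hhead : (List.ofFn f).head? = some (f 0) := by
    rw [List.ofFn_succ, List.head?_cons]
  constructor
  · rintro ⟨_, h2, h3, h4⟩
    rw [hhead] at h2
    refine ⟨Option.some.inj h2, List.nodup_ofFn.1 h4, fun i => ?_⟩
    rw [List.isChain_iff_getElem] at h3
    have := h3 i (by rw [List.length_ofFn]; have := i.2; omega)
    rw [List.getElem_ofFn, List.getElem_ofFn] at this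
    rw [abs_sub_comm (f i.castSucc).1, abs_sub_comm (f i.castSucc).2]
    exact this
  · rintro ⟨h1, h2, h3⟩
    refine ⟨List.length_ofFn, by rw [hhead, h1], ?_, List.nodup_ofFn.2 h2⟩
    rw [List.isChain_iff_getElem]
    intro i hi
    rw [List.length_ofFn] at hi
    rw [List.getElem_ofFn, List.getElem_ofFn]
    have := h3 ⟨i, by omega⟩
    rw [abs_sub_comm (f _).1, abs_sub_comm (f _).2] at this
    exact this

lemma coe_filter_W {n : ℕ} (Q : List (ℤ × ℤ) → Prop) [DecidablePred Q] :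
    (((W n).filter Q : Finset (List (ℤ × ℤ))) : Set (List (ℤ × ℤ))) =
      List.ofFn '' {f : Fin (n + 1) → ℤ × ℤ | IsWalk n f ∧ Q (List.ofFn f)} := by
  ext L
  rw [Finset.mem_coe, Finset.mem_filter, Set.mem_image]
  constructor
  · rintro ⟨h1, h2⟩
    have hl := (mem_W.1 h1).1
    have he : List.ofFn (fun i : Fin (n + 1) => L[(i : ℕ)]'(by omega)) = L := by
      apply List.ext_getElem
      · rw [List.length_ofFn, hl]
      · intro i hi hi'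
        rw [List.getElem_ofFn]
    refine ⟨_, ⟨?_, ?_⟩, he⟩
    · rw [← ofFn_mem_W, he]
      exact h1
    · rw [he]
      exact h2
  · rintro ⟨f, ⟨h1, h2⟩, rfl⟩
    exact ⟨ofFn_mem_W.2 h1, h2⟩

lemma ncard_eq {n : ℕ} (P : (Fin (n + 1) → ℤ × ℤ) → Prop) (Q : List (ℤ × ℤ) → Prop)
    [DecidablePred Q] (h : ∀ f, P f ↔ Q (List.ofFn f)) :
    Set.ncard {f : Fin (n + 1) → ℤ × ℤ | IsWalk n f ∧ P f} = ((W n).filter Q).card := by
  have h1 : {f : Fin (n + 1) → ℤ × ℤ | IsWalk n f ∧ P f} =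
      {f : Fin (n + 1) → ℤ × ℤ | IsWalk n f ∧ Q (List.ofFn f)} := by
    ext f
    simp only [Set.mem_ofPred_eq, h]
  rw [h1, ← Set.ncard_coe_finset, coe_filter_W, Set.ncard_image_of_injective _ List.ofFn_injective]

lemma finite_walks (n : ℕ) : {f : Fin (n + 1) → ℤ × ℤ | IsWalk n f}.Finite := by
  have h := coe_filter_W (n := n) (fun _ => True)
  have h2 : (List.ofFn '' {f : Fin (n + 1) → ℤ × ℤ | IsWalk n f ∧ True}).Finite := by
    rw [← h]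
    exact Finset.finite_toSet _
  have h3 := Set.Finite.of_finite_image h2 List.ofFn_injective.injOn
  simpa using h3

lemma ncard_le {n : ℕ} (P : (Fin (n + 1) → ℤ × ℤ) → Prop) (Q : List (ℤ × ℤ) → Prop)
    [DecidablePred Q] (h : ∀ f, P f → Q (List.ofFn f)) :
    Set.ncard {f : Fin (n + 1) → ℤ × ℤ | IsWalk n f ∧ P f} ≤ ((W n).filter Q).card := by
  rw [← ncard_eq (fun f => Q (List.ofFn f)) Q (fun _ => Iff.rfl)]
  apply Set.ncard_le_ncard
  · rintro f ⟨h1, h2⟩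
    exact ⟨h1, h f h2⟩
  · exact (finite_walks n).subset fun f hf => hf.1

lemma ncard_all (n : ℕ) : Set.ncard {f : Fin (n + 1) → ℤ × ℤ | IsWalk n f} = cc n := by
  have h := ncard_eq (n := n) (fun _ => True) (fun _ => True) (fun _ => Iff.rfl)
  rw [Finset.filter_true_of_mem (fun _ _ => trivial), card_W] at h
  rw [← h]
  congr 1
  ext f
  simp

lemma ncard_height (n w : ℕ) : Set.ncard {f : Fin (n + 1) → ℤ × ℤ | IsWalk n f ∧
    ∀ i j, (f i).2 - (f j).2 ≤ w} = (Sd n w).card := by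
  unfold Sd
  apply ncard_eq
  intro f
  rw [List.forall_mem_ofFn_iff]
  simp only [List.forall_mem_ofFn_iff]

lemma ncard_width (n w : ℕ) : Set.ncard {f : Fin (n + 1) → ℤ × ℤ | IsWalk n f ∧
    ∀ i j, (f i).1 - (f j).1 ≤ w} = (Sd n w).card := by
  rw [← ncard_height]
  have hinj : Function.Injective
      (fun f : Fin (n + 1) → ℤ × ℤ => fun i => Prod.swap (f i)) := by
    intro f g h
    funext i
    exact Prod.swap_injective (congrFun h i)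
  rw [← Set.ncard_image_of_injective _ hinj]
  congr 1
  ext f
  rw [Set.mem_image]
  have key : ∀ g : Fin (n + 1) → ℤ × ℤ, IsWalk n g → IsWalk n (fun i => Prod.swap (g i)) := by
    rintro g ⟨h1, h2, h3⟩
    refine ⟨by show Prod.swap (g 0) = 0; rw [h1]; rfl, fun i j h => h2 (Prod.swap_injective h), fun i => ?_⟩
    simp only [Prod.fst_swap, Prod.snd_swap]
    rw [add_comm]
    exact h3 i
  constructor
  · rintro ⟨g, ⟨h1, h2⟩, rfl⟩
    refine ⟨key g h1, fun i j => ?_⟩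
    simp only [Prod.snd_swap]
    exact h2 i j
  · rintro ⟨h1, h2⟩
    refine ⟨fun i => Prod.swap (f i), ⟨key f h1, fun i j => ?_⟩, ?_⟩
    · simp only [Prod.fst_swap]
      exact h2 i j
    · funext i
      simp

lemma ncard_thin (n w : ℕ) : Set.ncard {f : Fin (n + 1) → ℤ × ℤ | IsWalk n f ∧
    ((∀ i j, (f i).2 - (f j).2 ≤ w) ∨ ∀ i j, (f i).1 - (f j).1 ≤ w)} ≤ 2 * (Sd n w).card := by
  have h : {f : Fin (n + 1) → ℤ × ℤ | IsWalk n f ∧
      ((∀ i j, (f i).2 - (f j).2 ≤ w) ∨ ∀ i j, (f i).1 - (f j).1 ≤ w)} =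
      {f : Fin (n + 1) → ℤ × ℤ | IsWalk n f ∧ ∀ i j, (f i).2 - (f j).2 ≤ w} ∪
      {f : Fin (n + 1) → ℤ × ℤ | IsWalk n f ∧ ∀ i j, (f i).1 - (f j).1 ≤ w} := by
    ext f
    simp only [Set.mem_ofPred_eq, Set.mem_union]
    tauto
  rw [h]
  refine (Set.ncard_union_le _ _).trans ?_
  rw [ncard_height, ncard_width]
  omega

lemma ncard_cross (n T : ℕ) : Set.ncard {f : Fin (n + 1) → ℤ × ℤ | IsWalk n f ∧
    ((f (Fin.last n)).2 = T ∧ ∀ i : Fin n, 0 < (f i.succ).2 ∧ (f i.succ).2 ≤ T)} ≤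
    (Br n T).card := by
  have h : {f : Fin (n + 1) → ℤ × ℤ | IsWalk n f ∧
      ((f (Fin.last n)).2 = T ∧ ∀ i : Fin n, 0 < (f i.succ).2 ∧ (f i.succ).2 ≤ T)} =
      {f : Fin (n + 1) → ℤ × ℤ | IsWalk n f ∧ (f 0 = 0 ∧
      ((f (Fin.last n)).2 = T ∧ ∀ i : Fin n, 0 < (f i.succ).2 ∧ (f i.succ).2 ≤ T))} := by
    ext f
    simp only [Set.mem_ofPred_eq]
    constructor
    · rintro ⟨h1, h2⟩
      exact ⟨h1, h1.1, h2⟩
    · rintro ⟨h1, _, h2⟩
      exact ⟨h1, h2⟩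
  rw [h]
  unfold Br
  apply ncard_le
  rintro f ⟨h0, h1, h2⟩
  refine ⟨⟨f (Fin.last n), ?_, h1⟩, ?_⟩
  · rw [List.getLast?_eq_getElem?, List.length_ofFn, Nat.add_sub_cancel,
      List.getElem?_eq_getElem (by rw [List.length_ofFn]; omega), List.getElem_ofFn]
    rfl
  · rw [List.forall_mem_ofFn_iff]
    intro i
    refine Fin.cases ?_ ?_ i
    · rw [h0]
      exact ⟨le_rfl, by positivity⟩
    · intro j
      exact ⟨(h2 j).1.le, (h2 j).2⟩

/-- the growth constant -/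
lemma mu_iInf : mu = ⨅ n : {n : ℕ // 1 ≤ n}, ((cc n.1 : ℝ) ^ ((1 : ℝ) / (n.1 : ℝ))) := by
  apply le_antisymm
  · have : Nonempty {n : ℕ // 1 ≤ n} := ⟨⟨1, le_rfl⟩⟩
    apply le_ciInf
    rintro ⟨n, hn⟩
    have hn0 : (0 : ℝ) < n := by exact_mod_cast hn
    have h1 : (mu ^ n) ^ ((1 : ℝ) / (n : ℝ)) ≤ (cc n : ℝ) ^ ((1 : ℝ) / (n : ℝ)) :=
      Real.rpow_le_rpow (pow_nonneg mu_pos.le n) (mu_pow_le n) (by positivity)
    have h2 : (mu ^ n) ^ ((1 : ℝ) / (n : ℝ)) = mu := by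
      rw [← Real.rpow_natCast, ← Real.rpow_mul mu_pos.le, mul_one_div_cancel hn0.ne',
        Real.rpow_one]
    rw [h2] at h1
    exact h1
  · have ht := sub_log.tendsto_lim bdd_log
    have ht2 : Filter.Tendsto (fun n : ℕ => Real.exp (Real.log (cc n) / n)) Filter.atTop
        (nhds mu) := (Real.continuous_exp.tendsto _).comp ht
    apply ge_of_tendsto ht2
    filter_upwards [Filter.eventually_ge_atTop 1] with n hn
    have hpos : (0 : ℝ) < cc n := by exact_mod_cast cc_pos n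
    have e : Real.exp (Real.log (cc n) / n) = (cc n : ℝ) ^ ((1 : ℝ) / (n : ℝ)) := by
      rw [Real.rpow_def_of_pos hpos]
      congr 1; ring
    rw [e]
    exact ciInf_le (f := fun n : {n : ℕ // 1 ≤ n} => ((cc n.1 : ℝ) ^ ((1 : ℝ) / (n.1 : ℝ))))
      ⟨0, by rintro x ⟨n, rfl⟩; positivity⟩ ⟨n, hn⟩

/-- growth constant of the strip from below -/
lemma nu_ge {w : ℕ} {x : ℝ} (h : ∀ n : ℕ, mu ^ n * Real.exp (-(n * x)) ≤ ((Sd n w).card : ℝ)) :
    mu * Real.exp (-x) ≤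
      ⨅ n : {n : ℕ // 1 ≤ n}, (((Sd n.1 w).card : ℝ) ^ ((1 : ℝ) / (n.1 : ℝ))) := by
  have : Nonempty {n : ℕ // 1 ≤ n} := ⟨⟨1, le_rfl⟩⟩
  apply le_ciInf
  rintro ⟨n, hn⟩
  have hn0 : (0 : ℝ) < n := by exact_mod_cast hn
  have h1 := h n
  have h2 : mu ^ n * Real.exp (-(n * x)) = (mu * Real.exp (-x)) ^ n := by
    rw [mul_pow, ← Real.exp_nat_mul]
    congr 2
    ring
  rw [h2] at h1
  have hb : 0 ≤ mu * Real.exp (-x) := mul_nonneg mu_pos.le (Real.exp_pos _).le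
  have h3 : ((mu * Real.exp (-x)) ^ n) ^ ((1 : ℝ) / (n : ℝ)) ≤
      ((Sd n w).card : ℝ) ^ ((1 : ℝ) / (n : ℝ)) :=
    Real.rpow_le_rpow (pow_nonneg hb n) h1 (by positivity)
  rw [← Real.rpow_natCast, ← Real.rpow_mul hb, mul_one_div_cancel hn0.ne', Real.rpow_one] at h3
  exact h3

/-- growth constant of the strip from above -/
lemma nu_le {w : ℕ} {x D : ℝ} (hD : 0 < D) (h : ∀ n : ℕ, ((Sd n w).card : ℝ) ≤
    D * mu ^ n * Real.exp ((n : ℝ) ^ (1 / 2 : ℝ) - n * x)) :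
    ⨅ n : {n : ℕ // 1 ≤ n}, (((Sd n.1 w).card : ℝ) ^ ((1 : ℝ) / (n.1 : ℝ))) ≤
      mu * Real.exp (-x) := by
  have hle : ∀ n : ℕ, 1 ≤ n →
      ⨅ n : {n : ℕ // 1 ≤ n}, (((Sd n.1 w).card : ℝ) ^ ((1 : ℝ) / (n.1 : ℝ))) ≤
      mu * Real.exp (Real.log D / n + (n : ℝ) ^ (-(1 / 2) : ℝ) - x) := by
    intro n hn
    have hn0 : (0 : ℝ) < n := by exact_mod_cast hn
    refine (ciInf_le (f := fun n : {n : ℕ // 1 ≤ n} =>
      (((Sd n.1 w).card : ℝ) ^ ((1 : ℝ) / (n.1 : ℝ))))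
      ⟨0, by rintro x ⟨n, rfl⟩; positivity⟩ ⟨n, hn⟩).trans ?_
    have h1 : ((Sd n w).card : ℝ) ^ ((1 : ℝ) / (n : ℝ)) ≤
        (D * mu ^ n * Real.exp ((n : ℝ) ^ (1 / 2 : ℝ) - n * x)) ^ ((1 : ℝ) / (n : ℝ)) :=
      Real.rpow_le_rpow (Nat.cast_nonneg _) (h n) (by positivity)
    refine h1.trans (le_of_eq ?_)
    have h2 : D * mu ^ n * Real.exp ((n : ℝ) ^ (1 / 2 : ℝ) - n * x) =
        Real.exp (Real.log D + n * kap + ((n : ℝ) ^ (1 / 2 : ℝ) - n * x)) := by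
      rw [Real.exp_add, Real.exp_add, Real.exp_log hD, Real.exp_nat_mul]
      rfl
    rw [h2, ← Real.exp_mul, mu, ← Real.exp_add]
    congr 1
    have h5 : (n : ℝ) ^ (1 / 2 : ℝ) = (n : ℝ) ^ (-(1 / 2) : ℝ) * n := by
      nth_rw 3 [← Real.rpow_one (n : ℝ)]
      rw [← Real.rpow_add hn0]
      norm_num
    rw [h5]
    field_simp
    ring
  have t1 : Filter.Tendsto (fun n : ℕ => (n : ℝ)) Filter.atTop Filter.atTop :=
    tendsto_natCast_atTop_atTop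
  have ht : Filter.Tendsto (fun n : ℕ => mu * Real.exp (Real.log D / n +
      (n : ℝ) ^ (-(1 / 2) : ℝ) - x)) Filter.atTop (nhds (mu * Real.exp (0 + 0 - x))) := by
    apply Filter.Tendsto.const_mul
    apply (Real.continuous_exp.tendsto _).comp
    apply Filter.Tendsto.sub_const
    apply Filter.Tendsto.add
    · exact tendsto_const_nhds.div_atTop t1
    · exact (tendsto_rpow_neg_atTop (by norm_num : (0 : ℝ) < 1 / 2)).comp t1
  rw [add_zero, zero_sub] at ht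
  exact ge_of_tendsto ht (Filter.eventually_atTop.2 ⟨1, hle⟩)

/-- from the uniform bound to the power of `n` -/
lemma thin_small {t : ℕ → ℕ → ℕ} {c : ℕ → ℕ} {K : ℝ} (hK : 0 < K)
    (h : ∀ δ : ℝ, 0 < δ → ∃ C : ℝ, ∀ n w : ℕ, 2 ≤ w →
        (t n w : ℝ) ≤ C * w * Real.exp ((n : ℝ) ^ δ - n * (w : ℝ) ^ (-K)) * c n)
    (δ : ℝ) (hδ : 0 < δ) (hδ1 : δ < 1) : ∃ a : ℝ, 0 < a ∧ ∃ n₀ : ℕ, ∀ n : ℕ, n₀ ≤ n →
      (t n ⌊(n : ℝ) ^ a⌋₊ : ℝ) ≤ Real.exp (-((n : ℝ) ^ (1 - δ))) * c n := by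
  obtain ⟨C, hC⟩ := h (1 - δ) (by linarith)
  set a : ℝ := δ / (2 * K) with ha
  have ha0 : 0 < a := by positivity
  have t1 : Filter.Tendsto (fun n : ℕ => (n : ℝ)) Filter.atTop Filter.atTop := tendsto_natCast_atTop_atTop
  have e1 : ∀ᶠ n : ℕ in Filter.atTop, (3 : ℝ) ≤ (n : ℝ) ^ a :=
    t1.eventually ((tendsto_rpow_atTop ha0).eventually_ge_atTop _)
  have e2 : ∀ᶠ n : ℕ in Filter.atTop, (4 : ℝ) ≤ (n : ℝ) ^ (δ / 2) :=
    t1.eventually ((tendsto_rpow_atTop (by positivity)).eventually_ge_atTop _)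
  -- `C n ^ a ≤ exp (n ^ (1 - δ))`
  have e3 : ∀ᶠ n : ℕ in Filter.atTop, |C| * (n : ℝ) ^ a * Real.exp (-((n : ℝ) ^ (1 - δ))) ≤ 1 := by
    have h1 : Filter.Tendsto (fun x : ℝ => x ^ (a / (1 - δ)) * Real.exp (-x)) Filter.atTop (nhds 0) := by
      have := tendsto_rpow_mul_exp_neg_mul_atTop_nhds_zero (a / (1 - δ)) 1 one_pos
      simpa using this
    have t2 : Filter.Tendsto (fun n : ℕ => (n : ℝ) ^ (1 - δ)) Filter.atTop Filter.atTop :=
      (tendsto_rpow_atTop (by linarith)).comp t1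
    have h2 := (h1.comp t2).const_mul |C|
    rw [mul_zero] at h2
    filter_upwards [h2.eventually (gt_mem_nhds zero_lt_one), Filter.eventually_ge_atTop 1] with n hn h1n
    have hn0 : (0 : ℝ) ≤ n := Nat.cast_nonneg n
    have e : ((n : ℝ) ^ (1 - δ)) ^ (a / (1 - δ)) = (n : ℝ) ^ a := by
      rw [← Real.rpow_mul hn0]
      congr 1
      have : 1 - δ ≠ 0 := by linarith
      field_simp
    simp only [Function.comp] at hn
    rw [e] at hn
    linarith [hn.le, mul_assoc |C| ((n : ℝ) ^ a) (Real.exp (-((n : ℝ) ^ (1 - δ))))]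
  obtain ⟨n₀, hn₀⟩ := Filter.eventually_atTop.1 (e1.and (e2.and (e3.and (Filter.eventually_ge_atTop 1))))
  refine ⟨a, ha0, n₀, fun n hn => ?_⟩
  obtain ⟨f1, f2, f3, f4⟩ := hn₀ n hn
  have hn1 : (1 : ℝ) ≤ n := by exact_mod_cast f4
  have hn0 : (0 : ℝ) < n := by linarith
  set w : ℕ := ⌊(n : ℝ) ^ a⌋₊ with hw
  have hw2 : 2 ≤ w := Nat.le_floor (by push_cast; linarith)
  have hwle : (w : ℝ) ≤ (n : ℝ) ^ a := Nat.floor_le (by positivity)
  have hw0 : (0 : ℝ) < w := by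
    have : (2 : ℝ) ≤ w := by exact_mod_cast hw2
    linarith
  have h1 := hC n w hw2
  refine h1.trans ?_
  apply mul_le_mul_of_nonneg_right _ (Nat.cast_nonneg _)
  have h2 : (n : ℝ) ^ (-(δ / 2)) ≤ (w : ℝ) ^ (-K) := by
    have h3 : ((n : ℝ) ^ a) ^ (-K) ≤ (w : ℝ) ^ (-K) :=
      Real.rpow_le_rpow_of_nonpos hw0 hwle (by linarith)
    have h4 : ((n : ℝ) ^ a) ^ (-K) = (n : ℝ) ^ (-(δ / 2)) := by
      rw [← Real.rpow_mul hn0.le]
      congr 1
      rw [ha]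
      field_simp
    rw [← h4]
    exact h3
  have h5 : (n : ℝ) ^ (1 - δ) * (n : ℝ) ^ (δ / 2) = n * (n : ℝ) ^ (-(δ / 2)) := by
    nth_rw 3 [← Real.rpow_one (n : ℝ)]
    rw [← Real.rpow_add hn0, ← Real.rpow_add hn0]
    congr 1
    ring
  have hpos : 0 < (n : ℝ) ^ (1 - δ) := by positivity
  have h6 : 4 * (n : ℝ) ^ (1 - δ) ≤ n * (w : ℝ) ^ (-K) := by
    calc 4 * (n : ℝ) ^ (1 - δ) ≤ (n : ℝ) ^ (1 - δ) * (n : ℝ) ^ (δ / 2) := by nlinarith
      _ = n * (n : ℝ) ^ (-(δ / 2)) := h5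
      _ ≤ n * (w : ℝ) ^ (-K) := mul_le_mul_of_nonneg_left h2 hn0.le
  have h7 : Real.exp ((n : ℝ) ^ (1 - δ) - n * (w : ℝ) ^ (-K)) ≤
      Real.exp (-((n : ℝ) ^ (1 - δ))) * Real.exp (-((n : ℝ) ^ (1 - δ))) := by
    rw [← Real.exp_add]
    apply Real.exp_le_exp.2
    linarith
  calc C * w * Real.exp ((n : ℝ) ^ (1 - δ) - n * (w : ℝ) ^ (-K))
      ≤ |C| * (n : ℝ) ^ a * Real.exp ((n : ℝ) ^ (1 - δ) - n * (w : ℝ) ^ (-K)) := by
        apply mul_le_mul_of_nonneg_right _ (Real.exp_pos _).le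
        exact mul_le_mul (le_abs_self C) hwle hw0.le (abs_nonneg C)
    _ ≤ |C| * (n : ℝ) ^ a * (Real.exp (-((n : ℝ) ^ (1 - δ))) *
          Real.exp (-((n : ℝ) ^ (1 - δ)))) := by
        apply mul_le_mul_of_nonneg_left h7 (by positivity)
    _ = (|C| * (n : ℝ) ^ a * Real.exp (-((n : ℝ) ^ (1 - δ)))) *
          Real.exp (-((n : ℝ) ^ (1 - δ))) := by ring
    _ ≤ 1 * Real.exp (-((n : ℝ) ^ (1 - δ))) :=
        mul_le_mul_of_nonneg_right f3 (Real.exp_pos _).le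
    _ = Real.exp (-((n : ℝ) ^ (1 - δ))) := one_mul _

end Pool.Agent.SawStrip
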