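import Pool.Agent.SawStrip.Defs

/-!
# SawStrip module Mir1: the first mirror

`(L₁, L₂) ↦ L₁ ++ (L₂.map (fun p => (2 X + 1 - p.1, p.2))).reverse` maps `J n X Y × J n X Y`
injectively into `A (2 n + 1) (2 X + 1) Y`: `L₁` lies in `x ≤ X`, the mirror image of `L₂` in
`x ≥ X + 1`, the two ends `(X, Y)`, `(X + 1, Y)` are neighbours.
-/

set_option autoImplicit false

open Pool.Agent.SawKes Pool.Agent.SawPoly

namespace Pool.Agent.SawStrip

namespace Mir1Aux

/-- the mirror -/
def mir (X : ℤ) (p : Pt) : Pt := (2 * X + 1 - p.1, p.2)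

theorem mir_inj (X : ℤ) : Function.Injective (mir X) := by
  rintro ⟨a, b⟩ ⟨c, d⟩ h
  simp only [mir, Prod.mk.injEq] at h
  ext <;> simp <;> omega

theorem nb_mir {X : ℤ} {p q : Pt} (h : nb p q) : nb (mir X p) (mir X q) := by
  rw [nb_iff] at h ⊢
  obtain ⟨a, b⟩ := p
  obtain ⟨c, d⟩ := q
  simp only [mir, Prod.mk.injEq] at h ⊢
  omega

/-- the glued walk -/
def glue (X : ℤ) (q : List Pt × List Pt) : List Pt := q.1 ++ (q.2.map (mir X)).reverse

theorem glue_mem {n : ℕ} {X Y : ℤ} {L M : List Pt} (hL : L ∈ J n X Y) (hM : M ∈ J n X Y) :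
    glue X (L, M) ∈ A (2 * n + 1) (2 * X + 1) Y := by
  rw [mem_J] at hL hM
  obtain ⟨⟨hl, hh, hc, hn⟩, hlast, hb⟩ := hL
  obtain ⟨⟨hl', hh', hc', hn'⟩, hlast', hb'⟩ := hM
  have hne : L ≠ [] := by
    rintro rfl
    simp at hl
  have hne' : (M.map (mir X)).reverse ≠ [] := by
    intro h
    have := congrArg List.length h
    simp at this
    rw [this] at hl'
    simp at hl'
  rw [mem_A]
  unfold glue
  refine ⟨⟨?_, ?_, ?_, ?_⟩, ?_, ?_, ?_⟩
  · simp only [List.length_append, List.length_reverse, List.length_map, hl, hl']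
    ring
  · rw [List.head?_append_of_ne_nil _ hne]
    exact hh
  · rw [List.isChain_append]
    refine ⟨hc, ?_, ?_⟩
    · rw [List.isChain_reverse, List.isChain_map]
      exact hc'.imp fun a b hab => nb_comm.1 (nb_mir hab)
    · intro x hx y hy
      simp only [hlast, Option.mem_def, Option.some.injEq] at hx
      simp only [List.head?_reverse, List.getLast?_map, hlast', Option.map_some,
        Option.mem_def, Option.some.injEq] at hy
      subst hx
      subst hy
      rw [nb_iff]
      left
      simp only [mir, Prod.mk.injEq, and_true]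
      ring
  · rw [List.nodup_append']
    refine ⟨hn, ?_, ?_⟩
    · rw [List.nodup_reverse]
      exact hn'.map (mir_inj X)
    · intro p hp hp'
      rw [List.mem_reverse, List.mem_map] at hp'
      obtain ⟨q, hq, rfl⟩ := hp'
      have h1 := (hb _ hp).2
      have h2 := (hb' _ hq).2
      simp only [mir] at h1
      omega
  · rw [List.getLast?_append_of_ne_nil _ hne', List.getLast?_reverse, List.head?_map, hh']
    simp [mir]
  · intro p hp
    rw [List.mem_append, List.mem_reverse, List.mem_map] at hp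
    rcases hp with hp | ⟨q, hq, rfl⟩
    · exact (hb _ hp).1
    · exact (hb' _ hq).1
  · exact ⟨(X, Y), List.mem_append_left _ (List.mem_of_getLast? hlast), le_refl _⟩

end Mir1Aux

open Mir1Aux

theorem J_sq (n : ℕ) (X Y : ℤ) : (J n X Y).card ^ 2 ≤ (A (2 * n + 1) (2 * X + 1) Y).card := by
  classical
  rw [sq, ← Finset.card_product]
  refine Finset.card_le_card_of_injOn (glue X) ?_ ?_
  · rintro ⟨L, M⟩ h
    rw [Finset.mem_coe, Finset.mem_product] at h
    exact glue_mem h.1 h.2
  · rintro ⟨L, M⟩ h ⟨L', M'⟩ h' he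
    rw [Finset.mem_coe, Finset.mem_product] at h h'
    have h1 := (mem_J.1 h.1).1.1
    have h2 := (mem_J.1 h'.1).1.1
    simp only [glue] at he
    have h3 := List.append_inj he (h1.trans h2.symm)
    have h4 := List.reverse_injective h3.2
    have h5 := (List.map_injective_iff.2 (mir_inj X)) h4
    rw [h3.1, h5]

end Pool.Agent.SawStrip
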