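import Pool.Agent.SawStrip.Defs

/-!
# SawStrip module Rot: polygons and arcs over one edge

A polygon `L ∈ P n h` is a cyclic list (`Loop L`, see `Pool.Agent.SawPoly.Basic`: `Loop.rotate`,
`Loop.reverse`, `Loop.mv`). A site of its lowest row has two different neighbours in the polygon
(`n + 1 ≥ 3`), not both above, none below: there is an `r < n + 1` such that the first and the last
site of `L.rotate r` are horizontal neighbours in the lowest row. Translate the first one to the
origin (if the last one is on the right) or reverse first and translate (if it is on the left):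
the result is in `A n 1 h`. `L` is determined by the result, `r` and the case (`L` starts at the
origin), so `|P n h| ≤ 2 (n + 1) |A n 1 h|`.
-/

set_option autoImplicit false

open Pool.Agent.SawKes Pool.Agent.SawPoly

namespace Pool.Agent.SawStrip

namespace RotAux

theorem loop_of_P {n : ℕ} {h : ℤ} {L : List Pt} (hL : L ∈ P n h) : Loop L := by
  obtain ⟨⟨-, h2, h3, h4⟩, h5, -⟩ := mem_P.1 hL
  refine ⟨h4, h3, ?_⟩
  intro x hx y hy
  rw [h5, Option.mem_some_iff] at hx
  rw [h2, Option.mem_some_iff] at hy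
  subst hx
  subst hy
  simp [nb]

theorem mk_A {n : ℕ} {h : ℤ} {N : List Pt} {u v : Pt} (hN : Loop N) (hl : N.length = n + 1)
    (hu : N.head? = some u) (hv : N.getLast? = some v) (hvu : v = u + (1, 0))
    (hmin : ∀ q ∈ N, u.2 ≤ q.2) (hh : ∃ p ∈ N, ∃ q ∈ N, h ≤ p.2 - q.2) :
    mv (-u) N ∈ A n 1 h := by
  obtain ⟨h1, h2, -⟩ := hN.mv (-u)
  refine mem_A.2 ⟨⟨by rw [length_mv, hl], ?_, h2, h1⟩, ?_, ?_, ?_⟩
  · unfold mv
    rw [List.head?_map, hu]
    simp
  · unfold mv
    rw [List.getLast?_map, hv, hvu]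
    simp
  · intro p hp
    rw [mem_mv] at hp
    have := hmin _ hp
    simp only [sub_neg_eq_add, Prod.snd_add] at this
    linarith
  · obtain ⟨p, hp, q, hq, hpq⟩ := hh
    refine ⟨p + -u, mem_mv.2 (by simpa using hp), ?_⟩
    have := hmin q hq
    simp only [Prod.snd_add, Prod.snd_neg]
    linarith

theorem toA {n : ℕ} {h : ℤ} {L : List Pt} (hL : L ∈ P n h) {r : ℕ} {u v : Pt}
    (hu : (L.rotate r).head? = some u) (hv : (L.rotate r).getLast? = some v)
    (hmin : ∀ q ∈ L, u.2 ≤ q.2) (huv : v = u + (1, 0) ∨ u = v + (1, 0)) :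
    ∃ r' < n + 1, ∃ c : Bool, ∃ M ∈ A n 1 h,
      nrm ((if c then M.reverse else M).rotate (n + 1 - r')) = L := by
  have hloop := loop_of_P hL
  obtain ⟨⟨hl, h2, -, -⟩, -, hh⟩ := mem_P.1 hL
  have hr : L.rotate (r % (n + 1)) = L.rotate r := by rw [← hl, List.rotate_mod]
  have hlt : r % (n + 1) < n + 1 := Nat.mod_lt _ (Nat.succ_pos n)
  rw [← hr] at hu hv
  obtain ⟨t, ht⟩ : ∃ t, t = r % (n + 1) := ⟨_, rfl⟩
  rw [← ht] at hu hv hlt
  have hN : Loop (L.rotate t) := hloop.rotate t
  have hNl : (L.rotate t).length = n + 1 := by rw [List.length_rotate, hl]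
  have hNm : ∀ q, q ∈ L.rotate t ↔ q ∈ L := fun q => List.mem_rotate
  have hmin' : ∀ q ∈ L.rotate t, u.2 ≤ q.2 := fun q hq => hmin q ((hNm q).1 hq)
  have hh' : ∃ p ∈ L.rotate t, ∃ q ∈ L.rotate t, h ≤ p.2 - q.2 := by
    obtain ⟨p, hp, q, hq, hpq⟩ := hh
    exact ⟨p, (hNm p).2 hp, q, (hNm q).2 hq, hpq⟩
  have hback : ∀ w : Pt, nrm ((mv w (L.rotate t)).rotate (n + 1 - t)) = L := by
    intro w
    rw [← mv_rotate, nrm_mv, List.rotate_rotate]
    have : t + (n + 1 - t) = L.length := by rw [hl]; omega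
    rw [this, List.rotate_length, nrm_eq h2]
  rcases huv with huv | huv
  · exact ⟨t, hlt, false, mv (-u) (L.rotate t), mk_A hN hNl hu hv huv hmin' hh', hback (-u)⟩
  · refine ⟨t, hlt, true, mv (-v) (L.rotate t).reverse, mk_A hN.reverse ?_ ?_ ?_ huv ?_ ?_, ?_⟩
    · rw [List.length_reverse, hNl]
    · rw [List.head?_reverse, hv]
    · rw [List.getLast?_reverse, hu]
    · intro q hq
      rw [List.mem_reverse] at hq
      have h3 := hmin' q hq
      rw [huv] at h3
      simpa using h3
    · obtain ⟨p, hp, q, hq, hpq⟩ := hh'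
      exact ⟨p, List.mem_reverse.2 hp, q, List.mem_reverse.2 hq, hpq⟩
    · have h3 : (mv (-v) (L.rotate t).reverse).reverse = mv (-v) (L.rotate t) := by
        rw [← mv_reverse, List.reverse_reverse]
      rw [if_pos rfl, h3]
      exact hback (-v)

theorem horiz {p q : Pt} (h : nb p q) (h1 : p.2 ≤ q.2) :
    (q = p + (1, 0) ∨ p = q + (1, 0)) ∨ q = p + (0, 1) := by
  obtain ⟨a, b⟩ := p
  rcases nb_iff.1 h with rfl | rfl | rfl | rfl
  · left; left; simp
  · left; right; simp
  · right; simp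
  · simp only at h1
    omega

theorem exists_A {n : ℕ} (hn : 2 ≤ n) {h : ℤ} {L : List Pt} (hL : L ∈ P n h) :
    ∃ r' < n + 1, ∃ c : Bool, ∃ M ∈ A n 1 h,
      nrm ((if c then M.reverse else M).rotate (n + 1 - r')) = L := by
  have hloop := loop_of_P hL
  obtain ⟨⟨hl, h2, -, -⟩, -, hh⟩ := mem_P.1 hL
  have hne : L.toFinset.Nonempty := by
    rw [List.toFinset_nonempty_iff]
    rintro rfl
    simp at hl
  obtain ⟨p, hp, hpmin⟩ := L.toFinset.exists_min_image Prod.snd hne
  rw [List.mem_toFinset] at hp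
  have hmin : ∀ q ∈ L, p.2 ≤ q.2 := fun q hq => hpmin q (List.mem_toFinset.2 hq)
  obtain ⟨i, hi, hip⟩ := List.getElem_of_mem hp
  have hN : Loop (L.rotate i) := hloop.rotate i
  have hNl : (L.rotate i).length = n + 1 := by rw [List.length_rotate, hl]
  have hNh : (L.rotate i).head? = some p := by
    rw [List.rotate_eq_drop_append_take hi.le, List.drop_eq_getElem_cons hi, hip]
    rfl
  have hsucc : L.rotate (i + 1) = (L.rotate i).rotate 1 := by rw [List.rotate_rotate]
  have hmem : ∀ q ∈ L.rotate i, p.2 ≤ q.2 := fun q hq => hmin q (List.mem_rotate.1 hq)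
  obtain ⟨N, hNdef⟩ : ∃ N, N = L.rotate i := ⟨_, rfl⟩
  rw [← hNdef] at hN hNl hNh hsucc hmem
  match N, hNl, hNh, hN, hNdef, hsucc, hmem with
  | [], hNl, _, _, _, _, _ => simp at hNl
  | [_], hNl, _, _, _, _, _ => simp at hNl; omega
  | [_, _], hNl, _, _, _, _, _ => simp at hNl; omega
  | p' :: q1 :: y :: R, hNl, hNh, hN, hNdef, hsucc, hmem =>
    have hpp : p' = p := by simpa using hNh
    subst hpp
    obtain ⟨hnd, hch, hcl⟩ := hN
    obtain ⟨q0, hq0⟩ : ∃ q0, (y :: R).getLast? = some q0 := ⟨(y :: R).getLast (by simp),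
      List.getLast?_eq_getLast_of_ne_nil (by simp)⟩
    have hlast : (p' :: q1 :: y :: R).getLast? = some q0 := by
      rw [List.getLast?_cons_cons, List.getLast?_cons_cons]
      exact hq0
    have hq0m : q0 ∈ y :: R := List.mem_of_getLast? hq0
    have hne1 : q0 ≠ q1 := by
      rintro rfl
      rw [List.nodup_cons, List.nodup_cons] at hnd
      exact hnd.2.1 hq0m
    have hn1 : nb p' q1 := by
      rw [List.isChain_cons_cons] at hch
      exact hch.1
    have hn0 : nb p' q0 := nb_comm.1 (hcl q0 (by rw [hlast]; rfl) p' (by simp))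
    have hle1 : p'.2 ≤ q1.2 := hmem q1 (by simp)
    have hle0 : p'.2 ≤ q0.2 := hmem q0 (List.mem_cons_of_mem _ (List.mem_cons_of_mem _ hq0m))
    rcases horiz hn0 hle0 with h0 | h0
    · exact toA hL (r := i) (u := p') (v := q0) (by rw [← hNdef]; rfl)
        (by rw [← hNdef]; exact hlast) hmin h0
    · rcases horiz hn1 hle1 with h1 | h1
      · have hrow : q1.2 = p'.2 := by
          rcases h1 with h1 | h1
          · rw [h1]; simp
          · rw [h1]; simp
        refine toA hL (r := i + 1) (u := q1) (v := p') ?_ ?_ ?_ h1.symm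
        · rw [hsucc, List.rotate_cons_succ, List.rotate_zero]
          rfl
        · rw [hsucc, List.rotate_cons_succ, List.rotate_zero, List.getLast?_append]
          simp
        · intro q hq
          rw [hrow]
          exact hmin q hq
      · exact absurd (h0.trans h1.symm) hne1

end RotAux

theorem P_le (n : ℕ) (hn : 2 ≤ n) (h : ℤ) : (P n h).card ≤ 2 * (n + 1) * (A n 1 h).card := by
  classical
  have hsub : P n h ⊆ ((Finset.range (n + 1) ×ˢ (Finset.univ : Finset Bool)) ×ˢ A n 1 h).image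
      (fun x => nrm ((if x.1.2 then x.2.reverse else x.2).rotate (n + 1 - x.1.1))) := by
    intro L hL
    obtain ⟨r, hr, c, M, hM, hML⟩ := RotAux.exists_A hn hL
    rw [Finset.mem_image]
    refine ⟨((r, c), M), ?_, hML⟩
    rw [Finset.mem_product, Finset.mem_product]
    exact ⟨⟨Finset.mem_range.2 hr, Finset.mem_univ _⟩, hM⟩
  refine (Finset.card_le_card hsub).trans (Finset.card_image_le.trans ?_)
  rw [Finset.card_product, Finset.card_product, Finset.card_range, Finset.card_univ,
    Fintype.card_bool, Nat.mul_comm (n + 1) 2]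

end Pool.Agent.SawStrip
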