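import Pool.Agent.SawStrip.Up
import Pool.Agent.SawStrip.Rot
import Pool.Agent.SawStrip.Split
import Pool.Agent.SawStrip.Cross

/-!
# SawStrip module Poly: many polygons over one edge

For `w ≥ Q₀` take `T` from `Br_lower` (`Q = w`). By `Br_le` the sum is at most the sum over
`n ≤ w ^ 3`, `j ≤ n`, `X`, `Y`, `x` of `(|J j X Y| / mu ^ j) * (|J (n - j) (X - x) (T - Y)| /
mu ^ (n - j))`, at most `w ^ 40` terms, so one term is at least `w ^ (-50)`. One of `Y`, `T - Y` is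
`≥ T / 2`; the other factor is at most `C (w ^ 3 + 1)` by `J_le`. So there are `n ≤ w ^ 3`, `X`, `Y`
with `2 Y ≥ T ≥ w + 1` and `|J n X Y| ≥ w ^ (-c) mu ^ n`. By `J_sq`, `A_sq`, `P_le` with
`N = 4 n + 3`: `w ^ (-4 c) mu ^ (4 n) ≤ |J n X Y| ^ 4 ≤ |P N (2 Y + 1)| ≤ 2 (N + 1) |A N 1 (2 Y + 1)|`
and `A N 1 (2 Y + 1) ⊆ A N 1 w`. For `2 ≤ w < Q₀` use the result for `Q₀` and a larger `C`
(`A N 1 Q₀ ⊆ A N 1 w`, `2 ≤ w`).
-/

set_option autoImplicit false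

open Pool.Agent.SawKes Pool.Agent.SawPoly

namespace Pool.Agent.SawStrip

namespace PolyAux

/-- number of crossings if all walks `J` of height at least `T / 2` are rare -/
lemma Br_small {M T n : ℕ} {C₁ δ : ℝ}
    (hJ : ∀ (n : ℕ) (X Y : ℤ), ((J n X Y).card : ℝ) ≤ C₁ * ((n : ℝ) + 1) * mu ^ n)
    (hδ : 0 ≤ δ) (hC : 0 ≤ C₁)
    (H : ∀ j ≤ M, ∀ X Y : ℤ, (T : ℤ) ≤ 2 * Y → ((J j X Y).card : ℝ) ≤ δ * mu ^ j)
    (hn : n ≤ M) : ((Br n T).card : ℝ) ≤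
      ((n : ℝ) + 1) * (((n : ℝ) + 1) * (((T : ℝ) + 1) * ((2 * (n : ℝ) + 1) *
        (δ * (C₁ * ((n : ℝ) + 1)) * mu ^ n)))) := by
  have hmu := mu_pos
  have h1 : ((Br n T).card : ℝ) ≤ ∑ j ∈ Finset.range (n + 1), ∑ X ∈ Finset.Icc (0 : ℤ) n,
      ∑ Y ∈ Finset.Icc (0 : ℤ) T, ∑ x ∈ Finset.Icc (-(n : ℤ)) n,
        ((J j X Y).card : ℝ) * ((J (n - j) (X - x) (T - Y)).card : ℝ) := by
    exact_mod_cast Br_le n T
  have h2 : ∀ j ∈ Finset.range (n + 1), ∀ X Y x : ℤ,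
      ((J j X Y).card : ℝ) * ((J (n - j) (X - x) (T - Y)).card : ℝ) ≤
        δ * (C₁ * ((n : ℝ) + 1)) * mu ^ n := by
    intro j hj X Y x
    have hjn : j ≤ n := by
      have := Finset.mem_range.1 hj
      omega
    have hmn : mu ^ j * mu ^ (n - j) = mu ^ n := by
      rw [← pow_add, Nat.add_sub_cancel' hjn]
    have hsub : ((n - j : ℕ) : ℝ) ≤ n := by
      exact_mod_cast Nat.sub_le n j
    have hjn' : (j : ℝ) ≤ n := by exact_mod_cast hjn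
    rcases le_total (T : ℤ) (2 * Y) with hY | hY
    · calc ((J j X Y).card : ℝ) * ((J (n - j) (X - x) (T - Y)).card : ℝ)
          ≤ (δ * mu ^ j) * (C₁ * (((n - j : ℕ) : ℝ) + 1) * mu ^ (n - j)) :=
            mul_le_mul (H j (hjn.trans hn) X Y hY) (hJ _ _ _) (Nat.cast_nonneg _)
              (mul_nonneg hδ (pow_nonneg hmu.le _))
        _ = δ * (C₁ * (((n - j : ℕ) : ℝ) + 1)) * (mu ^ j * mu ^ (n - j)) := by ring
        _ ≤ δ * (C₁ * ((n : ℝ) + 1)) * (mu ^ j * mu ^ (n - j)) := by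
            apply mul_le_mul_of_nonneg_right _ (by positivity)
            apply mul_le_mul_of_nonneg_left _ hδ
            apply mul_le_mul_of_nonneg_left _ hC
            linarith
        _ = δ * (C₁ * ((n : ℝ) + 1)) * mu ^ n := by rw [hmn]
    · calc ((J j X Y).card : ℝ) * ((J (n - j) (X - x) (T - Y)).card : ℝ)
          ≤ (C₁ * ((j : ℝ) + 1) * mu ^ j) * (δ * mu ^ (n - j)) :=
            mul_le_mul (hJ _ _ _) (H (n - j) ((Nat.sub_le n j).trans hn) _ _ (by linarith))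
              (Nat.cast_nonneg _) (by positivity)
        _ = δ * (C₁ * ((j : ℝ) + 1)) * (mu ^ j * mu ^ (n - j)) := by ring
        _ ≤ δ * (C₁ * ((n : ℝ) + 1)) * (mu ^ j * mu ^ (n - j)) := by
            apply mul_le_mul_of_nonneg_right _ (by positivity)
            apply mul_le_mul_of_nonneg_left _ hδ
            apply mul_le_mul_of_nonneg_left _ hC
            linarith
        _ = δ * (C₁ * ((n : ℝ) + 1)) * mu ^ n := by rw [hmn]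
  have hc1 : (Finset.Icc (0 : ℤ) n).card = n + 1 := by rw [Int.card_Icc]; omega
  have hc2 : (Finset.Icc (0 : ℤ) T).card = T + 1 := by rw [Int.card_Icc]; omega
  have hc3 : (Finset.Icc (-(n : ℤ)) n).card = 2 * n + 1 := by rw [Int.card_Icc]; omega
  refine h1.trans ?_
  refine (Finset.sum_le_sum fun j hj => Finset.sum_le_sum fun X _ => Finset.sum_le_sum fun Y _ =>
    Finset.sum_le_sum fun x _ => h2 j hj X Y x).trans ?_
  apply le_of_eq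
  simp only [Finset.sum_const, nsmul_eq_mul, hc1, hc2, hc3, Finset.card_range]
  push_cast
  ring

lemma A_sub {N : ℕ} {m h h' : ℤ} (hh : h ≤ h') : A N m h' ⊆ A N m h := by
  intro L hL
  rw [mem_A] at hL ⊢
  obtain ⟨h1, h2, h3, p, hp, hp'⟩ := hL
  exact ⟨h1, h2, h3, p, hp, hh.trans hp'⟩

/-- from a walk `J` to arcs -/
lemma arcs_of_J {j : ℕ} {X Y : ℤ} {w : ℕ} (hY : (w : ℤ) ≤ 2 * Y + 1) :
    ((J j X Y).card : ℝ) ^ 4 ≤ 8 * ((j : ℝ) + 1) * ((A (4 * j + 3) 1 w).card : ℝ) := by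
  have h1 := J_sq j X Y
  have h2 := A_sq (2 * j + 1) (2 * X + 1) Y
  have h3 := P_le (2 * (2 * j + 1) + 1) (by omega) (2 * Y + 1)
  have e : 2 * (2 * j + 1) + 1 = 4 * j + 3 := by ring
  rw [e] at h2 h3
  have h4 : (A (4 * j + 3) 1 (2 * Y + 1)).card ≤ (A (4 * j + 3) 1 w).card :=
    Finset.card_le_card (A_sub hY)
  have h5 : (J j X Y).card ^ 4 ≤ 8 * (j + 1) * (A (4 * j + 3) 1 w).card := by
    calc (J j X Y).card ^ 4 = ((J j X Y).card ^ 2) ^ 2 := by ring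
      _ ≤ ((A (2 * j + 1) (2 * X + 1) Y).card) ^ 2 := Nat.pow_le_pow_left h1 2
      _ ≤ (P (4 * j + 3) (2 * Y + 1)).card := h2
      _ ≤ 2 * (4 * j + 3 + 1) * (A (4 * j + 3) 1 (2 * Y + 1)).card := h3
      _ ≤ 2 * (4 * j + 3 + 1) * (A (4 * j + 3) 1 w).card := Nat.mul_le_mul_left _ h4
      _ = 8 * (j + 1) * (A (4 * j + 3) 1 w).card := by ring
  exact_mod_cast h5

/-- the main step, for large `w` -/
lemma large : ∃ Q : ℕ, 2 ≤ Q ∧ ∃ C : ℕ, ∀ w : ℕ, Q ≤ w → ∃ N : ℕ, 1 ≤ N ∧ N + 1 ≤ w ^ C ∧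
    mu ^ N ≤ (w : ℝ) ^ C * ((A N 1 w).card : ℝ) := by
  obtain ⟨Q₀, hQ⟩ := Br_lower
  obtain ⟨C₁, hC₁, hJ⟩ := J_le
  have hmu := mu_pos
  obtain ⟨a, ha⟩ : ∃ a : ℕ, 8 * mu ^ 3 * (500000 * C₁) ^ 4 ≤ (2 : ℝ) ^ a := by
    obtain ⟨a, ha⟩ := pow_unbounded_of_one_lt (8 * mu ^ 3 * (500000 * C₁) ^ 4)
      (by norm_num : (1 : ℝ) < 2)
    exact ⟨a, ha.le⟩
  refine ⟨max Q₀ 2, le_max_right _ _, 116 + a, fun w hw => ?_⟩
  have hw0 : Q₀ ≤ w := (le_max_left _ _).trans hw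
  have hw2 : 2 ≤ w := (le_max_right _ _).trans hw
  have hwr : (2 : ℝ) ≤ w := by exact_mod_cast hw2
  have hwpos : (0 : ℝ) < w := by linarith
  obtain ⟨T, hT1, hT2, hsum⟩ := hQ w hw0
  set δ : ℝ := 1 / (500000 * C₁ * (w : ℝ) ^ 28) with hδdef
  have hδ : 0 < δ := by
    rw [hδdef]
    positivity
  -- a large family `J`
  have key : ∃ j ≤ w ^ 3, ∃ X Y : ℤ, (T : ℤ) ≤ 2 * Y ∧ δ * mu ^ j < ((J j X Y).card : ℝ) := by
    by_contra hcon
    push Not at hcon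
    have hb : ∀ n ∈ Finset.range (w ^ 3 + 1), ((Br n T).card : ℝ) / mu ^ n ≤
        (w : ℝ) ^ 4 * ((w : ℝ) ^ 4 * ((w : ℝ) ^ 4 * ((w : ℝ) ^ 5 * (δ * (C₁ * (w : ℝ) ^ 4))))) := by
      intro n hn
      have hn' : n ≤ w ^ 3 := by
        have := Finset.mem_range.1 hn
        omega
      have h1 := Br_small (M := w ^ 3) (T := T) (n := n) hJ hδ.le (by linarith) hcon hn'
      have hnr : (n : ℝ) ≤ (w : ℝ) ^ 3 := by exact_mod_cast hn'
      have hTr : (T : ℝ) ≤ 4 * w := by exact_mod_cast hT2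
      have hn0 : (0 : ℝ) ≤ n := Nat.cast_nonneg n
      have hT0 : (0 : ℝ) ≤ T := Nat.cast_nonneg T
      have hw3 : (8 : ℝ) ≤ (w : ℝ) ^ 3 := by
        calc (8 : ℝ) = 2 ^ 3 := by norm_num
          _ ≤ (w : ℝ) ^ 3 := pow_le_pow_left₀ (by norm_num) hwr 3
      have hw4 : 2 * (w : ℝ) ^ 3 ≤ (w : ℝ) ^ 4 := by
        have e : (w : ℝ) ^ 4 = w * (w : ℝ) ^ 3 := by ring
        rw [e]
        exact mul_le_mul_of_nonneg_right hwr (by linarith)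
      have b1 : (n : ℝ) + 1 ≤ (w : ℝ) ^ 4 := by linarith
      have b2 : (T : ℝ) + 1 ≤ (w : ℝ) ^ 4 := by
        have e : (w : ℝ) ^ 4 = (w : ℝ) ^ 3 * w := by ring
        have : 8 * (w : ℝ) ≤ (w : ℝ) ^ 3 * w := mul_le_mul_of_nonneg_right hw3 hwpos.le
        linarith
      have b3 : 2 * (n : ℝ) + 1 ≤ (w : ℝ) ^ 5 := by
        have e : (w : ℝ) ^ 5 = w * (w : ℝ) ^ 4 := by ring
        have : 2 * (w : ℝ) ^ 4 ≤ w * (w : ℝ) ^ 4 :=
          mul_le_mul_of_nonneg_right hwr (by positivity)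
        linarith
      rw [div_le_iff₀ (pow_pos hmu n)]
      refine h1.trans ?_
      have hC0 : (0 : ℝ) ≤ C₁ := by linarith
      calc ((n : ℝ) + 1) * (((n : ℝ) + 1) * (((T : ℝ) + 1) * ((2 * (n : ℝ) + 1) *
            (δ * (C₁ * ((n : ℝ) + 1)) * mu ^ n))))
          ≤ (w : ℝ) ^ 4 * ((w : ℝ) ^ 4 * ((w : ℝ) ^ 4 * ((w : ℝ) ^ 5 *
            (δ * (C₁ * (w : ℝ) ^ 4) * mu ^ n)))) := by gcongr
        _ = _ := by ring
    have h2 := Finset.sum_le_sum hb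
    rw [Finset.sum_const, nsmul_eq_mul, Finset.card_range] at h2
    have hw4 : ((w ^ 3 + 1 : ℕ) : ℝ) ≤ (w : ℝ) ^ 4 := by
      push_cast
      have hw3 : (8 : ℝ) ≤ (w : ℝ) ^ 3 := by
        calc (8 : ℝ) = 2 ^ 3 := by norm_num
          _ ≤ (w : ℝ) ^ 3 := pow_le_pow_left₀ (by norm_num) hwr 3
      have e : (w : ℝ) ^ 4 = w * (w : ℝ) ^ 3 := by ring
      have : 2 * (w : ℝ) ^ 3 ≤ w * (w : ℝ) ^ 3 := mul_le_mul_of_nonneg_right hwr (by linarith)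
      linarith
    have h3 : ((w ^ 3 + 1 : ℕ) : ℝ) * ((w : ℝ) ^ 4 * ((w : ℝ) ^ 4 * ((w : ℝ) ^ 4 *
        ((w : ℝ) ^ 5 * (δ * (C₁ * (w : ℝ) ^ 4)))))) ≤ 1 / (500000 * (w : ℝ) ^ 3) := by
      calc ((w ^ 3 + 1 : ℕ) : ℝ) * ((w : ℝ) ^ 4 * ((w : ℝ) ^ 4 * ((w : ℝ) ^ 4 *
            ((w : ℝ) ^ 5 * (δ * (C₁ * (w : ℝ) ^ 4))))))
          ≤ (w : ℝ) ^ 4 * ((w : ℝ) ^ 4 * ((w : ℝ) ^ 4 * ((w : ℝ) ^ 4 *
            ((w : ℝ) ^ 5 * (δ * (C₁ * (w : ℝ) ^ 4)))))) :=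
            mul_le_mul_of_nonneg_right hw4 (by positivity)
        _ = 1 / (500000 * (w : ℝ) ^ 3) := by
            rw [hδdef]
            have hC0 : C₁ ≠ 0 := by linarith
            have hw0 : (w : ℝ) ≠ 0 := hwpos.ne'
            field_simp
    have h4 : 1 / (500000 * (w : ℝ) ^ 3) < 1 / (400000 * (w : ℝ) ^ 3) := by
      apply one_div_lt_one_div_of_lt (by positivity)
      have : (0 : ℝ) < (w : ℝ) ^ 3 := by positivity
      linarith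
    linarith
  obtain ⟨j, hj, X, Y, hY, hJc⟩ := key
  have hjr : (j : ℝ) ≤ (w : ℝ) ^ 3 := by exact_mod_cast hj
  have h5 := arcs_of_J (j := j) (X := X) (Y := Y) (w := w) (by omega)
  have h6 : (δ * mu ^ j) ^ 4 ≤ ((J j X Y).card : ℝ) ^ 4 :=
    pow_le_pow_left₀ (by positivity) hJc.le 4
  refine ⟨4 * j + 3, by omega, ?_, ?_⟩
  · have e1 : 4 * j + 3 + 1 ≤ w ^ 6 := by
      have e2 : w ^ 6 = w ^ 3 * w ^ 3 := by ring
      have e3 : 8 ≤ w ^ 3 := by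
        calc 8 = 2 ^ 3 := by norm_num
          _ ≤ w ^ 3 := Nat.pow_le_pow_left hw2 3
      nlinarith
    exact e1.trans (Nat.pow_le_pow_right (by omega) (by omega))
  · have hj4 : (j : ℝ) + 1 ≤ (w : ℝ) ^ 4 := by
      have hw3 : (8 : ℝ) ≤ (w : ℝ) ^ 3 := by
        calc (8 : ℝ) = 2 ^ 3 := by norm_num
          _ ≤ (w : ℝ) ^ 3 := pow_le_pow_left₀ (by norm_num) hwr 3
      have e : (w : ℝ) ^ 4 = w * (w : ℝ) ^ 3 := by ring
      have : 2 * (w : ℝ) ^ 3 ≤ w * (w : ℝ) ^ 3 := mul_le_mul_of_nonneg_right hwr (by linarith)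
      linarith
    have hA0 : (0 : ℝ) ≤ ((A (4 * j + 3) 1 w).card : ℝ) := Nat.cast_nonneg _
    have h7 : (δ * mu ^ j) ^ 4 ≤ 8 * (w : ℝ) ^ 4 * ((A (4 * j + 3) 1 w).card : ℝ) := by
      refine (h6.trans h5).trans ?_
      apply mul_le_mul_of_nonneg_right _ hA0
      linarith
    have h8 : mu ^ (4 * j + 3) = (500000 * C₁ * (w : ℝ) ^ 28) ^ 4 * mu ^ 3 * (δ * mu ^ j) ^ 4 := by
      have e : (500000 * C₁ * (w : ℝ) ^ 28) * δ = 1 := by
        rw [hδdef]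
        apply mul_one_div_cancel
        have : 0 < 500000 * C₁ * (w : ℝ) ^ 28 := by positivity
        exact this.ne'
      calc mu ^ (4 * j + 3) = 1 ^ 4 * (mu ^ 3 * (mu ^ j) ^ 4) := by ring
        _ = ((500000 * C₁ * (w : ℝ) ^ 28) * δ) ^ 4 * (mu ^ 3 * (mu ^ j) ^ 4) := by rw [e]
        _ = _ := by ring
    rw [h8]
    calc (500000 * C₁ * (w : ℝ) ^ 28) ^ 4 * mu ^ 3 * (δ * mu ^ j) ^ 4
        ≤ (500000 * C₁ * (w : ℝ) ^ 28) ^ 4 * mu ^ 3 *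
          (8 * (w : ℝ) ^ 4 * ((A (4 * j + 3) 1 w).card : ℝ)) :=
          mul_le_mul_of_nonneg_left h7 (by positivity)
      _ = (8 * mu ^ 3 * (500000 * C₁) ^ 4) * ((w : ℝ) ^ 116 *
          ((A (4 * j + 3) 1 w).card : ℝ)) := by ring
      _ ≤ (w : ℝ) ^ a * ((w : ℝ) ^ 116 * ((A (4 * j + 3) 1 w).card : ℝ)) := by
          apply mul_le_mul_of_nonneg_right _ (by positivity)
          exact ha.trans (pow_le_pow_left₀ (by norm_num) hwr a)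
      _ = (w : ℝ) ^ (116 + a) * ((A (4 * j + 3) 1 w).card : ℝ) := by
          rw [pow_add]
          ring

end PolyAux

open PolyAux in
theorem exists_arcs : ∃ C : ℕ, ∀ w : ℕ, 2 ≤ w → ∃ N : ℕ, 1 ≤ N ∧ N + 1 ≤ w ^ C ∧
    mu ^ N ≤ (w : ℝ) ^ C * ((A N 1 w).card : ℝ) := by
  obtain ⟨Q, hQ2, C, hC⟩ := large
  refine ⟨Q * C + C, fun w hw => ?_⟩
  rcases le_total Q w with h | h
  · obtain ⟨N, h1, h2, h3⟩ := hC w h
    refine ⟨N, h1, h2.trans (Nat.pow_le_pow_right (by omega) (Nat.le_add_left _ _)), h3.trans ?_⟩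
    apply mul_le_mul_of_nonneg_right _ (Nat.cast_nonneg _)
    exact pow_le_pow_right₀ (by exact_mod_cast (by omega : 1 ≤ w)) (Nat.le_add_left _ _)
  · obtain ⟨N, h1, h2, h3⟩ := hC Q le_rfl
    have h4 : Q ^ C ≤ w ^ (Q * C + C) := by
      calc Q ^ C ≤ (2 ^ Q) ^ C := Nat.pow_le_pow_left (Nat.lt_two_pow_self).le C
        _ = 2 ^ (Q * C) := by rw [← pow_mul]
        _ ≤ w ^ (Q * C) := Nat.pow_le_pow_left hw _
        _ ≤ w ^ (Q * C + C) := Nat.pow_le_pow_right (by omega) (Nat.le_add_right _ _)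
    refine ⟨N, h1, h2.trans h4, h3.trans ?_⟩
    have h5 : ((A N 1 Q).card : ℝ) ≤ ((A N 1 w).card : ℝ) := by
      exact_mod_cast Finset.card_le_card (A_sub (by exact_mod_cast h))
    have h6 : (Q : ℝ) ^ C ≤ (w : ℝ) ^ (Q * C + C) := by exact_mod_cast h4
    exact mul_le_mul h6 h5 (Nat.cast_nonneg _) (by positivity)

end Pool.Agent.SawStrip
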