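import Pool.Agent.SawStrip.Mir1
import Pool.Agent.SawStrip.Mir2
import Pool.Agent.SawPoly.Final

/-!
# SawStrip module Up: polynomial upper bound for `J`

`P n h ⊆ PG n` (`Pool.Agent.SawPoly.mem_PG`), `r_bound 1` bounds `r n = |PG n| / mu ^ n` by `C n`;
then `J_sq`, `A_sq`: `|J n X Y| ^ 4 ≤ |P (4 n + 3) _| ≤ C (4 n + 3) mu ^ (4 n + 3)`, so
`|J n X Y| ≤ C' (n + 1) mu ^ n`.
-/

set_option autoImplicit false

open Pool.Agent.SawKes Pool.Agent.SawPoly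

namespace Pool.Agent.SawStrip

private theorem P_subset_PG (n : ℕ) (h : ℤ) : P n h ⊆ PG n := by
  intro L hL
  rw [mem_P] at hL
  obtain ⟨⟨h1, h2, h3, h4⟩, h5, -⟩ := hL
  rw [mem_PG]
  refine ⟨h1, h2, h4, h3, ?_⟩
  intro a ha b hb
  rw [h5] at ha
  rw [h2] at hb
  simp only [Option.mem_def, Option.some.injEq] at ha hb
  subst ha hb
  rw [nb_iff]
  right; right; left
  rfl

theorem J_le : ∃ C : ℝ, 1 ≤ C ∧ ∀ (n : ℕ) (X Y : ℤ),
    ((J n X Y).card : ℝ) ≤ C * ((n : ℝ) + 1) * mu ^ n := by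
  obtain ⟨C₁, hC₁, h₁⟩ := r_bound 1 one_pos
  have hmu : 0 < mu := mu_pos
  refine ⟨1 + 4 * C₁ * mu ^ 3, ?_, fun n X Y => ?_⟩
  · have : 0 < 4 * C₁ * mu ^ 3 := by positivity
    linarith
  · have e1 := J_sq n X Y
    have e2 := A_sq (2 * n + 1) (2 * X + 1) Y
    have e3 := Finset.card_le_card (P_subset_PG (2 * (2 * n + 1) + 1) (2 * Y + 1))
    have e4 : (J n X Y).card ^ 4 ≤ (PG (4 * n + 3)).card := by
      have : 2 * (2 * n + 1) + 1 = 4 * n + 3 := by ring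
      rw [this] at e2 e3
      calc (J n X Y).card ^ 4 = ((J n X Y).card ^ 2) ^ 2 := by ring
        _ ≤ (A (2 * n + 1) (2 * X + 1) Y).card ^ 2 := Nat.pow_le_pow_left e1 2
        _ ≤ _ := e2.trans e3
    have e5 : ((J n X Y).card : ℝ) ^ 4 ≤ ((PG (4 * n + 3)).card : ℝ) := by exact_mod_cast e4
    have e6 := h₁ (4 * n + 3) (by omega)
    have hp : 0 < mu ^ (4 * n + 3) := by positivity
    rw [r, div_le_iff₀ hp, Real.rpow_one] at e6
    have hn : (0 : ℝ) ≤ n := Nat.cast_nonneg n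
    set D : ℝ := 1 + 4 * C₁ * mu ^ 3 with hD
    have hD1 : 1 ≤ D := by
      have : 0 < 4 * C₁ * mu ^ 3 := by positivity
      linarith
    have e7 : ((J n X Y).card : ℝ) ^ 4 ≤ (D * ((n : ℝ) + 1) * mu ^ n) ^ 4 := by
      refine e5.trans (e6.trans ?_)
      push_cast
      have k1 : C₁ * (4 * (n : ℝ) + 3) * mu ^ (4 * n + 3)
          = (C₁ * mu ^ 3 * (4 * (n : ℝ) + 3)) * (mu ^ n) ^ 4 := by
        rw [← pow_mul, pow_add]; ring
      have k2 : (D * ((n : ℝ) + 1) * mu ^ n) ^ 4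
          = (D * ((n : ℝ) + 1)) ^ 4 * (mu ^ n) ^ 4 := by ring
      rw [k1, k2]
      refine mul_le_mul_of_nonneg_right ?_ (by positivity)
      have k3 : C₁ * mu ^ 3 * (4 * (n : ℝ) + 3) ≤ D * ((n : ℝ) + 1) := by
        have h0 : 0 ≤ C₁ * mu ^ 3 := by positivity
        nlinarith
      have k4 : 1 ≤ D * ((n : ℝ) + 1) := by nlinarith
      calc C₁ * mu ^ 3 * (4 * (n : ℝ) + 3) ≤ D * ((n : ℝ) + 1) := k3
        _ ≤ (D * ((n : ℝ) + 1)) ^ 4 := le_self_pow₀ k4 (by norm_num)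
    exact le_of_pow_le_pow_left₀ (by norm_num) (by positivity) e7

end Pool.Agent.SawStrip
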