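import Pool.Agent.SawStrip.Arc

/-!
A walk in a strip has many well separated horizontal edges above which there is free space.
-/

set_option autoImplicit false

open Pool.Agent.SawLim

namespace Pool.Agent.SawStrip

/-- walks as functions on `ℕ` -/
structure IsW (n : ℕ) (u : ℕ → ℤ × ℤ) : Prop where
  adj : ∀ k < n, adj (u k) (u (k + 1))
  inj : ∀ i ≤ n, ∀ j ≤ n, u i = u j → i = j

/-- the site `u m` is the highest one at horizontal distance less than `l` -/
def Peak (n l : ℕ) (u : ℕ → ℤ × ℤ) (v : ℤ × ℤ) : Prop :=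
  ∀ k ≤ n, |(u k).1 - v.1| < l → (u k).2 ≤ v.2

/-- the `i`-th edge is horizontal and there is free space above it -/
def Good (n l : ℕ) (u : ℕ → ℤ × ℤ) (i : ℕ) : Prop :=
  i < n ∧ Hor (u i) (u (i + 1)) ∧ ∃ v, (v = u i ∨ v = u (i + 1)) ∧ Peak n l u v

lemma ivt_up (f : ℕ → ℤ) (n : ℕ) (hf : ∀ k < n, |f (k + 1) - f k| ≤ 1) {i : ℕ} {c : ℤ}
    (hi : f i ≤ c) : ∀ d : ℕ, i + d ≤ n → c ≤ f (i + d) → ∃ k ≤ n, f k = c := by
  intro d
  induction d with
  | zero =>
    intro h1 h2
    rw [Nat.add_zero] at h2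
    exact ⟨i, by omega, by omega⟩
  | succ d ih =>
    intro h1 h2
    by_cases h3 : c ≤ f (i + d)
    · exact ih (by omega) h3
    · refine ⟨i + (d + 1), h1, ?_⟩
      have h4 := hf (i + d) (by omega)
      rw [abs_le] at h4
      have e : i + (d + 1) = i + d + 1 := by omega
      rw [e] at h2 ⊢
      omega

lemma ivt_down (f : ℕ → ℤ) (n : ℕ) (hf : ∀ k < n, |f (k + 1) - f k| ≤ 1) {i : ℕ} {c : ℤ}
    (hi : c ≤ f i) : ∀ d : ℕ, i + d ≤ n → f (i + d) ≤ c → ∃ k ≤ n, f k = c := by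
  intro d
  induction d with
  | zero =>
    intro h1 h2
    rw [Nat.add_zero] at h2
    exact ⟨i, by omega, by omega⟩
  | succ d ih =>
    intro h1 h2
    by_cases h3 : f (i + d) ≤ c
    · exact ih (by omega) h3
    · refine ⟨i + (d + 1), h1, ?_⟩
      have h4 := hf (i + d) (by omega)
      rw [abs_le] at h4
      have e : i + (d + 1) = i + d + 1 := by omega
      rw [e] at h2 ⊢
      omega

lemma ivt (f : ℕ → ℤ) (n : ℕ) (hf : ∀ k < n, |f (k + 1) - f k| ≤ 1) {i j : ℕ} (hi : i ≤ n)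
    (hj : j ≤ n) {c : ℤ} (h1 : f i ≤ c) (h2 : c ≤ f j) : ∃ k ≤ n, f k = c := by
  rcases le_total i j with h | h
  · obtain ⟨d, rfl⟩ := Nat.exists_eq_add_of_le h
    exact ivt_up f n hf h1 d hj h2
  · obtain ⟨d, rfl⟩ := Nat.exists_eq_add_of_le h
    exact ivt_down f n hf h2 d hi h1

lemma adj_fst {p q : ℤ × ℤ} (h : adj p q) : |q.1 - p.1| ≤ 1 := by
  unfold adj at h
  have h3 := abs_nonneg (q.2 - p.2)
  omega

lemma adj_cases {p q : ℤ × ℤ} (h : adj p q) :
    Hor p q ∨ (q.1 = p.1 ∧ (q.2 = p.2 + 1 ∨ q.2 + 1 = p.2)) := by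
  unfold adj at h
  unfold Hor
  rcases abs_cases (q.1 - p.1) with ⟨h1, h2⟩ | ⟨h1, h2⟩ <;>
    rcases abs_cases (q.2 - p.2) with ⟨h3, h4⟩ | ⟨h3, h4⟩ <;> omega

lemma Hor.symm {p q : ℤ × ℤ} (h : Hor p q) : Hor q p := by
  unfold Hor at *
  omega

variable {n h l : ℕ} {u : ℕ → ℤ × ℤ} {B : ℤ}

lemma exists_peak (hB : ∀ k ≤ n, B - h ≤ (u k).2 ∧ (u k).2 ≤ B) {c : ℤ}
    (hc : ∃ k ≤ n, (u k).1 = c) : ∃ m ≤ n, |(u m).1 - c| ≤ l * h ∧ Peak n l u (u m) := by
  obtain ⟨m, hm, hmax⟩ := Finset.exists_max_image (Finset.range (n + 1))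
    (fun k => (l : ℤ) * (u k).2 - |(u k).1 - c|) ⟨0, by simp⟩
  have hm' : m ≤ n := by rw [Finset.mem_range] at hm; omega
  have hl : (0 : ℤ) ≤ l := Nat.cast_nonneg _
  refine ⟨m, hm', ?_, ?_⟩
  · obtain ⟨k, hk, hkc⟩ := hc
    have h1 := hmax k (Finset.mem_range.2 (by omega))
    simp only [hkc, sub_self, abs_zero, sub_zero] at h1
    have h2 := (hB k hk).1
    have h3 := (hB m hm').2
    nlinarith
  · intro k hk hkm
    by_contra hlt
    push Not at hlt
    have h1 := hmax k (Finset.mem_range.2 (by omega))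
    have h2 : |(u k).1 - c| ≤ |(u k).1 - (u m).1| + |(u m).1 - c| := by
      have := abs_add_le ((u k).1 - (u m).1) ((u m).1 - c)
      simpa using this
    have h3 : (u m).2 + 1 ≤ (u k).2 := by omega
    nlinarith

lemma good_of_peak (hu : IsW n u) (hl : 1 ≤ l) {m : ℕ} (h0 : 0 < m) (hn : m < n)
    (hp : Peak n l u (u m)) : ∃ i, (i = m ∨ i + 1 = m) ∧ Good n l u i := by
  have key : ∀ k ≤ n, adj (u m) (u k) → Hor (u m) (u k) ∨ u k = ((u m).1, (u m).2 - 1) := by
    intro k hk hadj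
    rcases adj_cases hadj with h1 | ⟨h1, h2 | h2⟩
    · exact Or.inl h1
    · have := hp k hk (by rw [h1, sub_self, abs_zero]; exact_mod_cast hl)
      omega
    · right
      ext
      · exact h1
      · simp only; omega
  have a1 : adj (u m) (u (m + 1)) := hu.adj m hn
  have a2 : adj (u m) (u (m - 1)) := by
    have := hu.adj (m - 1) (by omega)
    rw [show m - 1 + 1 = m by omega] at this
    exact (adj_comm' _ _).1 this
  rcases key (m + 1) (by omega) a1 with h1 | h1
  · exact ⟨m, Or.inl rfl, hn, h1, u m, Or.inl rfl, hp⟩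
  · rcases key (m - 1) (by omega) a2 with h2 | h2
    · refine ⟨m - 1, Or.inr (by omega), by omega, ?_, u m, Or.inr ?_, hp⟩
      · rw [show m - 1 + 1 = m by omega]
        exact h2.symm
      · rw [show m - 1 + 1 = m by omega]
    · have := hu.inj (m + 1) (by omega) (m - 1) (by omega) (h1.trans h2.symm)
      omega

lemma card_box (hu : IsW n u) (hB : ∀ k ≤ n, B - h ≤ (u k).2 ∧ (u k).2 ≤ B) {a b : ℤ}
    (hab : ∀ k ≤ n, a ≤ (u k).1 ∧ (u k).1 ≤ b) : ((n : ℤ) + 1) ≤ (b - a + 1) * (h + 1) := by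
  have h1 : (Finset.range (n + 1)).card ≤ ((Finset.Icc a b) ×ˢ (Finset.Icc (B - h) B)).card := by
    apply Finset.card_le_card_of_injOn u
    · intro k hk
      have hk' : k ≤ n := by
        have := Finset.mem_range.1 (Finset.mem_coe.1 hk)
        omega
      rw [Finset.mem_coe, Finset.mem_product, Finset.mem_Icc, Finset.mem_Icc]
      exact ⟨hab k hk', hB k hk'⟩
    · intro i hi j hj hij
      have hi' := Finset.mem_range.1 (Finset.mem_coe.1 hi)
      have hj' := Finset.mem_range.1 (Finset.mem_coe.1 hj)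
      exact hu.inj i (by omega) j (by omega) hij
  rw [Finset.card_range, Finset.card_product, Int.card_Icc, Int.card_Icc] at h1
  have h2 : a ≤ b := (hab 0 (Nat.zero_le _)).1.trans (hab 0 (Nat.zero_le _)).2
  have h3 : ((b + 1 - a).toNat : ℤ) = b - a + 1 := by omega
  have h4 : ((B + 1 - (B - h)).toNat : ℤ) = h + 1 := by omega
  have h5 : ((n + 1 : ℕ) : ℤ) ≤ (((b + 1 - a).toNat * (B + 1 - (B - h)).toNat : ℕ) : ℤ) := by
    exact_mod_cast h1
  push_cast at h5
  rw [h3, h4] at h5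
  exact h5

/-- **Many good edges.** -/
theorem exists_good (hu : IsW n u) (hB : ∀ k ≤ n, B - h ≤ (u k).2 ∧ (u k).2 ≤ B) (hl : 1 ≤ l)
    (W : ℕ) (hn : (W + 2) * (2 * l * (h + 1) + 1) * (h + 1) ≤ n + 1) :
    ∃ idx : Fin W → ℕ, (∀ j, Good n l u (idx j)) ∧
      ∀ j j', j ≠ j' → (2 * l - 1 : ℤ) ≤ |(u (idx j)).1 - (u (idx j')).1| := by
  obtain ⟨i₀, hi₀, hmin⟩ := Finset.exists_min_image (Finset.range (n + 1))
    (fun k => (u k).1) ⟨0, by simp⟩
  obtain ⟨i₁, hi₁, hmax⟩ := Finset.exists_max_image (Finset.range (n + 1))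
    (fun k => (u k).1) ⟨0, by simp⟩
  have hi₀' : i₀ ≤ n := by rw [Finset.mem_range] at hi₀; omega
  have hi₁' : i₁ ≤ n := by rw [Finset.mem_range] at hi₁; omega
  set D : ℤ := 2 * l * (h + 1) + 1 with hD
  have hD0 : 0 < D := by positivity
  have hbox := card_box hu hB (a := (u i₀).1) (b := (u i₁).1) (fun k hk =>
    ⟨hmin k (Finset.mem_range.2 (by omega)), hmax k (Finset.mem_range.2 (by omega))⟩)
  have hlen : ((W : ℤ) + 2) * D ≤ (u i₁).1 - (u i₀).1 + 1 := by
    have h1 : (((W : ℤ) + 2) * D) * (h + 1) ≤ n + 1 := by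
      rw [hD]
      exact_mod_cast hn
    have h2 := h1.trans hbox
    have h3 : (0 : ℤ) < h + 1 := by positivity
    exact le_of_mul_le_mul_right h2 h3
  have hstep : ∀ k < n, |(u (k + 1)).1 - (u k).1| ≤ 1 := fun k hk => adj_fst (hu.adj k hk)
  have hcol : ∀ j : Fin (W + 2), ∃ k ≤ n, (u k).1 = (u i₀).1 + (j : ℕ) * D := by
    intro j
    apply ivt (fun k => (u k).1) n hstep hi₀' hi₁'
    · have : (0 : ℤ) ≤ (j : ℕ) * D := by positivity
      linarith
    · have h1 : ((j : ℕ) : ℤ) ≤ W + 1 := by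
        have := j.2
        omega
      have h2 : ((j : ℕ) : ℤ) * D ≤ (W + 1) * D := mul_le_mul_of_nonneg_right h1 hD0.le
      nlinarith
  choose m hm1 hm2 hm3 using fun j : Fin (W + 2) => exists_peak (l := l) hB (hcol j)
  have hsep : ∀ j j' : Fin (W + 2), j ≠ j' →
      (2 * l + 1 : ℤ) ≤ |(u (m j)).1 - (u (m j')).1| := by
    have aux : ∀ j j' : Fin (W + 2), j < j' →
        (2 * l + 1 : ℤ) ≤ |(u (m j)).1 - (u (m j')).1| := by
      intro j j' hjj
      have h1 := hm2 j
      have h2 := hm2 j'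
      have h3 : ((j : ℕ) : ℤ) + 1 ≤ (j' : ℕ) := by exact_mod_cast hjj
      have h4 : ((j : ℕ) : ℤ) * D + D ≤ (j' : ℕ) * D := by nlinarith
      rw [abs_le] at h1 h2
      have h5 : D = 2 * (l * h) + 2 * l + 1 := by rw [hD]; ring
      rw [le_abs]
      right
      linarith [h1.1, h1.2, h2.1, h2.2]
    intro j j' hne
    rcases lt_or_gt_of_ne hne with h1 | h1
    · exact aux j j' h1
    · rw [abs_sub_comm]
      exact aux j' j h1
  have hminj : Function.Injective m := by
    intro j j' he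
    by_contra hne
    have := hsep j j' hne
    rw [he, sub_self, abs_zero] at this
    have : (0 : ℤ) ≤ l := Nat.cast_nonneg _
    linarith
  set J : Finset (Fin (W + 2)) := Finset.univ.filter fun j => m j ≠ 0 ∧ m j ≠ n with hJ
  have hJc : W ≤ J.card := by
    have h1 : (Finset.univ : Finset (Fin (W + 2))) ⊆
        J ∪ ((Finset.univ.filter fun j => m j = 0) ∪ (Finset.univ.filter fun j => m j = n)) := by
      intro j _
      simp only [hJ, Finset.mem_union, Finset.mem_filter, Finset.mem_univ, true_and]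
      tauto
    have h2 : ∀ a : ℕ, (Finset.univ.filter fun j => m j = a).card ≤ 1 := by
      intro a
      rw [Finset.card_le_one]
      intro x hx y hy
      rw [Finset.mem_filter] at hx hy
      exact hminj (hx.2.trans hy.2.symm)
    have h3 := (Finset.card_le_card h1).trans (Finset.card_union_le _ _)
    have h4 := Finset.card_union_le (Finset.univ.filter fun j => m j = 0)
      (Finset.univ.filter fun j => m j = n)
    have h5 := h2 0
    have h6 := h2 n
    rw [Finset.card_univ, Fintype.card_fin] at h3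
    omega
  obtain ⟨e⟩ : Nonempty (Fin W ↪ J) := by
    apply Function.Embedding.nonempty_of_card_le
    simpa using hJc
  have hgood : ∀ j : Fin W, ∃ i, (i = m (e j) ∨ i + 1 = m (e j)) ∧ Good n l u i := by
    intro j
    have h1 := Finset.mem_filter.1 (e j).2
    apply good_of_peak hu hl (Nat.pos_of_ne_zero h1.2.1)
    · exact lt_of_le_of_ne (hm1 _) h1.2.2
    · exact hm3 _
  choose idx hidx1 hidx2 using hgood
  refine ⟨idx, hidx2, ?_⟩
  have hclose : ∀ j, |(u (idx j)).1 - (u (m (e j))).1| ≤ 1 := by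
    intro j
    rcases hidx1 j with h1 | h1
    · rw [h1, sub_self, abs_zero]; exact zero_le_one
    · have := hstep (idx j) (hidx2 j).1
      rw [h1] at this
      rw [abs_sub_comm]
      exact this
  intro j j' hne
  have h1 : ((e j : J) : Fin (W + 2)) ≠ (e j' : J) := by
    intro h2
    exact hne (e.injective (Subtype.ext h2))
  have h2 := hsep _ _ h1
  have h3 := hclose j
  have h4 := hclose j'
  have h5 : |(u (m (e j))).1 - (u (m (e j'))).1| ≤ |(u (m (e j))).1 - (u (idx j)).1| +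
      |(u (idx j)).1 - (u (idx j')).1| + |(u (idx j')).1 - (u (m (e j'))).1| := by
    have a1 := abs_add_le ((u (m (e j))).1 - (u (idx j)).1 + ((u (idx j)).1 - (u (idx j')).1))
      ((u (idx j')).1 - (u (m (e j'))).1)
    have a2 := abs_add_le ((u (m (e j))).1 - (u (idx j)).1) ((u (idx j)).1 - (u (idx j')).1)
    have e1 : (u (m (e j))).1 - (u (idx j)).1 + ((u (idx j)).1 - (u (idx j')).1) +
      ((u (idx j')).1 - (u (m (e j'))).1) = (u (m (e j))).1 - (u (m (e j'))).1 := by ring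
    rw [e1] at a1
    linarith
  rw [abs_sub_comm (u (m (e j))).1 (u (idx j)).1] at h5
  linarith

end Pool.Agent.SawStrip
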